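import Pool.Agent.SVM.BMOne

set_option autoImplicit false

/-!
# [SVM-PL2] one-dimensional Prekopa-Leindler (midpoint version)

`pl_one`: reduce to bounded `f`, `g` by truncation, normalise the suprema to `1`, compare the level sets
with `bm_one` and integrate (layer cake), then AM-GM.
-/

namespace Pool.Agent.SVM

open MeasureTheory Finset
open scoped ENNReal Pointwise

/-- one-dimensional Brunn-Minkowski for the level sets. -/
theorem plo_level (A B C : Set ℝ) (hA : MeasurableSet A) (hB : MeasurableSet B)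
    (hA0 : A.Nonempty) (hB0 : B.Nonempty) (hAB : ∀ x ∈ A, ∀ y ∈ B, (x + y) / 2 ∈ C) :
    volume A + volume B ≤ 2 * volume C := by
  obtain ⟨a, ha⟩ := hA0
  obtain ⟨b, hb⟩ := hB0
  rw [hA.measure_eq_iSup_isCompact, hB.measure_eq_iSup_isCompact]
  have key : ∀ K : Set ℝ, K ⊆ A → IsCompact K → ∀ L : Set ℝ, L ⊆ B → IsCompact L →
      volume K + volume L ≤ 2 * volume C := by
    intro K hKA hK L hLB hL
    have h1 := bm_one (insert a K) (insert b L) (hK.insert a) (hL.insert b)
      (Set.insert_nonempty _ _) (Set.insert_nonempty _ _)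
    have h2 : insert a K + insert b L ⊆ (fun z : ℝ => z * (1 / 2)) ⁻¹' C := by
      rintro z ⟨x, hx, y, hy, rfl⟩
      have hxA : x ∈ A := by
        rcases hx with rfl | hx
        · exact ha
        · exact hKA hx
      have hyB : y ∈ B := by
        rcases hy with rfl | hy
        · exact hb
        · exact hLB hy
      have := hAB x hxA y hyB
      simpa [Set.mem_preimage, div_eq_mul_inv] using this
    have h3 : volume ((fun z : ℝ => z * (1 / 2)) ⁻¹' C) = 2 * volume C := by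
      rw [Real.volume_preimage_mul_right (by norm_num)]
      norm_num
    calc volume K + volume L ≤ volume (insert a K) + volume (insert b L) :=
          add_le_add (measure_mono (Set.subset_insert _ _)) (measure_mono (Set.subset_insert _ _))
      _ ≤ volume (insert a K + insert b L) := h1
      _ ≤ volume ((fun z : ℝ => z * (1 / 2)) ⁻¹' C) := measure_mono h2
      _ = 2 * volume C := h3
  have e1 : (⨆ (K : Set ℝ) (_ : K ⊆ A) (_ : IsCompact K), volume K)
      = ⨆ (K : Set ℝ) (_ : K ⊆ A ∧ IsCompact K), volume K := by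
    simp only [iSup_and]
  have e2 : (⨆ (K : Set ℝ) (_ : K ⊆ B) (_ : IsCompact K), volume K)
      = ⨆ (K : Set ℝ) (_ : K ⊆ B ∧ IsCompact K), volume K := by
    simp only [iSup_and]
  rw [e1, e2]
  exact ENNReal.biSup_add_biSup_le' ⟨∅, Set.empty_subset _, isCompact_empty⟩
    ⟨∅, Set.empty_subset _, isCompact_empty⟩ (fun K hK L hL => key K hK.1 hK.2 L hL.1 hL.2)

/-- the normalised real version. -/
theorem plo_norm (F G H : ℝ → ℝ) (hF : Measurable F) (hG : Measurable G) (hH : Measurable H)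
    (hF0 : ∀ x, 0 ≤ F x) (hG0 : ∀ x, 0 ≤ G x) (hH0 : ∀ x, 0 ≤ H x)
    (hF1 : ∀ x, F x ≤ 1) (hG1 : ∀ x, G x ≤ 1)
    (hFs : ∀ t : ℝ, t < 1 → ∃ x, t < F x) (hGs : ∀ t : ℝ, t < 1 → ∃ x, t < G x)
    (hFG : ∀ x y, F x * G y ≤ H ((x + y) / 2) ^ 2) :
    (∫⁻ x, ENNReal.ofReal (F x)) + (∫⁻ x, ENNReal.ofReal (G x))
      ≤ 2 * ∫⁻ x, ENNReal.ofReal (H x) := by
  rw [lintegral_eq_lintegral_meas_lt volume (Filter.Eventually.of_forall hF0) hF.aemeasurable,
    lintegral_eq_lintegral_meas_lt volume (Filter.Eventually.of_forall hG0) hG.aemeasurable,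
    lintegral_eq_lintegral_meas_lt volume (Filter.Eventually.of_forall hH0) hH.aemeasurable]
  have hanti : Antitone (fun t : ℝ => volume {a | t < F a}) := by
    intro s t hst
    exact measure_mono (fun a (ha : t < F a) => lt_of_le_of_lt hst ha)
  have hantiH : Antitone (fun t : ℝ => volume {a | t < H a}) := by
    intro s t hst
    exact measure_mono (fun a (ha : t < H a) => lt_of_le_of_lt hst ha)
  rw [← lintegral_add_left hanti.measurable, ← lintegral_const_mul _ hantiH.measurable]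
  refine setLIntegral_mono' measurableSet_Ioi (fun t ht => ?_)
  have ht0 : 0 < t := ht
  by_cases ht1 : t < 1
  · refine plo_level _ _ _ (measurableSet_lt measurable_const hF) (measurableSet_lt measurable_const hG)
      (hFs t ht1) (hGs t ht1) ?_
    intro x hx y hy
    have hx' : t < F x := hx
    have hy' : t < G y := hy
    have h1 := hFG x y
    show t < H ((x + y) / 2)
    by_contra hcon
    push Not at hcon
    have h2 : H ((x + y) / 2) ^ 2 ≤ t ^ 2 := pow_le_pow_left₀ (hH0 _) hcon 2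
    nlinarith
  · have e1 : {a | t < F a} = ∅ := by
      ext a
      simp only [Set.mem_ofPred_eq, Set.mem_empty_iff_false, iff_false, not_lt]
      exact (hF1 a).trans (not_lt.mp ht1)
    have e2 : {a | t < G a} = ∅ := by
      ext a
      simp only [Set.mem_ofPred_eq, Set.mem_empty_iff_false, iff_false, not_lt]
      exact (hG1 a).trans (not_lt.mp ht1)
    rw [e1, e2]
    simp

/-- AM-GM in `ℝ≥0∞`. -/
theorem plo_amgm (a b c : ℝ≥0∞) (h : a + b ≤ 2 * c) : a * b ≤ c ^ 2 := by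
  by_cases hc : c = ⊤
  · rw [hc]
    simp
  · have hc2 : 2 * c ≠ ⊤ := ENNReal.mul_ne_top (by simp) hc
    have ha : a ≠ ⊤ := ne_top_of_le_ne_top hc2 (le_self_add.trans h)
    have hb : b ≠ ⊤ := ne_top_of_le_ne_top hc2 (le_add_self.trans h)
    lift a to NNReal using ha
    lift b to NNReal using hb
    lift c to NNReal using hc
    have h' : (a : ℝ) + b ≤ 2 * c := by exact_mod_cast h
    have h2 : (a : ℝ) * b ≤ c ^ 2 := by
      nlinarith [sq_nonneg ((a : ℝ) - b), a.coe_nonneg, b.coe_nonneg, c.coe_nonneg,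
        pow_le_pow_left₀ (add_nonneg a.coe_nonneg b.coe_nonneg) h' 2]
    exact_mod_cast h2

/-- the bounded case. -/
theorem plo_bdd (f g h : ℝ → ℝ≥0∞) (hf : Measurable f) (hg : Measurable g) (hh : Measurable h)
    (H : ∀ x y, f x * g y ≤ h ((x + y) / 2) ^ 2) (k : ℝ≥0∞) (hk : k ≠ ⊤)
    (hfk : ∀ x, f x ≤ k) (hgk : ∀ x, g x ≤ k) :
    (∫⁻ x, f x) * (∫⁻ x, g x) ≤ (∫⁻ x, h x) ^ 2 := by
  set Mf : ℝ≥0∞ := ⨆ x, f x with hMf
  set Mg : ℝ≥0∞ := ⨆ x, g x with hMg
  have hfM : ∀ x, f x ≤ Mf := fun x => le_iSup f x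
  have hgM : ∀ x, g x ≤ Mg := fun x => le_iSup g x
  have hMft : Mf ≠ ⊤ := ne_top_of_le_ne_top hk (iSup_le hfk)
  have hMgt : Mg ≠ ⊤ := ne_top_of_le_ne_top hk (iSup_le hgk)
  by_cases hf0 : Mf = 0
  · have : ∀ x, f x = 0 := fun x => le_antisymm ((hfM x).trans hf0.le) bot_le
    simp [this]
  by_cases hg0 : Mg = 0
  · have : ∀ x, g x = 0 := fun x => le_antisymm ((hgM x).trans hg0.le) bot_le
    simp [this]
  set s : ℝ≥0∞ := (Mf * Mg) ^ (1 / 2 : ℝ) with hs
  have hs2 : s ^ 2 = Mf * Mg := by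
    rw [hs, ← ENNReal.rpow_natCast, ← ENNReal.rpow_mul]
    norm_num
  have hst : s ≠ ⊤ := by
    intro hcon
    rw [hcon] at hs2
    simp at hs2
    exact (ENNReal.mul_ne_top hMft hMgt) hs2.symm
  have hs0 : s ≠ 0 := by
    intro hcon
    rw [hcon] at hs2
    have : Mf * Mg = 0 := by simpa using hs2.symm
    rcases mul_eq_zero.mp this with h1 | h1
    · exact hf0 h1
    · exact hg0 h1
  have hF1 : ∀ x, f x / Mf ≤ 1 := fun x => ENNReal.div_le_of_le_mul (by simpa using hfM x)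
  have hG1 : ∀ x, g x / Mg ≤ 1 := fun x => ENNReal.div_le_of_le_mul (by simpa using hgM x)
  have hFt : ∀ x, f x / Mf ≠ ⊤ := fun x => ne_top_of_le_ne_top ENNReal.one_ne_top (hF1 x)
  have hGt : ∀ x, g x / Mg ≠ ⊤ := fun x => ne_top_of_le_ne_top ENNReal.one_ne_top (hG1 x)
  have hHt : ∀ x, min (h x / s) 1 ≠ ⊤ := fun x =>
    ne_top_of_le_ne_top ENNReal.one_ne_top (min_le_right _ _)
  have hprod : ∀ x y, (f x / Mf) * (g y / Mg) ≤ (min (h ((x + y) / 2) / s) 1) ^ 2 := by
    intro x y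
    rcases le_total (h ((x + y) / 2) / s) 1 with h1 | h1
    · rw [min_eq_left h1]
      have e1 : (f x / Mf) * (g y / Mg) = (f x * g y) / (Mf * Mg) := by
        rw [div_eq_mul_inv, div_eq_mul_inv, div_eq_mul_inv,
          ENNReal.mul_inv (Or.inl hf0) (Or.inl hMft)]
        ring
      have e2 : (h ((x + y) / 2) / s) ^ 2 = h ((x + y) / 2) ^ 2 / (Mf * Mg) := by
        rw [← hs2, div_eq_mul_inv (h ((x + y) / 2)) s, mul_pow, ← ENNReal.inv_pow, ← div_eq_mul_inv]
      rw [e1, e2]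
      exact ENNReal.div_le_div_right (H x y) _
    · rw [min_eq_right h1, one_pow]
      calc (f x / Mf) * (g y / Mg) ≤ 1 * 1 := mul_le_mul' (hF1 x) (hG1 y)
        _ = 1 := one_mul 1
  have hsupf : ∀ t : ℝ, t < 1 → ∃ x, t < (f x / Mf).toReal := by
    intro t ht
    by_cases ht0 : t < 0
    · exact ⟨0, lt_of_lt_of_le ht0 ENNReal.toReal_nonneg⟩
    · push Not at ht0
      have h1 : ENNReal.ofReal t * Mf < Mf := by
        have : ENNReal.ofReal t < 1 := by
          rw [← ENNReal.ofReal_one]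
          exact (ENNReal.ofReal_lt_ofReal_iff one_pos).mpr ht
        calc ENNReal.ofReal t * Mf < 1 * Mf := ENNReal.mul_lt_mul_left hf0 hMft this
          _ = Mf := one_mul _
      obtain ⟨x, hx⟩ := lt_iSup_iff.mp (hMf ▸ h1)
      refine ⟨x, ?_⟩
      rw [← ENNReal.ofReal_lt_iff_lt_toReal ht0 (hFt x)]
      rw [ENNReal.lt_div_iff_mul_lt (Or.inl hf0) (Or.inl hMft)]
      exact hx
  have hsupg : ∀ t : ℝ, t < 1 → ∃ x, t < (g x / Mg).toReal := by
    intro t ht
    by_cases ht0 : t < 0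
    · exact ⟨0, lt_of_lt_of_le ht0 ENNReal.toReal_nonneg⟩
    · push Not at ht0
      have h1 : ENNReal.ofReal t * Mg < Mg := by
        have : ENNReal.ofReal t < 1 := by
          rw [← ENNReal.ofReal_one]
          exact (ENNReal.ofReal_lt_ofReal_iff one_pos).mpr ht
        calc ENNReal.ofReal t * Mg < 1 * Mg := ENNReal.mul_lt_mul_left hg0 hMgt this
          _ = Mg := one_mul _
      obtain ⟨x, hx⟩ := lt_iSup_iff.mp (hMg ▸ h1)
      refine ⟨x, ?_⟩
      rw [← ENNReal.ofReal_lt_iff_lt_toReal ht0 (hGt x)]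
      rw [ENNReal.lt_div_iff_mul_lt (Or.inl hg0) (Or.inl hMgt)]
      exact hx
  have main := plo_norm (fun x => (f x / Mf).toReal) (fun x => (g x / Mg).toReal)
    (fun x => (min (h x / s) 1).toReal)
    (hf.div_const _).ennreal_toReal (hg.div_const _).ennreal_toReal
    ((hh.div_const _).min measurable_const).ennreal_toReal
    (fun x => ENNReal.toReal_nonneg) (fun x => ENNReal.toReal_nonneg)
    (fun x => ENNReal.toReal_nonneg)
    (fun x => by
      have := ENNReal.toReal_mono ENNReal.one_ne_top (hF1 x)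
      simpa using this)
    (fun x => by
      have := ENNReal.toReal_mono ENNReal.one_ne_top (hG1 x)
      simpa using this)
    hsupf hsupg
    (fun x y => by
      have := ENNReal.toReal_mono (ENNReal.pow_ne_top (hHt ((x + y) / 2))) (hprod x y)
      rw [ENNReal.toReal_mul, ENNReal.toReal_pow] at this
      exact this)
  simp only [ENNReal.ofReal_toReal (hFt _), ENNReal.ofReal_toReal (hGt _),
    ENNReal.ofReal_toReal (hHt _)] at main
  have hle : (∫⁻ x, f x / Mf) + (∫⁻ x, g x / Mg) ≤ 2 * ∫⁻ x, h x / s :=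
    main.trans (mul_le_mul_right (lintegral_mono (fun x => min_le_left _ _)) _)
  have hfin := plo_amgm _ _ _ hle
  simp only [div_eq_mul_inv] at hfin
  rw [lintegral_mul_const _ hf, lintegral_mul_const _ hg, lintegral_mul_const _ hh] at hfin
  have e1 : ((∫⁻ x, f x) * Mf⁻¹) * ((∫⁻ x, g x) * Mg⁻¹)
      = ((∫⁻ x, f x) * (∫⁻ x, g x)) * (Mf * Mg)⁻¹ := by
    rw [ENNReal.mul_inv (Or.inl hf0) (Or.inl hMft)]
    ring
  have e2 : ((∫⁻ x, h x) * s⁻¹) ^ 2 = (∫⁻ x, h x) ^ 2 * (Mf * Mg)⁻¹ := by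
    rw [← hs2, mul_pow, ENNReal.inv_pow]
  rw [e1, e2] at hfin
  have hne0 : (Mf * Mg)⁻¹ ≠ 0 := ENNReal.inv_ne_zero.mpr (ENNReal.mul_ne_top hMft hMgt)
  have hnet : (Mf * Mg)⁻¹ ≠ ⊤ := ENNReal.inv_ne_top.mpr (mul_ne_zero hf0 hg0)
  exact (ENNReal.mul_le_mul_iff_left hne0 hnet).mp hfin

theorem plo_trunc (f : ℝ → ℝ≥0∞) (hf : Measurable f) :
    ∫⁻ x, f x = ⨆ k : ℕ, ∫⁻ x, min (f x) (k : ℝ≥0∞) := by
  rw [← lintegral_iSup (fun k => hf.min measurable_const)]
  · refine lintegral_congr (fun x => ?_)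
    refine le_antisymm ?_ (iSup_le (fun k => min_le_left _ _))
    by_cases hx : f x = ⊤
    · rw [hx]
      simp only [le_top, inf_of_le_right]
      rw [ENNReal.iSup_natCast]
    · obtain ⟨k, hk⟩ := ENNReal.exists_nat_gt hx
      exact le_iSup_of_le k (by rw [min_eq_left hk.le])
  · intro i j hij x
    exact min_le_min_left _ (by exact_mod_cast hij)

theorem pl_one (f g h : ℝ → ℝ≥0∞) (hf : Measurable f) (hg : Measurable g) (hh : Measurable h)
    (H : ∀ x y, f x * g y ≤ h ((x + y) / 2) ^ 2) :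
    (∫⁻ x, f x) * (∫⁻ x, g x) ≤ (∫⁻ x, h x) ^ 2 := by
  rw [plo_trunc f hf, plo_trunc g hg, ENNReal.iSup_mul]
  refine iSup_le (fun i => ?_)
  rw [ENNReal.mul_iSup]
  refine iSup_le (fun j => ?_)
  calc (∫⁻ x, min (f x) (i : ℝ≥0∞)) * (∫⁻ x, min (g x) (j : ℝ≥0∞))
      ≤ (∫⁻ x, min (f x) ((max i j : ℕ) : ℝ≥0∞)) * (∫⁻ x, min (g x) ((max i j : ℕ) : ℝ≥0∞)) :=
        mul_le_mul' (lintegral_mono (fun x => min_le_min_left _ (by exact_mod_cast le_max_left i j)))
          (lintegral_mono (fun x => min_le_min_left _ (by exact_mod_cast le_max_right i j)))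
    _ ≤ (∫⁻ x, h x) ^ 2 := by
        refine plo_bdd _ _ _ (hf.min measurable_const) (hg.min measurable_const) hh ?_
          ((max i j : ℕ) : ℝ≥0∞) (ENNReal.natCast_ne_top _) (fun x => min_le_right _ _)
          (fun x => min_le_right _ _)
        intro x y
        exact (mul_le_mul' (min_le_left _ _) (min_le_left _ _)).trans (H x y)

end Pool.Agent.SVM
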