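import Pool.Agent.SVM.Base

set_option autoImplicit false

/-!
# [SVM-PL1] one-dimensional Brunn-Minkowski

Translate so that `sSup A = 0 = sInf B`; then `A ∪ B ⊆ A + B` and `A ∩ B ⊆ {0}`.
(Compact non-empty sets contain their sup and inf; the volume is translation invariant.)
-/

namespace Pool.Agent.SVM

open MeasureTheory Finset
open scoped ENNReal Pointwise

theorem bm_one (A B : Set ℝ) (hA : IsCompact A) (hB : IsCompact B) (hA0 : A.Nonempty)
    (hB0 : B.Nonempty) : volume A + volume B ≤ volume (A + B) := by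
  set a := sSup A with ha
  set b := sInf B with hb
  have haA : a ∈ A := hA.sSup_mem hA0
  have hbB : b ∈ B := hB.sInf_mem hB0
  have h1 : (b +ᵥ A) ∪ (a +ᵥ B) ⊆ A + B := by
    rintro x (hx | hx)
    · obtain ⟨y, hy, rfl⟩ := hx
      refine ⟨y, hy, b, hbB, ?_⟩
      simp only [vadd_eq_add]
      ring
    · obtain ⟨y, hy, rfl⟩ := hx
      exact ⟨a, haA, y, hy, rfl⟩
  have h2 : (b +ᵥ A) ∩ (a +ᵥ B) ⊆ {a + b} := by
    rintro x ⟨⟨y, hy, rfl⟩, ⟨z, hz, hzx⟩⟩
    simp only [vadd_eq_add] at hzx ⊢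
    have h3 : y ≤ a := le_csSup hA.bddAbove hy
    have h4 : b ≤ z := csInf_le hB.bddBelow hz
    simp only [Set.mem_singleton_iff]
    linarith
  have hBm : MeasurableSet (a +ᵥ B) := (hB.vadd a).measurableSet
  have h5 := measure_union_add_inter (μ := (volume : Measure ℝ)) (b +ᵥ A) hBm
  have h6 : volume ((b +ᵥ A) ∩ (a +ᵥ B)) = 0 :=
    measure_mono_null h2 (measure_singleton _)
  rw [h6, add_zero, measure_vadd, measure_vadd] at h5
  rw [← h5]
  exact measure_mono h1

end Pool.Agent.SVM
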