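import Mathlib

set_option autoImplicit false

/-!
# Definitions for project SVM (problem MP_aa9902_co)
-/

namespace Pool.Agent.SVM

open Finset

noncomputable section

/-- dot product -/
def dot {ι : Type*} [Fintype ι] (v x : ι → ℝ) : ℝ := ∑ i, v i * x i

/-- squared euclidean norm -/
def nsq {ι : Type*} [Fintype ι] (v : ι → ℝ) : ℝ := ∑ i, v i ^ 2

/-- the bump function: it is `1` on `[-1/2,1/2]`, `0` outside `(-1,1)`, twice continuously
differentiable, even and log-concave -/
def bump (u : ℝ) : ℝ := (max (1 - (max (2 * |u| - 1) 0) ^ 3) 0) ^ 3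

/-- the weight: product of squared bumps of linear forms times a gaussian times
`exp (- quadratic form)` -/
def wt {ι A U : Type*} [Fintype ι] [Fintype U] (β : ℝ) (v : A → ι → ℝ)
    (T : A → ℝ) (b : U → ℝ) (ℓ : U → ι → ℝ) (S : Finset A) (x : ι → ℝ) : ℝ :=
  (∏ a ∈ S, bump (dot (v a) x / T a) ^ 2) *
    Real.exp (-(β / 2) * nsq x - ∑ u, b u * dot (ℓ u) x ^ 2)

/-- `cov supp r i` : the columns at distance at most `r` from the row `i`
(one step = passing through a row) -/
def cov {I J : Type*} [Fintype I] [DecidableEq J] (supp : I → Finset J) :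
    ℕ → I → Finset J
  | 0, i => supp i
  | r + 1, i => cov supp r i ∪
      (univ.filter (fun i' => ¬ Disjoint (supp i') (cov supp r i))).biUnion supp

end

end Pool.Agent.SVM
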