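import Pool.Agent.SVM.Base

set_option autoImplicit false

/-!
# [SVM-BU1] elementary properties of the bump function

`bump u = (max (1 - w^3) 0)^3` with `w = max (2|u|-1) 0`.
Log-concavity: `w` is a convex function of `u` (so `w((x+y)/2) ≤ (w x + w y)/2`) and `bump` is a
decreasing function of `w`; if `w x ≥ 1` or `w y ≥ 1` the left side is `0`; otherwise, for `a b ∈ [0,1]`,
`(1-a³)(1-b³) ≤ (1-((a+b)/2)³)²` (polynomial inequality), then take third powers.
-/

namespace Pool.Agent.SVM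

theorem bump_continuous : Continuous bump := by
  unfold bump
  exact ((continuous_const.sub ((((continuous_const.mul continuous_abs).sub
    continuous_const).max continuous_const).pow 3)).max continuous_const).pow 3

theorem bump_neg (u : ℝ) : bump (-u) = bump u := by
  unfold bump
  rw [abs_neg]

theorem bump_nonneg (u : ℝ) : 0 ≤ bump u := by
  unfold bump
  exact pow_nonneg (le_max_right _ _) 3

theorem bump_le_one (u : ℝ) : bump u ≤ 1 := by
  unfold bump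
  apply pow_le_one₀ (le_max_right _ _)
  apply max_le _ zero_le_one
  have : 0 ≤ (max (2 * |u| - 1) 0) ^ 3 := pow_nonneg (le_max_right _ _) 3
  linarith

theorem bump_eq_one (u : ℝ) (hu : |u| ≤ 1 / 2) : bump u = 1 := by
  unfold bump
  rw [max_eq_right (a := 2 * |u| - 1) (by linarith)]
  norm_num

theorem bump_eq_zero (u : ℝ) (hu : 1 ≤ |u|) : bump u = 0 := by
  unfold bump
  have h1 : 1 ≤ max (2 * |u| - 1) 0 := le_max_of_le_left (by linarith)
  have h2 : 1 ≤ (max (2 * |u| - 1) 0) ^ 3 := one_le_pow₀ h1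
  rw [max_eq_right (by linarith)]
  norm_num

theorem bump_pos (u : ℝ) (hu : |u| < 1) : 0 < bump u := by
  unfold bump
  have h0 : 0 ≤ max (2 * |u| - 1) 0 := le_max_right _ _
  have h1 : max (2 * |u| - 1) 0 < 1 := max_lt (by linarith) zero_lt_one
  have h2 : (max (2 * |u| - 1) 0) ^ 3 < 1 := pow_lt_one₀ h0 h1 (by norm_num)
  apply pow_pos
  exact lt_max_of_lt_left (by linarith)

theorem bump_of_lt {u : ℝ} (hu : max (2 * |u| - 1) 0 ≤ 1) :
    bump u = (1 - (max (2 * |u| - 1) 0) ^ 3) ^ 3 := by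
  unfold bump
  have h0 : 0 ≤ max (2 * |u| - 1) 0 := le_max_right _ _
  have h2 : (max (2 * |u| - 1) 0) ^ 3 ≤ 1 := pow_le_one₀ h0 hu
  rw [max_eq_left (a := 1 - (max (2 * |u| - 1) 0) ^ 3) (by linarith)]

theorem bump_logconcave (x y : ℝ) : bump x * bump y ≤ bump ((x + y) / 2) ^ 2 := by
  by_cases hx : 1 ≤ |x|
  · rw [bump_eq_zero x hx, zero_mul]
    positivity
  by_cases hy : 1 ≤ |y|
  · rw [bump_eq_zero y hy, mul_zero]
    positivity
  push Not at hx hy
  set a := max (2 * |x| - 1) 0 with ha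
  set b := max (2 * |y| - 1) 0 with hb
  have ha0 : 0 ≤ a := le_max_right _ _
  have hb0 : 0 ≤ b := le_max_right _ _
  have ha1 : a ≤ 1 := max_le (by linarith) zero_le_one
  have hb1 : b ≤ 1 := max_le (by linarith) zero_le_one
  have hxa : 2 * |x| - 1 ≤ a := le_max_left _ _
  have hyb : 2 * |y| - 1 ≤ b := le_max_left _ _
  have habs : |(x + y) / 2| ≤ (|x| + |y|) / 2 := by
    rw [abs_div, abs_two]
    have := abs_add_le x y
    linarith
  set c := max (2 * |(x + y) / 2| - 1) 0 with hc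
  have hc0 : 0 ≤ c := le_max_right _ _
  have hcm : c ≤ (a + b) / 2 := max_le (by linarith) (by linarith)
  have hc1 : c ≤ 1 := by linarith
  have ex : bump x = (1 - a ^ 3) ^ 3 := bump_of_lt ha1
  have ey : bump y = (1 - b ^ 3) ^ 3 := bump_of_lt hb1
  have ec : bump ((x + y) / 2) = (1 - c ^ 3) ^ 3 := bump_of_lt hc1
  rw [ex, ey, ec]
  have hid : (1 - ((a + b) / 2) ^ 3) ^ 2 - (1 - a ^ 3) * (1 - b ^ 3) =
      ((a - b) / 2) ^ 2 * (6 * ((a + b) / 2) + 3 * ((a + b) / 2) ^ 2 * (a * b) +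
        (((a - b) / 2) ^ 2) ^ 2) := by
    ring
  have hpos : 0 ≤ ((a - b) / 2) ^ 2 * (6 * ((a + b) / 2) + 3 * ((a + b) / 2) ^ 2 * (a * b) +
        (((a - b) / 2) ^ 2) ^ 2) := by positivity
  have hle : (1 - a ^ 3) * (1 - b ^ 3) ≤ (1 - ((a + b) / 2) ^ 3) ^ 2 := by linarith
  have hm1 : ((a + b) / 2) ^ 3 ≤ 1 := pow_le_one₀ (by linarith) (by linarith)
  have hc3 : c ^ 3 ≤ ((a + b) / 2) ^ 3 := pow_le_pow_left₀ hc0 hcm 3
  have hle2 : (1 - ((a + b) / 2) ^ 3) ^ 2 ≤ (1 - c ^ 3) ^ 2 :=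
    pow_le_pow_left₀ (by linarith) (by linarith) 2
  have ha3 : 0 ≤ 1 - a ^ 3 := by
    have := pow_le_one₀ (n := 3) ha0 ha1
    linarith
  have hb3 : 0 ≤ 1 - b ^ 3 := by
    have := pow_le_one₀ (n := 3) hb0 hb1
    linarith
  calc (1 - a ^ 3) ^ 3 * (1 - b ^ 3) ^ 3 = ((1 - a ^ 3) * (1 - b ^ 3)) ^ 3 := by ring
    _ ≤ ((1 - c ^ 3) ^ 2) ^ 3 := pow_le_pow_left₀ (mul_nonneg ha3 hb3) (hle.trans hle2) 3
    _ = ((1 - c ^ 3) ^ 3) ^ 2 := by ring

end Pool.Agent.SVM
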