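import Pool.Agent.SVM.Bump

set_option autoImplicit false

/-!
# [SVM-BU2] the bump function is `C²`, and the bound for `f'² - f f''`

`bump u = f w` with `w = (2|u|-1)₊` and `f w = ((1 - w³)₊)³`.
`max x 0 ^ 3` is `C²` with derivatives `3 (max x 0)^2` and `6 max x 0`, so `bump` is `C²`:
it is constant `1` on `|u| < 1/2`, and on the open sets `u > 0` and `u < 0` it is
`((1 - ((±2u-1)₊)³)₊)³`, a composition of `C²` functions.
For `0 ≤ w ≤ 1`: `f' = -9 w² (1-w³)²`, `f'' = -18 w (1-w³)² + 54 w⁴ (1-w³)`,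
`f'² - f f'' = (1-w³)⁴ (18 w + 9 w⁴) ≤ 27`, and `dw/du = ±2`, hence
`(bump')² - bump bump'' = 4 (f'² - f f'') ≤ 108`, and it vanishes for `|u| ≤ 1/2` and `|u| ≥ 1`.
(The value at `|u| = 1/2` is also `0`; any correct treatment of the boundary points is fine.)
-/

namespace Pool.Agent.SVM

theorem bu2_hasDeriv (n : ℕ) (hn : n ≠ 0) (x : ℝ) :
    HasDerivAt (fun x : ℝ => max x 0 ^ (n + 1)) ((n + 1 : ℕ) * max x 0 ^ n) x := by
  rcases lt_trichotomy x 0 with h | h | h
  · have h1 : HasDerivAt (fun _ : ℝ => (0 : ℝ)) 0 x := hasDerivAt_const x 0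
    have h2 : ((n + 1 : ℕ) : ℝ) * max x 0 ^ n = 0 := by
      rw [max_eq_right h.le, zero_pow hn, mul_zero]
    rw [h2]
    refine h1.congr_of_eventuallyEq ?_
    filter_upwards [Iio_mem_nhds h] with y hy
    rw [max_eq_right (le_of_lt hy), zero_pow (Nat.succ_ne_zero n)]
  · subst h
    have h1 : HasDerivWithinAt (fun x : ℝ => max x 0 ^ (n + 1)) 0 (Set.Iic 0) 0 := by
      refine (hasDerivWithinAt_const (0 : ℝ) (Set.Iic 0) (0 : ℝ)).congr ?_ ?_
      · intro y hy
        rw [max_eq_right hy, zero_pow (Nat.succ_ne_zero n)]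
      · rw [max_self, zero_pow (Nat.succ_ne_zero n)]
    have h2 : HasDerivWithinAt (fun x : ℝ => max x 0 ^ (n + 1)) 0 (Set.Ici 0) 0 := by
      have h3 := (hasDerivAt_pow (n + 1) (0 : ℝ)).hasDerivWithinAt (s := Set.Ici 0)
      rw [Nat.add_sub_cancel, zero_pow hn, mul_zero] at h3
      refine h3.congr ?_ ?_
      · intro y hy
        rw [max_eq_left hy]
      · rw [max_self]
    have h3 := h1.union h2
    rw [Set.Iic_union_Ici] at h3
    have h4 : ((n + 1 : ℕ) : ℝ) * max (0 : ℝ) 0 ^ n = 0 := by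
      rw [max_self, zero_pow hn, mul_zero]
    rw [h4]
    exact hasDerivWithinAt_univ.1 h3
  · have h1 := hasDerivAt_pow (n + 1) x
    rw [Nat.add_sub_cancel] at h1
    rw [max_eq_left h.le]
    refine h1.congr_of_eventuallyEq ?_
    filter_upwards [Ioi_mem_nhds h] with y hy
    rw [max_eq_left (le_of_lt hy)]

/-- the function `(x₊)³` -/
noncomputable def bu2q (x : ℝ) : ℝ := max x 0 ^ 3

theorem bu2q_deriv (x : ℝ) : HasDerivAt bu2q (3 * max x 0 ^ 2) x := by
  have := bu2_hasDeriv 2 two_ne_zero x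
  norm_num at this
  exact this

theorem bu2r_deriv (x : ℝ) : HasDerivAt (fun x : ℝ => max x 0 ^ 2) (2 * max x 0) x := by
  have := bu2_hasDeriv 1 one_ne_zero x
  norm_num at this
  exact this

theorem bu2r_contDiff : ContDiff ℝ 1 (fun x : ℝ => max x 0 ^ 2) := by
  rw [contDiff_one_iff_deriv]
  refine ⟨fun x => (bu2r_deriv x).differentiableAt, ?_⟩
  have : deriv (fun x : ℝ => max x 0 ^ 2) = fun x => 2 * max x 0 :=
    funext fun x => (bu2r_deriv x).deriv
  rw [this]
  fun_prop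

theorem bu2q_contDiff : ContDiff ℝ 2 bu2q := by
  rw [show (2 : WithTop ℕ∞) = 1 + 1 from rfl, contDiff_succ_iff_deriv]
  refine ⟨fun x => (bu2q_deriv x).differentiableAt, by simp, ?_⟩
  have : deriv bu2q = fun x => 3 * max x 0 ^ 2 := funext fun x => (bu2q_deriv x).deriv
  rw [this]
  exact contDiff_const.mul bu2r_contDiff

/-- the argument of the outer cube -/
noncomputable def bu2z (u : ℝ) : ℝ := 1 - (bu2q (2 * u - 1) + bu2q (-2 * u - 1))

theorem bump_eq_bu2 : bump = fun u => bu2q (bu2z u) := by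
  funext u
  have h : max (2 * |u| - 1) 0 ^ 3 = bu2q (2 * u - 1) + bu2q (-2 * u - 1) := by
    unfold bu2q
    rcases le_total 0 u with hu | hu
    · rw [abs_of_nonneg hu, max_eq_right (by linarith : -2 * u - 1 ≤ 0)]
      ring
    · rw [abs_of_nonpos hu, max_eq_right (by linarith : 2 * u - 1 ≤ 0)]
      ring_nf
  simp only [bump, bu2z, h]
  rfl

theorem bu2z_contDiff : ContDiff ℝ 2 bu2z := by
  unfold bu2z
  refine contDiff_const.sub (ContDiff.add ?_ ?_)
  · exact bu2q_contDiff.comp ((contDiff_const.mul contDiff_id).sub contDiff_const)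
  · exact bu2q_contDiff.comp ((contDiff_const.mul contDiff_id).sub contDiff_const)

theorem bump_contDiff : ContDiff ℝ 2 bump := by
  rw [bump_eq_bu2]
  exact bu2q_contDiff.comp bu2z_contDiff

/-- minus the derivative of `bu2z` -/
noncomputable def bu2a (u : ℝ) : ℝ := 6 * max (2 * u - 1) 0 ^ 2 - 6 * max (-2 * u - 1) 0 ^ 2

theorem bu2z_deriv (u : ℝ) : HasDerivAt bu2z (-bu2a u) u := by
  have h1 : HasDerivAt (fun u : ℝ => 2 * u - 1) 2 u := by
    simpa using ((hasDerivAt_id u).const_mul 2).sub_const 1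
  have h2 : HasDerivAt (fun u : ℝ => -2 * u - 1) (-2) u := by
    simpa using ((hasDerivAt_id u).const_mul (-2)).sub_const 1
  have h3 := (bu2q_deriv (2 * u - 1)).comp u h1
  have h4 := (bu2q_deriv (-2 * u - 1)).comp u h2
  have h5 := (h3.add h4).const_sub 1
  refine h5.congr_deriv ?_
  unfold bu2a
  ring

theorem bu2a_deriv (u : ℝ) :
    HasDerivAt bu2a (24 * max (2 * u - 1) 0 + 24 * max (-2 * u - 1) 0) u := by
  have h1 : HasDerivAt (fun u : ℝ => 2 * u - 1) 2 u := by
    simpa using ((hasDerivAt_id u).const_mul 2).sub_const 1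
  have h2 : HasDerivAt (fun u : ℝ => -2 * u - 1) (-2) u := by
    simpa using ((hasDerivAt_id u).const_mul (-2)).sub_const 1
  have h3 := ((bu2r_deriv (2 * u - 1)).comp u h1).const_mul 6
  have h4 := ((bu2r_deriv (-2 * u - 1)).comp u h2).const_mul 6
  refine (h3.sub h4).congr_deriv ?_
  ring

theorem bump_deriv (u : ℝ) : HasDerivAt bump (3 * max (bu2z u) 0 ^ 2 * -bu2a u) u := by
  rw [bump_eq_bu2]
  exact (bu2q_deriv (bu2z u)).comp u (bu2z_deriv u)

theorem bump_deriv2 (u : ℝ) : HasDerivAt (deriv bump)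
    (3 * (2 * max (bu2z u) 0 * -bu2a u) * -bu2a u + 3 * max (bu2z u) 0 ^ 2 *
      -(24 * max (2 * u - 1) 0 + 24 * max (-2 * u - 1) 0)) u := by
  have h0 : deriv bump = fun u => 3 * max (bu2z u) 0 ^ 2 * -bu2a u :=
    funext fun u => (bump_deriv u).deriv
  rw [h0]
  have h1 := ((bu2r_deriv (bu2z u)).comp u (bu2z_deriv u)).const_mul 3
  exact h1.mul (bu2a_deriv u).neg

theorem bump_lam_le (u : ℝ) :
    deriv bump u ^ 2 - bump u * deriv (deriv bump) u ≤ if 1 / 2 ≤ |u| then 108 else 0 := by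
  rw [(bump_deriv u).deriv, (bump_deriv2 u).deriv]
  have hb : bump u = max (bu2z u) 0 ^ 3 := by rw [bump_eq_bu2]; rfl
  rw [hb]
  set w := max (2 * |u| - 1) 0 with hw
  have hw0 : 0 ≤ w := le_max_right _ _
  have hz : bu2z u = 1 - w ^ 3 := by
    unfold bu2z bu2q
    rcases le_total 0 u with hu | hu
    · rw [hw, abs_of_nonneg hu, max_eq_right (by linarith : -2 * u - 1 ≤ 0)]
      ring
    · rw [hw, abs_of_nonpos hu, max_eq_right (by linarith : 2 * u - 1 ≤ 0)]
      ring_nf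
  have ha2 : bu2a u ^ 2 = 36 * w ^ 4 := by
    unfold bu2a
    rcases le_total 0 u with hu | hu
    · rw [hw, abs_of_nonneg hu, max_eq_right (by linarith : -2 * u - 1 ≤ 0)]
      ring
    · rw [hw, abs_of_nonpos hu, max_eq_right (by linarith : 2 * u - 1 ≤ 0),
        show -2 * u - 1 = 2 * -u - 1 by ring]
      ring
  have ha' : 24 * max (2 * u - 1) 0 + 24 * max (-2 * u - 1) 0 = 24 * w := by
    rcases le_total 0 u with hu | hu
    · rw [hw, abs_of_nonneg hu, max_eq_right (by linarith : -2 * u - 1 ≤ 0)]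
      ring
    · rw [hw, abs_of_nonpos hu, max_eq_right (by linarith : 2 * u - 1 ≤ 0),
        show -2 * u - 1 = 2 * -u - 1 by ring]
      ring
  rw [ha', hz]
  set p := max (1 - w ^ 3) 0 with hp
  have hp0 : 0 ≤ p := le_max_right _ _
  have hval : (3 * p ^ 2 * -bu2a u) ^ 2 - p ^ 3 *
      (3 * (2 * p * -bu2a u) * -bu2a u + 3 * p ^ 2 * -(24 * w)) =
      108 * p ^ 4 * w ^ 4 + 72 * p ^ 5 * w := by
    linear_combination (3 * p ^ 4) * ha2
  rw [hval]
  rcases le_or_gt w 1 with hw1 | hw1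
  · have hw3 : w ^ 3 ≤ 1 := pow_le_one₀ hw0 hw1
    have hp' : p = 1 - w ^ 3 := max_eq_left (by linarith)
    have hp1 : p ≤ 1 := by
      rw [hp']
      have : 0 ≤ w ^ 3 := by positivity
      linarith
    split_ifs with hc
    · have h1 : 108 * p ^ 4 * w ^ 4 + 72 * p ^ 5 * w = p ^ 4 * (36 * w ^ 4 + 72 * w) := by
        have : p ^ 5 = p ^ 4 * (1 - w ^ 3) := by rw [← hp']; ring
        rw [this]; ring
      rw [h1]
      have h2 : p ^ 4 ≤ 1 := pow_le_one₀ hp0 hp1
      have h3 : w ^ 4 ≤ 1 := pow_le_one₀ hw0 hw1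
      have h4 : 0 ≤ 36 * w ^ 4 + 72 * w := by positivity
      calc p ^ 4 * (36 * w ^ 4 + 72 * w) ≤ 1 * (36 * w ^ 4 + 72 * w) :=
            mul_le_mul_of_nonneg_right h2 h4
        _ ≤ 108 := by linarith
    · have h1 : w = 0 := max_eq_right (by push Not at hc; linarith)
      rw [h1]
      norm_num
  · have hw3 : 1 ≤ w ^ 3 := one_le_pow₀ hw1.le
    have hp' : p = 0 := max_eq_right (by linarith)
    rw [hp']
    split_ifs <;> norm_num

end Pool.Agent.SVM
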