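import Pool.Agent.SVM.Base

set_option autoImplicit false

/-!
# [SVM-CL] the level function (patching) lemma

`I` rows, `J` columns, `supp i` the support of the row `i`, `Bd i l` : the row `i` is bad for level `l`.
Either there is an integer height function `h` on the columns, smaller than `(K+1) d`, varying by at most
`1` along each row, such that no row `i` is bad for a level `h j / d`, `j ∈ supp i`; or there is a chain of
`K+1` bad pairs.

Proof.  For a finite set `A` of pairs put, for `y = (i,l) ∈ A` and a column `j`,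
`val y j = max over r ≤ (l+1)d+2 with j ∈ cov supp r i of ((l+1) d + 2 - r)` (`0` if there is none) and
`hA A j = max_{y ∈ A} val y j`.  If `j, j' ∈ supp i'` and `j ∈ cov supp r i` then
`j' ∈ cov supp (r+1) i`, hence `hA A j ≤ hA A j' + 1`.  Call `A` *legal* if it is obtained from `∅` by
inserting one after another pairs `x = (i,l)` with `Bd i l` and, for the current set `A`,
`∃ j ∈ supp i, l * d ≤ hA A j ∧ hA A j < (l+1) * d` (inductive predicate).  By induction on legality:
(a) all members are bad; (b) distinct members with the same level have disjoint supports (if `(i,l)` is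
already there and `(i',l)` is inserted because of `j ∈ supp i'`, then `j ∉ cov supp 2 i`, in particular
`supp i'` does not meet `supp i`); (c) every member `x` is the end of a chain of members
starting at level `0` in which consecutive members `(i,l), (i',l')` satisfy `l' ≤ l + 1` and
`¬ Disjoint (supp i') (cov supp ((l+1-l') d + 2) i)` (if `l' = 0` start a new chain; otherwise
`0 < l' d ≤ hA A j` gives `(i,l) ∈ A` and `r` with `j ∈ cov supp r i`, `l' d ≤ (l+1) d + 2 - r`;
since `d ≥ 3` this forces `l' ≤ l+1`; `cov` is monotone in `r`); such a chain has at least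
`level x + 1` members.  The members of the chain can be taken distinct (or: inserted later = different).
If some legal `A` has a member of level `≥ K`, the first `K+1` members of its chain give the second
alternative (levels `≤ t` along the chain).  Otherwise all legal sets lie in the finite set of pairs with
level `< K`; a legal `A` with the largest cardinality has no insertable pair, and `h = hA A` works:
`hA A j ≤ K d + 2 < (K+1) d`, and for `j ∈ supp i` and `l = h j / d` the pair `(i,l)` cannot be bad.
-/

namespace Pool.Agent.SVM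

open Finset

namespace Closure_aux

section
variable {I J : Type*} [Fintype I] [DecidableEq J]
  (supp : I → Finset J) (d : ℕ)

theorem cov_mono {r s : ℕ} (h : r ≤ s) (i : I) : cov supp r i ⊆ cov supp s i := by
  induction h with
  | refl => exact Finset.Subset.refl _
  | step _ ih =>
    refine ih.trans ?_
    rw [cov]
    exact subset_union_left

theorem cov_step {r : ℕ} {i i' : I} {j j' : J} (hj : j ∈ supp i') (hj' : j' ∈ supp i')
    (h : j ∈ cov supp r i) : j' ∈ cov supp (r + 1) i := by
  rw [cov, mem_union, mem_biUnion]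
  right
  exact ⟨i', mem_filter.2 ⟨mem_univ _, not_disjoint_iff.2 ⟨j, hj, h⟩⟩, hj'⟩

/-- the height around one pair -/
def val (y : I × ℕ) (j : J) : ℕ :=
  (range ((y.2 + 1) * d + 3)).sup
    (fun r => if j ∈ cov supp r y.1 then (y.2 + 1) * d + 2 - r else 0)

theorem val_le (y : I × ℕ) (j : J) : val supp d y j ≤ (y.2 + 1) * d + 2 := by
  refine Finset.sup_le fun r _ => ?_
  split_ifs
  · exact Nat.sub_le _ _
  · exact Nat.zero_le _

theorem le_val {r : ℕ} {y : I × ℕ} {j : J} (h : j ∈ cov supp r y.1) :
    (y.2 + 1) * d + 2 - r ≤ val supp d y j := by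
  rcases lt_or_ge r ((y.2 + 1) * d + 3) with hr | hr
  · have h1 := Finset.le_sup (f := fun r => if j ∈ cov supp r y.1 then (y.2 + 1) * d + 2 - r else 0)
      (mem_range.2 hr)
    simp only [if_pos h] at h1
    exact h1
  · rw [Nat.sub_eq_zero_of_le (by omega)]
    exact Nat.zero_le _

theorem of_le_val {v : ℕ} {y : I × ℕ} {j : J} (hv : 0 < v) (h : v ≤ val supp d y j) :
    ∃ r, r + v ≤ (y.2 + 1) * d + 2 ∧ j ∈ cov supp r y.1 := by
  rw [val, Finset.le_sup_iff (by exact hv)] at h
  obtain ⟨r, -, hr2⟩ := h
  split_ifs at hr2 with hj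
  · exact ⟨r, by omega, hj⟩
  · omega

/-- the height function of a list of pairs -/
def hA : List (I × ℕ) → J → ℕ
  | [], _ => 0
  | y :: A, j => max (val supp d y j) (hA A j)

theorem le_hA {A : List (I × ℕ)} {y : I × ℕ} (h : y ∈ A) (j : J) :
    val supp d y j ≤ hA supp d A j := by
  induction A with
  | nil => simp at h
  | cons x A ih =>
    rcases List.mem_cons.1 h with rfl | h
    · exact le_max_left _ _
    · exact (ih h).trans (le_max_right _ _)

theorem of_le_hA {A : List (I × ℕ)} {v : ℕ} {j : J} (hv : 0 < v) (h : v ≤ hA supp d A j) :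
    ∃ y ∈ A, v ≤ val supp d y j := by
  induction A with
  | nil =>
    rw [hA] at h
    omega
  | cons x A ih =>
    rw [hA] at h
    rcases le_max_iff.1 h with h | h
    · exact ⟨x, List.mem_cons_self, h⟩
    · obtain ⟨y, hy, h⟩ := ih h
      exact ⟨y, List.mem_cons_of_mem _ hy, h⟩

theorem hA_lip (A : List (I × ℕ)) {i' : I} {j j' : J} (hj : j ∈ supp i') (hj' : j' ∈ supp i') :
    hA supp d A j ≤ hA supp d A j' + 1 := by
  rcases Nat.eq_zero_or_pos (hA supp d A j) with h0 | h0
  · omega
  obtain ⟨y, hy, h⟩ := of_le_hA supp d h0 le_rfl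
  obtain ⟨r, hr, hjr⟩ := of_le_val supp d h0 h
  have h1 := le_val supp d (cov_step supp hj hj' hjr)
  have h2 := le_hA supp d hy j'
  omega

/-- legal lists -/
inductive Legal (Bd : I → ℕ → Prop) : List (I × ℕ) → Prop
  | nil : Legal Bd []
  | cons {A : List (I × ℕ)} {x : I × ℕ} : Legal Bd A → Bd x.1 x.2 →
      (∃ j ∈ supp x.1, x.2 * d ≤ hA supp d A j ∧ hA supp d A j < (x.2 + 1) * d) →
      Legal Bd (x :: A)

variable {supp d} {Bd : I → ℕ → Prop}

theorem Legal.bad {A : List (I × ℕ)} (h : Legal supp d Bd A) : ∀ x ∈ A, Bd x.1 x.2 := by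
  induction h with
  | nil => intro x hx; simp at hx
  | cons _ hb _ ih =>
    intro x hx
    rcases List.mem_cons.1 hx with rfl | hx
    · exact hb
    · exact ih x hx

theorem not_cov_two {A : List (I × ℕ)} {y : I × ℕ} {l : ℕ} {j : J} (hy : y ∈ A) (hl : y.2 = l)
    (hj : hA supp d A j < (l + 1) * d) : j ∉ cov supp 2 y.1 := by
  intro h
  have h1 := le_val supp d h
  have h2 := le_hA supp d hy j
  rw [hl] at h1
  omega

theorem disj_new {A : List (I × ℕ)} {x y : I × ℕ} (hy : y ∈ A) (hl : y.2 = x.2)
    (hx : ∃ j ∈ supp x.1, x.2 * d ≤ hA supp d A j ∧ hA supp d A j < (x.2 + 1) * d) :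
    Disjoint (supp x.1) (supp y.1) := by
  obtain ⟨j, hj, -, hj2⟩ := hx
  rw [Finset.disjoint_left]
  intro j' hj' hj''
  have h0 : j' ∈ cov supp 0 y.1 := hj''
  exact not_cov_two hy hl hj2 (cov_mono supp (by norm_num) _ (cov_step supp hj' hj h0))

theorem not_mem_new {A : List (I × ℕ)} {x : I × ℕ}
    (hx : ∃ j ∈ supp x.1, x.2 * d ≤ hA supp d A j ∧ hA supp d A j < (x.2 + 1) * d) :
    x ∉ A := by
  intro hy
  obtain ⟨j, hj, -, hj2⟩ := hx
  have h0 : j ∈ cov supp 0 x.1 := hj
  exact not_cov_two hy rfl hj2 (cov_mono supp (by norm_num) _ h0)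

theorem Legal.disj {A : List (I × ℕ)} (h : Legal supp d Bd A) :
    ∀ x ∈ A, ∀ y ∈ A, x ≠ y → x.2 = y.2 → Disjoint (supp x.1) (supp y.1) := by
  induction h with
  | nil => intro x hx; simp at hx
  | cons _ _ hx ih =>
    intro u hu v hv huv hl
    rcases List.mem_cons.1 hu with hu' | hu'
    · rcases List.mem_cons.1 hv with hv' | hv'
      · exact absurd (hu'.trans hv'.symm) huv
      · subst hu'
        exact disj_new hv' hl.symm hx
    · rcases List.mem_cons.1 hv with hv' | hv'
      · subst hv'
        exact (disj_new hu' hl hx).symm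
      · exact ih u hu' v hv' huv hl

theorem Legal.nodup {A : List (I × ℕ)} (h : Legal supp d Bd A) : A.Nodup := by
  induction h with
  | nil => exact List.nodup_nil
  | cons _ _ hx ih => exact List.nodup_cons.2 ⟨not_mem_new hx, ih⟩

variable (supp d) in
/-- `x` is the end of a chain in `A` -/
def ChainEnd (A : List (I × ℕ)) (x : I × ℕ) : Prop :=
  ∃ (m : ℕ) (y : ℕ → I × ℕ), (y 0).2 = 0 ∧ y m = x ∧
    (∀ t < m, (y (t + 1)).2 ≤ (y t).2 + 1 ∧
      ¬ Disjoint (supp (y (t + 1)).1)
        (cov supp (((y t).2 + 1 - (y (t + 1)).2) * d + 2) (y t).1)) ∧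
    (∀ t ≤ m, y t ∈ A) ∧ ∀ s t, s ≤ m → t ≤ m → s ≠ t → y s ≠ y t

theorem Legal.chain (hd : 3 ≤ d) {A : List (I × ℕ)} (h : Legal supp d Bd A) :
    ∀ x ∈ A, ChainEnd supp d A x := by
  induction h with
  | nil => intro x hx; simp at hx
  | @cons A x _ _ hx ih =>
    intro u hu
    rcases List.mem_cons.1 hu with rfl | hu
    · have hnew := not_mem_new hx
      obtain ⟨j, hj, hj1, hj2⟩ := hx
      rcases Nat.eq_zero_or_pos u.2 with h0 | h0
      · refine ⟨0, fun _ => u, h0, rfl, fun t ht => absurd ht (Nat.not_lt_zero _),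
          fun _ _ => List.mem_cons_self, fun s t hs ht hst => absurd ?_ hst⟩
        omega
      · have hpos : 0 < u.2 * d := Nat.mul_pos h0 (by omega)
        obtain ⟨w, hw, hw1⟩ := of_le_hA supp d hpos hj1
        obtain ⟨r, hr, hjr⟩ := of_le_val supp d hpos hw1
        obtain ⟨m, y, hy0, hym, hy1, hy2, hy3⟩ := ih w hw
        have hl : u.2 ≤ w.2 + 1 := by
          by_contra hcon
          have h1 : (w.2 + 1 + 1) * d ≤ u.2 * d := Nat.mul_le_mul_right d (by omega)
          have h2 : (w.2 + 1 + 1) * d = (w.2 + 1) * d + d := by ring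
          omega
        have hrr : r ≤ (w.2 + 1 - u.2) * d + 2 := by
          have h1 : (w.2 + 1) * d = (w.2 + 1 - u.2) * d + u.2 * d := by
            rw [← Nat.add_mul, Nat.sub_add_cancel hl]
          omega
        refine ⟨m + 1, fun t => if t ≤ m then y t else u, ?_, ?_, ?_, ?_, ?_⟩
        · simp only [Nat.zero_le, if_true]
          exact hy0
        · simp
        · intro t ht
          rcases Nat.lt_or_ge t m with htm | htm
          · simp only [if_pos htm.le, if_pos (Nat.succ_le_of_lt htm)]
            exact hy1 t htm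
          · have htm' : t = m := by omega
            subst htm'
            simp only [le_refl, if_true, if_neg (Nat.not_succ_le_self t)]
            rw [hym]
            exact ⟨hl, not_disjoint_iff.2 ⟨j, hj, cov_mono supp hrr _ hjr⟩⟩
        · intro t _
          by_cases htm : t ≤ m
          · simp only [if_pos htm]
            exact List.mem_cons_of_mem _ (hy2 t htm)
          · simp only [if_neg htm]
            exact List.mem_cons_self
        · intro s t hs ht hst
          by_cases hsm : s ≤ m
          · by_cases htm : t ≤ m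
            · simp only [if_pos hsm, if_pos htm]
              exact hy3 s t hsm htm hst
            · simp only [if_pos hsm, if_neg htm]
              intro hh
              exact hnew (hh ▸ hy2 s hsm)
          · by_cases htm : t ≤ m
            · simp only [if_neg hsm, if_pos htm]
              intro hh
              exact hnew (hh ▸ hy2 t htm)
            · omega
    · obtain ⟨m, y, hy0, hym, hy1, hy2, hy3⟩ := ih u hu
      exact ⟨m, y, hy0, hym, hy1, fun t ht => List.mem_cons_of_mem _ (hy2 t ht), hy3⟩

end

end Closure_aux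

open Closure_aux

theorem closure_or_chain {I J : Type*} [Fintype I] [DecidableEq I] [Fintype J] [DecidableEq J]
    (supp : I → Finset J) (d K : ℕ) (hd : 3 ≤ d) (Bd : I → ℕ → Prop) :
    (∃ h : J → ℕ, (∀ j, h j < (K + 1) * d) ∧
        (∀ i, ∀ j ∈ supp i, ∀ j' ∈ supp i, h j ≤ h j' + 1) ∧
        ∀ i, ∀ j ∈ supp i, ¬ Bd i (h j / d)) ∨
    (∃ y : ℕ → I × ℕ, (y 0).2 = 0 ∧
        (∀ t, t < K → (y (t + 1)).2 ≤ (y t).2 + 1 ∧
          ¬ Disjoint (supp (y (t + 1)).1)
            (cov supp (((y t).2 + 1 - (y (t + 1)).2) * d + 2) (y t).1)) ∧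
        (∀ t, t ≤ K → Bd (y t).1 (y t).2) ∧
        ∀ s t, s ≤ K → t ≤ K → s ≠ t → (y s).2 = (y t).2 →
          Disjoint (supp (y s).1) (supp (y t).1)) := by
  classical
  by_cases hex : ∃ A : List (I × ℕ), Legal supp d Bd A ∧ ∃ x ∈ A, K ≤ x.2
  · right
    obtain ⟨A, hA, x, hx, hxK⟩ := hex
    obtain ⟨m, y, hy0, hym, hy1, hy2, hy3⟩ := hA.chain hd x hx
    have hlev : ∀ t, t ≤ m → (y t).2 ≤ t := by
      intro t
      induction t with
      | zero => intro _; rw [hy0]
      | succ t ih =>
        intro ht
        have h1 := ih (by omega)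
        have h2 := (hy1 t (by omega)).1
        omega
    have hmK : K ≤ m := by
      have := hlev m le_rfl
      rw [hym] at this
      omega
    refine ⟨y, hy0, fun t ht => hy1 t (by omega), fun t ht => hA.bad _ (hy2 t (by omega)),
      fun s t hs ht hst hl => hA.disj _ (hy2 s (by omega)) _ (hy2 t (by omega))
        (hy3 s t (by omega) (by omega) hst) hl⟩
  · left
    push Not at hex
    have hmax : ∃ A : List (I × ℕ), Legal supp d Bd A ∧ ∀ x : I × ℕ, Bd x.1 x.2 →
        ¬ ∃ j ∈ supp x.1, x.2 * d ≤ hA supp d A j ∧ hA supp d A j < (x.2 + 1) * d := by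
      by_contra hcon
      push Not at hcon
      have hall : ∀ n : ℕ, ∃ A : List (I × ℕ), Legal supp d Bd A ∧ A.length = n := by
        intro n
        induction n with
        | zero => exact ⟨[], Legal.nil, rfl⟩
        | succ n ih =>
          obtain ⟨A, hA, hn⟩ := ih
          obtain ⟨x, hx, hj⟩ := hcon A hA
          exact ⟨x :: A, Legal.cons hA hx hj, by rw [List.length_cons, hn]⟩
      obtain ⟨A, hA, hn⟩ := hall (Fintype.card I * K + 1)
      have hsub : A.toFinset ⊆ (univ : Finset I) ×ˢ range K := by
        intro x hx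
        rw [List.mem_toFinset] at hx
        exact mem_product.2 ⟨mem_univ _, mem_range.2 (hex A hA x hx)⟩
      have hcard := Finset.card_le_card hsub
      rw [List.toFinset_card_of_nodup hA.nodup, hn, card_product, card_range, card_univ] at hcard
      omega
    obtain ⟨A, hA', hno⟩ := hmax
    refine ⟨hA supp d A, ?_, ?_, ?_⟩
    · intro j
      rcases Nat.eq_zero_or_pos (hA supp d A j) with h0 | h0
      · rw [h0]
        exact Nat.mul_pos (Nat.succ_pos _) (by omega)
      · obtain ⟨y, hy, h⟩ := of_le_hA supp d h0 le_rfl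
        have h1 := val_le supp d y j
        have h2 := hex A hA' y hy
        have h3 : (y.2 + 1) * d ≤ K * d := Nat.mul_le_mul_right d h2
        have h4 : (K + 1) * d = K * d + d := by ring
        omega
    · intro i j hj j' hj'
      exact hA_lip supp d A hj hj'
    · intro i j hj hbad
      refine hno (i, hA supp d A j / d) hbad ⟨j, hj, Nat.div_mul_le_self _ _, ?_⟩
      have h1 : hA supp d A j < (hA supp d A j / d + 1) * d := by
        have := Nat.lt_div_mul_add (a := hA supp d A j) (b := d) (by omega)
        calc hA supp d A j < hA supp d A j / d * d + d := this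
          _ = (hA supp d A j / d + 1) * d := by ring
      exact h1

end Pool.Agent.SVM
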