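import Pool.Agent.SVM.CountA

set_option autoImplicit false

/-!
# [SVM-CO2] counting chains

`chain_count`: let `α = D1 ^ d`, `z = 2 α`, `c = 4 D1 ^ (d+3) = 2 D1^3 z` (if `D1 = 0` all supports are
empty and the left side is at most `card I`: for `K ≥ 1` it is `0`).  The number `N_r(i,l)` of
continuations of length `r` of a chain ending at `(i,l)` is at most `c ^ r * z ^ l`:
`N_{r+1}(i,l) ≤ ∑_{l' ≤ l+1} D1^{(l+1-l') d + 3} c^r z^{l'}
 = c^r D1^3 z^{l+1} ∑_{h ≤ l+1} (α/z)^h ≤ c^r D1^3 z^{l+1} * 2 = c^{r+1} z^l`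
(by `card_meet_cov`, for `l'` given there are at most `D1^{(l+1-l') d + 3}` possible `i'`).
The chains start at level `0`.  (It may be convenient to count functions/lists of pairs in `I × ℕ` with
levels `< K+1` by induction on the length, and then to inject the given set.)
-/

namespace Pool.Agent.SVM

open Finset

/-- walks of length `r` starting at `x` along the relation `R` -/
noncomputable def walks {X : Type*} [Fintype X] [DecidableEq X] (R : X → X → Prop) [DecidableRel R]
    (r : ℕ) (x : X) : Finset (Fin (r + 1) → X) :=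
  univ.filter (fun y => y 0 = x ∧ ∀ t : ℕ, ∀ ht : t < r, R (y ⟨t, by omega⟩) (y ⟨t + 1, by omega⟩))

theorem walks_succ {X : Type*} [Fintype X] [DecidableEq X] (R : X → X → Prop) [DecidableRel R]
    (r : ℕ) (x : X) :
    (walks R (r + 1) x).card ≤ ∑ x' ∈ univ.filter (fun x' => R x x'), (walks R r x').card := by
  classical
  refine le_trans ?_ (card_biUnion_le (s := univ.filter (fun x' => R x x')) (t := fun x' => walks R r x'))
  refine card_le_card_of_injOn (fun y => Fin.tail y) ?_ ?_
  · intro y hy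
    simp only [walks, coe_filter, mem_univ, true_and, Set.mem_ofPred_eq] at hy
    obtain ⟨h0, h1⟩ := hy
    simp only [coe_biUnion, Set.mem_iUnion, mem_coe, mem_filter, mem_univ, true_and, walks]
    refine ⟨y 1, ?_, ?_, ?_⟩
    · have := h1 0 (by omega)
      rw [← h0]
      exact this
    · rfl
    · intro t ht
      exact h1 (t + 1) (by omega)
  · intro y hy y' hy' h
    simp only [walks, coe_filter, mem_univ, true_and, Set.mem_ofPred_eq] at hy hy'
    funext t
    refine Fin.cases ?_ (fun t => ?_) t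
    · rw [hy.1, hy'.1]
    · exact congrFun h t

theorem walks_le {X : Type*} [Fintype X] [DecidableEq X] (R : X → X → Prop) [DecidableRel R]
    (f : ℕ → X → ℕ) (h0 : ∀ x, 1 ≤ f 0 x)
    (h1 : ∀ r x, ∑ x' ∈ univ.filter (fun x' => R x x'), f r x' ≤ f (r + 1) x) (r : ℕ) (x : X) :
    (walks R r x).card ≤ f r x := by
  classical
  induction r generalizing x with
  | zero =>
    refine le_trans ?_ (h0 x)
    rw [card_le_one]
    intro a ha b hb
    simp only [walks, mem_filter, mem_univ, true_and] at ha hb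
    funext t
    have : t = 0 := Fin.ext (by have := t.2; simp only [Fin.val_zero]; omega)
    rw [this, ha.1, hb.1]
  | succ r ih =>
    refine (walks_succ R r x).trans (le_trans (sum_le_sum (fun x' _ => ih x')) (h1 r x))

theorem geo_sum (a n : ℕ) :
    ∑ l' ∈ range (n + 1), a ^ (n - l') * (2 * a) ^ l' ≤ 2 * (2 * a) ^ n := by
  induction n with
  | zero => simp
  | succ n ih =>
    rw [sum_range_succ]
    have h : ∑ l' ∈ range (n + 1), a ^ (n + 1 - l') * (2 * a) ^ l'
        = a * ∑ l' ∈ range (n + 1), a ^ (n - l') * (2 * a) ^ l' := by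
      rw [mul_sum]
      refine sum_congr rfl (fun l' hl' => ?_)
      rw [mem_range] at hl'
      have : n + 1 - l' = (n - l') + 1 := by omega
      rw [this, pow_succ]; ring
    rw [h]
    have h2 : a * ∑ l' ∈ range (n + 1), a ^ (n - l') * (2 * a) ^ l' ≤ a * (2 * (2 * a) ^ n) :=
      Nat.mul_le_mul_left a ih
    have h3 : a * (2 * (2 * a) ^ n) = (2 * a) ^ (n + 1) := by rw [pow_succ]; ring
    rw [h3] at h2
    simp only [Nat.sub_self, pow_zero, one_mul]
    omega

theorem chain_count {I J : Type*} [Fintype I] [DecidableEq I] [Fintype J] [DecidableEq J]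
    (supp : I → Finset J) (d K D1 : ℕ)
    (hD : ∀ i, (univ.filter (fun i' => ¬ Disjoint (supp i') (supp i))).card ≤ D1) :
    (univ.filter (fun y : Fin (K + 1) → I × Fin (K + 1) =>
        ((y 0).2 : ℕ) = 0 ∧
        ∀ t : ℕ, ∀ ht : t < K,
          ((y ⟨t + 1, by omega⟩).2 : ℕ) ≤ ((y ⟨t, by omega⟩).2 : ℕ) + 1 ∧
          ¬ Disjoint (supp (y ⟨t + 1, by omega⟩).1)
            (cov supp ((((y ⟨t, by omega⟩).2 : ℕ) + 1 - ((y ⟨t + 1, by omega⟩).2 : ℕ)) * d + 2)
              (y ⟨t, by omega⟩).1))).card ≤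
      Fintype.card I * (4 * D1 ^ (d + 3)) ^ K := by
  classical
  set R : I × Fin (K + 1) → I × Fin (K + 1) → Prop := fun x x' =>
    ((x'.2 : ℕ) ≤ (x.2 : ℕ) + 1 ∧
      ¬ Disjoint (supp x'.1) (cov supp (((x.2 : ℕ) + 1 - (x'.2 : ℕ)) * d + 2) x.1)) with hR
  set c : ℕ := 4 * D1 ^ (d + 3) with hc
  set f : ℕ → I × Fin (K + 1) → ℕ := fun r x => c ^ r * (2 * D1 ^ d) ^ (x.2 : ℕ) with hf
  have key : ∀ r x, ∑ x' ∈ univ.filter (fun x' => R x x'), f r x' ≤ f (r + 1) x := by
    intro r x
    rw [sum_filter, Fintype.sum_prod_type, sum_comm]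
    have h1 : ∀ l' : Fin (K + 1), ∑ i' : I, (if R x (i', l') then f r (i', l') else 0)
        ≤ (fun m : ℕ => if m ≤ (x.2 : ℕ) + 1 then
          D1 ^ (((x.2 : ℕ) + 1 - m) * d + 3) * (c ^ r * (2 * D1 ^ d) ^ m) else 0) (l' : ℕ) := by
      intro l'
      simp only
      split_ifs with hl
      · rw [← sum_filter, hf]
        simp only
        rw [sum_const, smul_eq_mul]
        refine Nat.mul_le_mul_right _ ?_
        refine le_trans (card_le_card ?_) (card_meet_cov supp D1 hD _ x.1)
        intro i' hi'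
        simp only [hR, mem_filter, mem_univ, true_and] at hi' ⊢
        exact hi'.2
      · refine le_of_eq ?_
        refine sum_eq_zero (fun i' _ => ?_)
        rw [if_neg]
        intro h
        exact hl h.1
    refine le_trans (sum_le_sum (fun l' _ => h1 l')) ?_
    rw [Fin.sum_univ_eq_sum_range (fun m : ℕ => if m ≤ (x.2 : ℕ) + 1 then
          D1 ^ (((x.2 : ℕ) + 1 - m) * d + 3) * (c ^ r * (2 * D1 ^ d) ^ m) else 0) (K + 1)]
    rw [← sum_filter]
    have h2 : (range (K + 1)).filter (fun m => m ≤ (x.2 : ℕ) + 1) ⊆ range ((x.2 : ℕ) + 1 + 1) := by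
      intro m hm
      simp only [mem_filter, mem_range] at hm ⊢
      omega
    refine le_trans (sum_le_sum_of_subset h2) ?_
    have h3 : ∀ m ∈ range ((x.2 : ℕ) + 1 + 1),
        D1 ^ (((x.2 : ℕ) + 1 - m) * d + 3) * (c ^ r * (2 * D1 ^ d) ^ m)
        = (c ^ r * D1 ^ 3) * ((D1 ^ d) ^ ((x.2 : ℕ) + 1 - m) * (2 * D1 ^ d) ^ m) := by
      intro m _
      rw [pow_add, mul_comm (((x.2 : ℕ) + 1 - m)) d, pow_mul]
      ring
    rw [sum_congr rfl h3, ← mul_sum]
    refine le_trans (Nat.mul_le_mul_left _ (geo_sum (D1 ^ d) ((x.2 : ℕ) + 1))) ?_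
    rw [hf]
    simp only
    rw [pow_succ (2 * D1 ^ d) (x.2 : ℕ), pow_succ c r]
    refine le_of_eq ?_
    have h4 : c = 4 * (D1 ^ d * D1 ^ 3) := by rw [hc, pow_add]
    conv_rhs => rw [h4]
    rw [← h4]
    ring_nf
    rw [h4]
    ring
  have hsub : (univ.filter (fun y : Fin (K + 1) → I × Fin (K + 1) =>
        ((y 0).2 : ℕ) = 0 ∧
        ∀ t : ℕ, ∀ ht : t < K,
          ((y ⟨t + 1, by omega⟩).2 : ℕ) ≤ ((y ⟨t, by omega⟩).2 : ℕ) + 1 ∧
          ¬ Disjoint (supp (y ⟨t + 1, by omega⟩).1)
            (cov supp ((((y ⟨t, by omega⟩).2 : ℕ) + 1 - ((y ⟨t + 1, by omega⟩).2 : ℕ)) * d + 2)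
              (y ⟨t, by omega⟩).1))) ⊆
      (univ : Finset I).biUnion (fun i => walks R K (i, 0)) := by
    intro y hy
    simp only [mem_filter, mem_univ, true_and] at hy
    simp only [mem_biUnion, mem_univ, true_and, walks, mem_filter]
    refine ⟨(y 0).1, Prod.ext rfl (Fin.ext hy.1), fun t ht => hy.2 t ht⟩
  rcases Nat.eq_zero_or_pos D1 with h | h
  · rcases Nat.eq_zero_or_pos K with hK | hK
    · subst hK
      refine (card_le_card hsub).trans (card_biUnion_le.trans ?_)
      refine (sum_le_sum (g := fun _ => 1) (fun i _ => ?_)).trans (by simp)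
      rw [card_le_one]
      intro a ha b hb
      simp only [walks, mem_filter, mem_univ, true_and] at ha hb
      funext t
      have : t = 0 := Fin.ext (by have := t.2; simp only [Fin.val_zero]; omega)
      rw [this, ha.1, hb.1]
    · refine le_of_eq_of_le (card_eq_zero.2 ?_) (Nat.zero_le _)
      rw [filter_eq_empty_iff]
      intro y _ hy
      refine (hy.2 0 hK).2 ?_
      have he : ∀ i, supp i = ∅ := by
        intro i
        by_contra hne
        have h5 := hD i
        rw [h, Nat.le_zero, card_eq_zero, filter_eq_empty_iff] at h5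
        refine h5 (mem_univ i) ?_
        rw [disjoint_self]
        exact hne
      rw [he]
      exact disjoint_bot_left
  · have h0 : ∀ x, 1 ≤ f 0 x := by
      intro x
      rw [hf]
      simp only [pow_zero, one_mul]
      exact Nat.one_le_iff_ne_zero.2 (by positivity)
    refine (card_le_card hsub).trans (card_biUnion_le.trans ?_)
    refine (sum_le_sum (fun i _ => walks_le R f h0 key K (i, 0))).trans ?_
    simp only [hf, Fin.val_zero, pow_zero, mul_one, sum_const, smul_eq_mul, card_univ]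
    exact le_rfl

end Pool.Agent.SVM
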