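import Pool.Agent.SVM.Base

set_option autoImplicit false

/-!
# [SVM-CO1] counting rows near a row

The rows meeting `cov supp (r+1) i` meet `cov supp r i` or meet a row which meets
`cov supp r i`; induction gives `≤ D1 ^ (r+1)` (a row meeting anything has non-empty support so it meets
itself, which makes the second case contain the first one).
-/

namespace Pool.Agent.SVM

open Finset

theorem card_meet_cov {I J : Type*} [Fintype I] [DecidableEq I] [Fintype J] [DecidableEq J]
    (supp : I → Finset J) (D1 : ℕ)
    (hD : ∀ i, (univ.filter (fun i' => ¬ Disjoint (supp i') (supp i))).card ≤ D1)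
    (r : ℕ) (i : I) :
    (univ.filter (fun i' => ¬ Disjoint (supp i') (cov supp r i))).card ≤ D1 ^ (r + 1) := by
  induction r with
  | zero => simpa [cov] using hD i
  | succ r ih =>
    have hsub : univ.filter (fun i' => ¬ Disjoint (supp i') (cov supp (r + 1) i)) ⊆
        (univ.filter (fun i' => ¬ Disjoint (supp i') (cov supp r i))).biUnion
          (fun i'' => univ.filter (fun i' => ¬ Disjoint (supp i') (supp i''))) := by
      intro i' hi'
      rw [mem_filter] at hi'
      obtain ⟨_, h⟩ := hi'
      rw [Finset.not_disjoint_iff] at h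
      obtain ⟨j, hj, hj2⟩ := h
      rw [mem_biUnion]
      rw [cov, mem_union] at hj2
      rcases hj2 with h2 | h2
      · refine ⟨i', ?_, ?_⟩
        · rw [mem_filter]
          exact ⟨mem_univ _, Finset.not_disjoint_iff.2 ⟨j, hj, h2⟩⟩
        · rw [mem_filter]
          exact ⟨mem_univ _, Finset.not_disjoint_iff.2 ⟨j, hj, hj⟩⟩
      · rw [mem_biUnion] at h2
        obtain ⟨i'', hi'', hj3⟩ := h2
        refine ⟨i'', hi'', ?_⟩
        rw [mem_filter]
        exact ⟨mem_univ _, Finset.not_disjoint_iff.2 ⟨j, hj, hj3⟩⟩
    calc (univ.filter (fun i' => ¬ Disjoint (supp i') (cov supp (r + 1) i))).card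
        ≤ _ := card_le_card hsub
      _ ≤ ∑ i'' ∈ univ.filter (fun i' => ¬ Disjoint (supp i') (cov supp r i)),
            (univ.filter (fun i' => ¬ Disjoint (supp i') (supp i''))).card := card_biUnion_le
      _ ≤ ∑ _i'' ∈ univ.filter (fun i' => ¬ Disjoint (supp i') (cov supp r i)), D1 :=
          sum_le_sum fun i'' _ => hD i''
      _ = (univ.filter (fun i' => ¬ Disjoint (supp i') (cov supp r i))).card * D1 := by
          rw [sum_const, smul_eq_mul]
      _ ≤ D1 ^ (r + 1) * D1 := Nat.mul_le_mul_right _ ih
      _ = D1 ^ (r + 1 + 1) := by rw [← pow_succ]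

end Pool.Agent.SVM
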