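import Pool.Agent.SVM.Base

set_option autoImplicit false

/-!
# [SVM-FI] Fubini in one coordinate

Use `MeasurableEquiv.piEquivPiSubtypeProd` (`volume_preserving_piEquivPiSubtypeProd`) for the
predicate `fun i => i = κ` together with `volume_preserving_funUnique`, or any other route.
-/

namespace Pool.Agent.SVM

open MeasureTheory Finset

theorem integral_nonneg_of_fiber {ι : Type*} [Fintype ι] [DecidableEq ι] (κ : ι)
    (F : (ι → ℝ) → ℝ) (hF : Integrable F)
    (h : ∀ x : ι → ℝ, 0 ≤ ∫ u : ℝ, F (Function.update x κ u)) : 0 ≤ ∫ x, F x := by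
  let iF : Fintype {i // i = κ} := Subtype.fintype _
  have hmp := volume_preserving_piEquivPiSubtypeProd (fun _ : ι => ℝ) (fun i => i = κ)
  have hU : MeasurePreserving (MeasurableEquiv.funUnique {i // i = κ} ℝ)
      (volume : Measure ({i // i = κ} → ℝ)) volume := by
    have h0 := volume_preserving_funUnique {i // i = κ} ℝ
    have e0 : (Unique.fintype : Fintype {i // i = κ}) = iF := Subsingleton.elim _ _
    rw [e0] at h0
    exact h0
  let e := MeasurableEquiv.piEquivPiSubtypeProd (fun _ : ι => ℝ) (fun i => i = κ)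
  let eU := MeasurableEquiv.funUnique {i // i = κ} ℝ
  have h1 : ∫ x, F x = ∫ p : ({i // i = κ} → ℝ) × ({i // ¬ i = κ} → ℝ), F (e.symm p)
      ∂(volume.prod volume) := by
    refine Eq.trans ?_ (hmp.integral_comp e.measurableEmbedding (fun p => F (e.symm p)))
    refine integral_congr_ae (Filter.Eventually.of_forall fun x => ?_)
    change F x = F (e.symm (e x))
    rw [MeasurableEquiv.symm_apply_apply]
  have hint : Integrable (fun p : ({i // i = κ} → ℝ) × ({i // ¬ i = κ} → ℝ) => F (e.symm p))
      (volume.prod volume) :=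
    (MeasurePreserving.symm e hmp).integrable_comp_of_integrable hF
  rw [h1, integral_prod_symm _ hint]
  refine integral_nonneg fun y => ?_
  have h2 : ∫ x : ({i // i = κ} → ℝ), F (e.symm (x, y)) = ∫ u : ℝ, F (e.symm (eU.symm u, y)) := by
    refine Eq.trans ?_ (hU.integral_comp eU.measurableEmbedding (fun u => F (e.symm (eU.symm u, y))))
    refine integral_congr_ae (Filter.Eventually.of_forall fun x => ?_)
    change F (e.symm (x, y)) = F (e.symm (eU.symm (eU x), y))
    rw [MeasurableEquiv.symm_apply_apply]
  change 0 ≤ ∫ x : ({i // i = κ} → ℝ), F (e.symm (x, y))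
  rw [h2]
  have h3 : ∀ u : ℝ, e.symm (eU.symm u, y) = Function.update (e.symm (eU.symm 0, y)) κ u := by
    intro u
    have h4 : ∀ (v : ℝ) (i : ι), e.symm (eU.symm v, y) i = if hi : i = κ then v else y ⟨i, hi⟩ :=
      fun v i => rfl
    funext i
    by_cases hi : i = κ
    · subst hi
      rw [Function.update_self, h4, dif_pos rfl]
    · rw [Function.update_of_ne hi, h4, h4, dif_neg hi, dif_neg hi]
  refine (h (e.symm (eU.symm 0, y))).trans_eq ?_
  refine integral_congr_ae (Filter.Eventually.of_forall fun u => ?_)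
  exact congrArg F (h3 u).symm

end Pool.Agent.SVM
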