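import Pool.Agent.SVM.Moment

set_option autoImplicit false

/-!
# [SVM-GO] Laplace transform bound and the existence lemma

`laplace`: put `W₀ = wt 100 v T 0 ℓ univ`, `W₁ = wt 100 v T b ℓ univ`, `B x = ∑ b u (dot (ℓ u) x)^2`,
so `W₀ = exp B * W₁`, and `m = (1/4000) ∑ b u`.  `second_moment` (for each `u` with `b u ≠ 0`)
gives `∫ B W₁ ≥ m ∫ W₁`; as `exp B ≥ exp m (1 + B - m)`,
`∫ W₀ ≥ exp m (∫ W₁ + ∫ B W₁ - m ∫ W₁) ≥ exp m ∫ W₁`.
(Note: `wt` with the zero `b` : `∑ u, 0 * _ = 0`.)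

`exists_good`: for `ω` let `Bad ω = {x | ∑ b ω u (dot (ℓ u) x)^2 < τ ω}`; by Markov
`∫_{Bad ω} W₀ ≤ exp (τ ω) ∫ exp (-B_ω) W₀ ≤ exp (τ ω - m_ω) ∫ W₀`; the sum over `ω` is `< ∫ W₀`
(`wt_integral_pos`), so some `x` with `W₀ x ≠ 0` lies in no `Bad ω`; use `wt_support`.
-/

namespace Pool.Agent.SVM

open MeasureTheory Finset

theorem wt_zero_eq {ι A U : Type*} [Fintype ι] [Fintype A] [Fintype U]
    (v : A → ι → ℝ) (T : A → ℝ) (b : U → ℝ) (ℓ : U → ι → ℝ) (x : ι → ℝ) :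
    wt 100 v T (fun _ : U => 0) ℓ univ x =
      Real.exp (∑ u, b u * dot (ℓ u) x ^ 2) * wt 100 v T b ℓ univ x := by
  unfold wt
  rw [mul_left_comm, ← Real.exp_add]
  congr 2
  simp

theorem laplace {ι A U : Type*} [Fintype ι] [DecidableEq ι] [Fintype A] [DecidableEq A]
    [Fintype U]
    (v : A → ι → ℝ) (T : A → ℝ) (b : U → ℝ) (ℓ : U → ι → ℝ)
    (hT : ∀ a, 0 < T a) (hb : ∀ u, 0 ≤ b u)
    (H1 : ∀ a, 16 * nsq (v a) ≤ 100 * T a ^ 2)
    (hbox : ∀ κ, ∃ a, v a κ ≠ 0)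
    (H2 : ∀ κ, ∑ a, (v a κ / T a) ^ 2 *
      Real.exp (-(100 * T a ^ 2 / (8 * nsq (v a)))) ≤ 1)
    (hb1 : ∀ κ, ∑ u, b u * ℓ u κ ^ 2 ≤ 1)
    (hℓ : ∀ u, b u ≠ 0 → ∃ κ, 1 / 2 ≤ |ℓ u κ|) :
    ∫ x, wt 100 v T b ℓ univ x ≤
      Real.exp (-(1 / 4000 * ∑ u, b u)) * ∫ x, wt 100 v T (fun _ : U => 0) ℓ univ x := by
  set m : ℝ := 1 / 4000 * ∑ u, b u with hm
  have hW1 : Integrable (wt 100 v T b ℓ univ) := wt_integrable v T b ℓ univ 100 (by norm_num) hb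
  have hW0 : Integrable (wt 100 v T (fun _ : U => (0 : ℝ)) ℓ univ) :=
    wt_integrable v T _ ℓ univ 100 (by norm_num) (fun _ => le_rfl)
  have hdot : ∀ u, Integrable (fun x => dot (ℓ u) x ^ 2 * wt 100 v T b ℓ univ x) := fun u =>
    wt_dot_integrable v T b ℓ univ 100 (by norm_num) hb (ℓ u)
  have hB : ∀ x, (∑ u, b u * dot (ℓ u) x ^ 2) * wt 100 v T b ℓ univ x =
      ∑ u, b u * (dot (ℓ u) x ^ 2 * wt 100 v T b ℓ univ x) := fun x => by
    rw [Finset.sum_mul]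
    exact Finset.sum_congr rfl fun u _ => by ring
  have hBint : Integrable (fun x => (∑ u, b u * dot (ℓ u) x ^ 2) * wt 100 v T b ℓ univ x) := by
    simp_rw [hB]
    exact integrable_finsetSum _ fun u _ => (hdot u).const_mul (b u)
  have hsec : m * ∫ x, wt 100 v T b ℓ univ x ≤
      ∫ x, (∑ u, b u * dot (ℓ u) x ^ 2) * wt 100 v T b ℓ univ x := by
    simp_rw [hB]
    rw [integral_finsetSum _ fun u _ => (hdot u).const_mul (b u), hm, mul_assoc,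
      Finset.sum_mul, Finset.mul_sum]
    refine Finset.sum_le_sum fun u _ => ?_
    rw [integral_const_mul]
    by_cases hu : b u = 0
    · simp [hu]
    · obtain ⟨κ, hκ⟩ := hℓ u hu
      have := second_moment v T b ℓ hT hb H1 κ (hbox κ) (H2 κ) (hb1 κ) (ℓ u) hκ
      calc 1 / 4000 * (b u * ∫ x, wt 100 v T b ℓ univ x)
          = b u * (1 / 4000 * ∫ x, wt 100 v T b ℓ univ x) := by ring
        _ ≤ _ := mul_le_mul_of_nonneg_left this (hb u)
  have hlow : Real.exp m * ∫ x, wt 100 v T b ℓ univ x ≤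
      ∫ x, wt 100 v T (fun _ : U => 0) ℓ univ x := by
    have h1 : ∫ x, Real.exp m * (wt 100 v T b ℓ univ x +
        (∑ u, b u * dot (ℓ u) x ^ 2) * wt 100 v T b ℓ univ x -
        m * wt 100 v T b ℓ univ x) ≤ ∫ x, wt 100 v T (fun _ : U => 0) ℓ univ x := by
      refine integral_mono (((hW1.add hBint).sub (hW1.const_mul m)).const_mul _) hW0 fun x => ?_
      have hw := wt_nonneg v T b ℓ univ 100 x
      rw [wt_zero_eq v T b ℓ x]
      have h2 : Real.exp m * (1 + (∑ u, b u * dot (ℓ u) x ^ 2 - m)) ≤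
          Real.exp (∑ u, b u * dot (ℓ u) x ^ 2) := by
        have h3 := Real.add_one_le_exp (∑ u, b u * dot (ℓ u) x ^ 2 - m)
        calc Real.exp m * (1 + (∑ u, b u * dot (ℓ u) x ^ 2 - m))
            ≤ Real.exp m * Real.exp (∑ u, b u * dot (ℓ u) x ^ 2 - m) :=
              mul_le_mul_of_nonneg_left (by linarith) (Real.exp_pos _).le
          _ = _ := by rw [← Real.exp_add]; congr 1; ring
      calc _ = Real.exp m * (1 + (∑ u, b u * dot (ℓ u) x ^ 2 - m)) * wt 100 v T b ℓ univ x := by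
              ring
        _ ≤ _ := mul_le_mul_of_nonneg_right h2 hw
    have hadd : Integrable (fun x => wt 100 v T b ℓ univ x +
        (∑ u, b u * dot (ℓ u) x ^ 2) * wt 100 v T b ℓ univ x) := hW1.add hBint
    rw [integral_const_mul, integral_sub hadd (hW1.const_mul m),
      integral_add hW1 hBint, integral_const_mul] at h1
    refine le_trans (mul_le_mul_of_nonneg_left ?_ (Real.exp_pos _).le) h1
    linarith
  calc ∫ x, wt 100 v T b ℓ univ x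
      = Real.exp (-m) * (Real.exp m * ∫ x, wt 100 v T b ℓ univ x) := by
        rw [← mul_assoc, ← Real.exp_add]; simp
    _ ≤ _ := mul_le_mul_of_nonneg_left hlow (Real.exp_pos _).le

theorem exists_good {ι A U Ω : Type*} [Fintype ι] [DecidableEq ι] [Fintype A] [DecidableEq A]
    [Fintype U] [Fintype Ω]
    (v : A → ι → ℝ) (T : A → ℝ) (b : Ω → U → ℝ) (ℓ : U → ι → ℝ) (τ : Ω → ℝ)
    (hT : ∀ a, 0 < T a) (hb : ∀ ω u, 0 ≤ b ω u)
    (H1 : ∀ a, 16 * nsq (v a) ≤ 100 * T a ^ 2)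
    (hbox : ∀ κ, ∃ a, v a κ ≠ 0)
    (H2 : ∀ κ, ∑ a, (v a κ / T a) ^ 2 *
      Real.exp (-(100 * T a ^ 2 / (8 * nsq (v a)))) ≤ 1)
    (hb1 : ∀ ω κ, ∑ u, b ω u * ℓ u κ ^ 2 ≤ 1)
    (hℓ : ∀ ω u, b ω u ≠ 0 → ∃ κ, 1 / 2 ≤ |ℓ u κ|)
    (hsum : ∑ ω, Real.exp (τ ω - 1 / 4000 * ∑ u, b ω u) < 1) :
    ∃ x : ι → ℝ, (∀ a, |dot (v a) x| ≤ T a) ∧
      ∀ ω, τ ω ≤ ∑ u, b ω u * dot (ℓ u) x ^ 2 := by
  by_contra hcon
  push Not at hcon
  have hpos : 0 < ∫ x, wt 100 v T (fun _ : U => 0) ℓ univ x :=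
    wt_integral_pos v T _ ℓ univ 100 (by norm_num) (fun _ => le_rfl)
  have hW0 : Integrable (wt 100 v T (fun _ : U => (0 : ℝ)) ℓ univ) :=
    wt_integrable v T _ ℓ univ 100 (by norm_num) (fun _ => le_rfl)
  have hWω : ∀ ω, Integrable (wt 100 v T (b ω) ℓ univ) := fun ω =>
    wt_integrable v T _ ℓ univ 100 (by norm_num) (hb ω)
  have hpt : ∀ x, wt 100 v T (fun _ : U => 0) ℓ univ x ≤
      ∑ ω, Real.exp (τ ω) * wt 100 v T (b ω) ℓ univ x := by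
    intro x
    have hnn : ∀ ω, 0 ≤ Real.exp (τ ω) * wt 100 v T (b ω) ℓ univ x := fun ω =>
      mul_nonneg (Real.exp_pos _).le (wt_nonneg v T (b ω) ℓ univ 100 x)
    by_cases h0 : wt 100 v T (fun _ : U => (0 : ℝ)) ℓ univ x = 0
    · rw [h0]; exact Finset.sum_nonneg fun ω _ => hnn ω
    · obtain ⟨ω, hω⟩ := hcon x fun a =>
        wt_support v T (fun _ : U => (0 : ℝ)) ℓ univ 100 hT x h0 a (mem_univ a)
      refine le_trans ?_ (Finset.single_le_sum (fun ω _ => hnn ω) (mem_univ ω))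
      rw [wt_zero_eq v T (b ω) ℓ x]
      exact mul_le_mul_of_nonneg_right (Real.exp_le_exp.2 hω.le)
        (wt_nonneg v T (b ω) ℓ univ 100 x)
  have h1 : ∫ x, wt 100 v T (fun _ : U => 0) ℓ univ x ≤
      ∑ ω, Real.exp (τ ω) * ∫ x, wt 100 v T (b ω) ℓ univ x := by
    calc _ ≤ ∫ x, ∑ ω, Real.exp (τ ω) * wt 100 v T (b ω) ℓ univ x :=
          integral_mono hW0 (integrable_finsetSum _ fun ω _ => (hWω ω).const_mul _) hpt
      _ = _ := by
          rw [integral_finsetSum _ fun ω _ => (hWω ω).const_mul _]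
          exact Finset.sum_congr rfl fun ω _ => integral_const_mul _ _
  have h2 : ∑ ω, Real.exp (τ ω) * ∫ x, wt 100 v T (b ω) ℓ univ x ≤
      (∑ ω, Real.exp (τ ω - 1 / 4000 * ∑ u, b ω u)) *
        ∫ x, wt 100 v T (fun _ : U => 0) ℓ univ x := by
    rw [Finset.sum_mul]
    refine Finset.sum_le_sum fun ω _ => ?_
    have := laplace v T (b ω) ℓ hT (hb ω) H1 hbox H2 (hb1 ω) (hℓ ω)
    calc _ ≤ Real.exp (τ ω) * (Real.exp (-(1 / 4000 * ∑ u, b ω u)) *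
          ∫ x, wt 100 v T (fun _ : U => 0) ℓ univ x) :=
          mul_le_mul_of_nonneg_left this (Real.exp_pos _).le
      _ = _ := by rw [← mul_assoc, ← Real.exp_add, sub_eq_add_neg]
  have h3 : (∑ ω, Real.exp (τ ω - 1 / 4000 * ∑ u, b ω u)) *
      (∫ x, wt 100 v T (fun _ : U => 0) ℓ univ x) < 1 *
      ∫ x, wt 100 v T (fun _ : U => 0) ℓ univ x := mul_lt_mul_of_pos_right hsum hpos
  linarith

end Pool.Agent.SVM
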