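import Pool.Agent.SVM.Step

set_option autoImplicit false

/-!
# [SVM-IT1] one move
-/

namespace Pool.Agent.SVM

open Finset

/-- elementary inequality for the square root -/
theorem it1_sqrt (a s ξ : ℝ) (ha : 0 ≤ a) (hs : |s| = 1) (hξ : |ξ| ≤ 1 / 2) :
    √(a * (1 - s * ξ)) ≤ √a * (1 - s * ξ / 2 - ξ ^ 2 / 10) := by
  rw [Real.sqrt_mul ha]
  apply mul_le_mul_of_nonneg_left _ (Real.sqrt_nonneg a)
  have hs2 : s ^ 2 = 1 := by rw [← sq_abs, hs, one_pow]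
  have h1 : |s * ξ| ≤ 1 / 2 := by rw [abs_mul, hs, one_mul]; exact hξ
  have h2 := abs_le.1 h1
  have h3 : ξ ^ 2 = (s * ξ) ^ 2 := by rw [mul_pow, hs2, one_mul]
  rw [h3]
  set u := s * ξ with hu
  rw [Real.sqrt_le_left (by nlinarith [h2.1, h2.2])]
  have h4 : (1 - u / 2 - u ^ 2 / 10) ^ 2 - (1 - u) = u ^ 2 * (1 / 20 + u / 10 + u ^ 2 / 100) := by
    ring
  have h5 : 0 ≤ u ^ 2 * (1 / 20 + u / 10 + u ^ 2 / 100) := by
    apply mul_nonneg (sq_nonneg u)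
    nlinarith [h2.1, h2.2, sq_nonneg u]
  linarith

/-- [SVM-IT1] Apply `step_exists` with `a j = 1 - |x j|`, `σ j = 1` if `0 ≤ x j`, `-1` otherwise, and put
`x' j = x j + a j * ξ j`.  Then `|x' j| ≤ 1`, `1 - |x' j| ≤ a j (1 - σ j ξ j)` and
`√(1 - σ ξ) ≤ 1 - σ ξ / 2 - ξ ^ 2 / 10` for `|ξ| ≤ 1/2` (square it: with `u = -σ ξ`,
`(1 + u/2 - u^2/10)^2 - (1 + u) = u^2 (1/4 - 2/10 - u/10 + u^2/100) ≥ 0`).  Hence
`Ψ'_i ≤ Ψ_i - L_i / 2 - Q_i / 10` with `|L_i| ≤ P/160000` and `Q_i ≥ Ψ_i/16000` if `Ψ_i ≥ P/2`: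
in both cases `Ψ'_i ≤ (1 - 1/320000) P`. -/
theorem one_move {n m : ℕ} (V : Fin n → Fin m → ℝ) (R P T : ℝ) (d D1 : ℕ)
    (hV1 : ∀ i j, |V i j| ≤ 1) (hcol : ∀ j, ∑ i, |V i j| ≤ R)
    (hD : ∀ i, (univ.filter (fun i' => ∃ j, V i j ≠ 0 ∧ V i' j ≠ 0)).card ≤ D1)
    (x : Fin m → ℝ) (hx : ∀ j, |x j| ≤ 1)
    (hP : ∀ i, ∑ j, |V i j| * √(1 - |x j|) ≤ P)
    (hPbig : (10 : ℝ) ^ 13 ≤ P) (hRP : R ≤ P ^ 2)
    (hT0 : 0 < T) (hPT : P ≤ T ^ 2)
    (hc1 : R / T ^ 2 * Real.exp (-(12 * T ^ 2 / P)) ≤ 2 / 5)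
    (hd : 640000 ≤ d) (hd2 : P ≤ T * d)
    (hc3 : 4 * (D1 : ℝ) ^ (d + 3) * d * Real.exp (-(P / 32000)) ≤ 1 / 2) :
    ∃ x' : Fin m → ℝ, (∀ j, |x' j| ≤ 1) ∧
      (∀ i, |∑ j, V i j * x' j - ∑ j, V i j * x j| ≤ 2 * T) ∧
      (∀ i, ∑ j, |V i j| * √(1 - |x' j|) ≤ (1 - 1 / 320000) * P) := by
  have hσ : ∀ j, |(if 0 ≤ x j then (1 : ℝ) else -1)| = 1 := by
    intro j
    split_ifs <;> simp
  obtain ⟨ξ, hξ, h1, h2, h3⟩ := step_exists V R P T d D1 hV1 hcol hD (fun j => 1 - |x j|)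
    (fun j => if 0 ≤ x j then (1 : ℝ) else -1) (fun j => by have := hx j; linarith)
    (fun j => by have := abs_nonneg (x j); linarith) hσ hP hPbig hRP hT0 hPT hc1 hd hd2 hc3
  have hP0 : 0 ≤ P := le_trans (by positivity) hPbig
  refine ⟨fun j => x j + (1 - |x j|) * ξ j, fun j => ?_, fun i => ?_, fun i => ?_⟩
  · have e1 : |x j + (1 - |x j|) * ξ j| ≤ |x j| + |(1 - |x j|) * ξ j| := abs_add_le _ _
    rw [abs_mul, abs_of_nonneg (by have := hx j; linarith : (0 : ℝ) ≤ 1 - |x j|)] at e1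
    have e2 : (1 - |x j|) * |ξ j| ≤ (1 - |x j|) * (1 / 2) :=
      mul_le_mul_of_nonneg_left (hξ j) (by have := hx j; linarith)
    have := hx j
    dsimp only
    linarith
  · have e1 : ∑ j, V i j * (x j + (1 - |x j|) * ξ j) - ∑ j, V i j * x j =
        ∑ j, V i j * (1 - |x j|) * ξ j := by
      rw [← Finset.sum_sub_distrib]
      refine Finset.sum_congr rfl fun j _ => by ring
    dsimp only
    rw [e1]
    exact h1 i
  · have key : ∀ j, |V i j| * √(1 - |x j + (1 - |x j|) * ξ j|) ≤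
        |V i j| * √(1 - |x j|) -
          (1 / 2) * (|V i j| * √(1 - |x j|) * (if 0 ≤ x j then (1 : ℝ) else -1) * ξ j) -
          (1 / 10) * (|V i j| * √(1 - |x j|) * ξ j ^ 2) := by
      intro j
      have e1 : √(1 - |x j + (1 - |x j|) * ξ j|) ≤
          √((1 - |x j|) * (1 - (if 0 ≤ x j then (1 : ℝ) else -1) * ξ j)) := by
        apply Real.sqrt_le_sqrt
        split_ifs with h
        · have e2 := le_abs_self (x j + (1 - |x j|) * ξ j)
          have e3 := abs_of_nonneg h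
          nlinarith
        · have e2 := neg_le_abs (x j + (1 - |x j|) * ξ j)
          have e3 := abs_of_neg (not_le.1 h)
          nlinarith
      have e2 := it1_sqrt (1 - |x j|) (if 0 ≤ x j then (1 : ℝ) else -1) (ξ j)
        (by have := hx j; linarith) (hσ j) (hξ j)
      have e3 := mul_le_mul_of_nonneg_left (e1.trans e2) (abs_nonneg (V i j))
      refine e3.trans (le_of_eq ?_)
      ring
    have hsum := Finset.sum_le_sum (fun j (_ : j ∈ (univ : Finset (Fin m))) => key j)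
    rw [Finset.sum_sub_distrib, Finset.sum_sub_distrib, ← Finset.mul_sum, ← Finset.mul_sum] at hsum
    have hL := abs_le.1 (h2 i)
    have hQ0 : 0 ≤ ∑ j, |V i j| * √(1 - |x j|) * ξ j ^ 2 :=
      Finset.sum_nonneg fun j _ => mul_nonneg (mul_nonneg (abs_nonneg _) (Real.sqrt_nonneg _))
        (sq_nonneg _)
    have hPi := hP i
    rcases le_total (P / 2) (∑ j, |V i j| * √(1 - |x j|)) with hle | hle
    · have hQ := h3 i hle
      linarith [hL.1, hL.2]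
    · linarith [hL.1, hL.2]

end Pool.Agent.SVM
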