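import Pool.Agent.SVM.Par

set_option autoImplicit false

/-!
# [SVM-NU1] the numerical hypotheses of `one_move`
-/

namespace Pool.Agent.SVM

open Finset

/-- The numerical hypotheses of `one_move`, for `R` large, as long as `√R ≤ PP R s`.
Take `d = max 640000 ⌈PP R s / TT R s⌉₊` and write `P`, `T` for `PP R s`, `TT R s`, `t = s/320000`.
* `P ≥ √R ≥ 10 ^ 13`; `R ≤ P ^ 2`.
* `T ≥ √P (1 + t)`, so `P ≤ T ^ 2`; `R / P = r^{-s} = exp (- s log r) ≤ exp (2 t)` as
  `-log (1-x) ≤ 2 x` for `x = 1/320000`, so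
  `R / T^2 * exp (-12 T^2/P) ≤ exp (2 t) * exp (-12 (1+t)^2) ≤ exp (-12) ≤ 2/5`.
* `P/T ≤ min (√P) (P (1+log R)/√R)`, so `d ≤ 640001 + √P` and
  `(d + 3) * (√R / (10^12 (1+log R))) ≤ (640004 √R + P)/10^12 ≤ P / 10^6`; and
  `log 8 + log d ≤ 2 P/10^6`; in total `log (8 D1^{d+3} d) ≤ 3 P / 10^6 ≤ P / 32000` (`D1 = 0` is trivial).
Use `R₀ = 10 ^ 30` or anything larger that is convenient. -/
theorem numerics : ∃ R₀ : ℝ, 1 ≤ R₀ ∧ ∀ (R : ℝ) (s D1 : ℕ), R₀ ≤ R → √R ≤ PP R s →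
    (D1 : ℝ) ≤ Real.exp (√R / (10 ^ 12 * (1 + Real.log R))) →
    ∃ d : ℕ, (10 : ℝ) ^ 13 ≤ PP R s ∧ R ≤ PP R s ^ 2 ∧ 0 < TT R s ∧ PP R s ≤ TT R s ^ 2 ∧
      R / TT R s ^ 2 * Real.exp (-(12 * TT R s ^ 2 / PP R s)) ≤ 2 / 5 ∧
      640000 ≤ d ∧ PP R s ≤ TT R s * d ∧
      4 * (D1 : ℝ) ^ (d + 3) * d * Real.exp (-(PP R s / 32000)) ≤ 1 / 2 := by
  refine ⟨10 ^ 30, by norm_num, fun R s D1 hR hP hD => ?_⟩
  have hR1 : (1 : ℝ) ≤ R := le_trans (by norm_num) hR
  have hR0 : 0 < R := by linarith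
  have hlog : 0 ≤ Real.log R := Real.log_nonneg hR1
  have hsR : (10 : ℝ) ^ 15 ≤ √R := by
    apply Real.le_sqrt_of_sq_le
    calc ((10 : ℝ) ^ 15) ^ 2 = 10 ^ 30 := by norm_num
      _ ≤ R := hR
  have hsR0 : 0 < √R := lt_of_lt_of_le (by norm_num) hsR
  have hPdef : PP R s = (1 - 1 / 320000 : ℝ) ^ s * R := rfl
  have hTdef : TT R s = √(PP R s) * (1 + s / 320000) + √R / (1 + Real.log R) := rfl
  generalize hPP : PP R s = P at *
  generalize hTT : TT R s = T at *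
  have hP15 : (10 : ℝ) ^ 15 ≤ P := hsR.trans hP
  have hP0 : 0 < P := lt_of_lt_of_le (by norm_num) hP15
  obtain ⟨t, ht⟩ : ∃ t : ℝ, t = s / 320000 := ⟨_, rfl⟩
  rw [← ht] at hTdef
  have ht0 : 0 ≤ t := by rw [ht]; positivity
  have hsP : 0 < √P := Real.sqrt_pos.2 hP0
  have hq0 : 0 < √R / (1 + Real.log R) := by positivity
  have hT1 : √P * (1 + t) ≤ T := by rw [hTdef]; linarith
  have hT1' : √P ≤ T := by
    have : √P * 1 ≤ √P * (1 + t) := mul_le_mul_of_nonneg_left (by linarith) hsP.le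
    linarith
  have hT2 : √R / (1 + Real.log R) ≤ T := by
    rw [hTdef]
    have : 0 < √P * (1 + t) := by positivity
    linarith
  have hT0 : 0 < T := lt_of_lt_of_le hq0 hT2
  have hTsq : P * (1 + t) ^ 2 ≤ T ^ 2 := by
    calc P * (1 + t) ^ 2 = (√P * (1 + t)) ^ 2 := by rw [mul_pow, Real.sq_sqrt hP0.le]
      _ ≤ T ^ 2 := pow_le_pow_left₀ (by positivity) hT1 2
  have hPT : P ≤ T ^ 2 := by
    have h1 : P * 1 ≤ P * (1 + t) ^ 2 :=
      mul_le_mul_of_nonneg_left (one_le_pow₀ (by linarith)) hP0.le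
    linarith
  have hRP2 : R ≤ P ^ 2 := by
    calc R = √R ^ 2 := (Real.sq_sqrt hR0.le).symm
      _ ≤ P ^ 2 := pow_le_pow_left₀ hsR0.le hP 2
  have hRP : R / P ≤ Real.exp (2 * t) := by
    have h1 : R / P = ((1 - 1 / 320000 : ℝ)⁻¹) ^ s := by
      rw [hPdef, inv_pow]
      have : (1 - 1 / 320000 : ℝ) ^ s ≠ 0 := by positivity
      field_simp
    have h2 : (1 - 1 / 320000 : ℝ)⁻¹ ≤ Real.exp (2 / 320000) := by
      have := Real.add_one_le_exp (2 / 320000 : ℝ)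
      refine le_trans ?_ this
      norm_num
    rw [h1]
    calc ((1 - 1 / 320000 : ℝ)⁻¹) ^ s ≤ Real.exp (2 / 320000) ^ s :=
          pow_le_pow_left₀ (by norm_num) h2 s
      _ = Real.exp (2 * t) := by
          rw [← Real.exp_nat_mul, ht]
          congr 1
          ring
  have h5 : R / T ^ 2 * Real.exp (-(12 * T ^ 2 / P)) ≤ 2 / 5 := by
    have h6 : R / T ^ 2 ≤ R / P := div_le_div_of_nonneg_left hR0.le hP0 hPT
    have h7 : (1 + t) ^ 2 ≤ T ^ 2 / P := by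
      rw [le_div_iff₀ hP0]
      linarith
    have h8 : Real.exp (-(12 * T ^ 2 / P)) ≤ Real.exp (-(12 * (1 + t) ^ 2)) := by
      apply Real.exp_le_exp.2
      have : 12 * T ^ 2 / P = 12 * (T ^ 2 / P) := by ring
      rw [this]
      linarith
    calc R / T ^ 2 * Real.exp (-(12 * T ^ 2 / P))
        ≤ Real.exp (2 * t) * Real.exp (-(12 * (1 + t) ^ 2)) :=
          mul_le_mul (h6.trans hRP) h8 (Real.exp_pos _).le (Real.exp_pos _).le
      _ = Real.exp (2 * t + -(12 * (1 + t) ^ 2)) := (Real.exp_add _ _).symm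
      _ ≤ Real.exp (-1) := by
          apply Real.exp_le_exp.2
          nlinarith [sq_nonneg t]
      _ ≤ 2 / 5 := by
          have := Real.exp_neg_one_lt_d9
          linarith
  refine ⟨max 640000 ⌈P / T⌉₊, le_trans (by norm_num) hP15, hRP2, hT0, hPT, h5,
    le_max_left _ _, ?_, ?_⟩
  · have h6 : P / T ≤ ((max 640000 ⌈P / T⌉₊ : ℕ) : ℝ) := by
      refine (Nat.le_ceil _).trans ?_
      exact_mod_cast le_max_right _ _
    rw [div_le_iff₀ hT0] at h6
    linarith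
  · have hy0 : 0 ≤ P / T := by positivity
    have hd : ((max 640000 ⌈P / T⌉₊ : ℕ) : ℝ) ≤ 640001 + P / T := by
      have h6 : (⌈P / T⌉₊ : ℝ) < P / T + 1 := Nat.ceil_lt_add_one hy0
      rw [Nat.cast_max]
      apply max_le
      · push_cast
        linarith
      · linarith
    generalize max 640000 ⌈P / T⌉₊ = d at *
    obtain ⟨X, hX⟩ : ∃ X : ℝ, X = √R / (10 ^ 12 * (1 + Real.log R)) := ⟨_, rfl⟩
    rw [← hX] at hD
    have hX0 : 0 ≤ X := by rw [hX]; positivity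
    have hX1 : X ≤ P / 10 ^ 12 := by
      rw [hX]
      apply div_le_div₀ hP0.le hP (by positivity)
      nlinarith
    have hX2 : P / T * X ≤ P / 10 ^ 12 := by
      have h7 : X = √R / (1 + Real.log R) / 10 ^ 12 := by
        rw [hX]
        field_simp
      have h8 : X ≤ T / 10 ^ 12 := by
        rw [h7]
        exact div_le_div_of_nonneg_right hT2 (by positivity)
      calc P / T * X ≤ P / T * (T / 10 ^ 12) := mul_le_mul_of_nonneg_left h8 hy0
        _ = P / 10 ^ 12 := by field_simp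
    have hdX : ((d + 3 : ℕ) : ℝ) * X ≤ P / 10 ^ 6 := by
      push_cast
      calc ((d : ℝ) + 3) * X ≤ (640004 + P / T) * X :=
            mul_le_mul_of_nonneg_right (by linarith) hX0
        _ = 640004 * X + P / T * X := by ring
        _ ≤ 640004 * (P / 10 ^ 12) + P / 10 ^ 12 := by linarith
        _ ≤ P / 10 ^ 6 := by linarith
    have hpow : (D1 : ℝ) ^ (d + 3) ≤ Real.exp (P / 10 ^ 6) := by
      calc (D1 : ℝ) ^ (d + 3) ≤ Real.exp X ^ (d + 3) :=
            pow_le_pow_left₀ (Nat.cast_nonneg _) hD _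
        _ = Real.exp (((d + 3 : ℕ) : ℝ) * X) := (Real.exp_nat_mul _ _).symm
        _ ≤ Real.exp (P / 10 ^ 6) := Real.exp_le_exp.2 hdX
    -- `P / T ≤ √P ≤ P / 10 ^ 7`
    have hsP7 : (10 : ℝ) ^ 7 ≤ √P := by
      apply Real.le_sqrt_of_sq_le
      refine le_trans ?_ hP15
      norm_num
    have hPT2 : P / T ≤ P / 10 ^ 7 :=
      div_le_div_of_nonneg_left hP0.le (by positivity) (hsP7.trans hT1')
    have h8d : 8 * (d : ℝ) ≤ Real.exp (P / 32000 - P / 10 ^ 6) := by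
      have h9 := Real.add_one_le_exp (P / 32000 - P / 10 ^ 6)
      have h10 : (10 : ℝ) ^ 15 ≤ P := hP15
      norm_num at h10 hPT2 h9 ⊢
      linarith
    have hd0 : (0 : ℝ) ≤ d := Nat.cast_nonneg _
    calc 4 * (D1 : ℝ) ^ (d + 3) * d * Real.exp (-(P / 32000))
        ≤ 4 * Real.exp (P / 10 ^ 6) * d * Real.exp (-(P / 32000)) := by
          gcongr
      _ = 4 * d * Real.exp (-(P / 32000 - P / 10 ^ 6)) := by
          have : -(P / 32000 - P / 10 ^ 6) = P / 10 ^ 6 + -(P / 32000) := by ring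
          rw [this, Real.exp_add]
          ring
      _ ≤ 4 * (Real.exp (P / 32000 - P / 10 ^ 6) / 8) *
          Real.exp (-(P / 32000 - P / 10 ^ 6)) := by
          gcongr
          linarith
      _ = 1 / 2 := by
          rw [Real.exp_neg]
          field_simp
          norm_num

end Pool.Agent.SVM
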