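import Pool.Agent.SVM.Par

set_option autoImplicit false

/-!
# [SVM-NU2] sums over the moves
-/

namespace Pool.Agent.SVM

open Finset

/-- `√(PP R s) = √R * q ^ s` with `q = √(1 - 1/320000) ≤ 1 - 1/640000`; and
`∑ (1 + s/320000) q^s ≤ 640000 + 640000^2/320000 = 1920000`. -/
theorem sum_T (R : ℝ) (hR : 0 ≤ R) (S : ℕ) :
    ∑ s ∈ range S, √(PP R s) * (1 + s / 320000) ≤ 10 ^ 7 * √R := by
  obtain ⟨q, hq⟩ : ∃ q : ℝ, q = 1 - 1 / 640000 := ⟨_, rfl⟩
  have hq0 : 0 ≤ q := by rw [hq]; norm_num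
  have hq1 : q < 1 := by rw [hq]; norm_num
  -- the square root
  have h1 : ∀ s : ℕ, √(PP R s) ≤ √R * q ^ s := by
    intro s
    have h2 : PP R s ≤ (√R * q ^ s) ^ 2 := by
      rw [mul_pow, Real.sq_sqrt hR, PP, ← pow_mul, mul_comm s 2, pow_mul, mul_comm R]
      refine mul_le_mul_of_nonneg_right ?_ hR
      refine pow_le_pow_left₀ (by norm_num) ?_ s
      rw [hq]; norm_num
    calc √(PP R s) ≤ √((√R * q ^ s) ^ 2) := Real.sqrt_le_sqrt h2
      _ = √R * q ^ s := Real.sqrt_sq (by positivity)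
  -- the geometric sums
  have h3 : ∀ S : ℕ, ∑ s ∈ range S, q ^ s * (1 + s / 320000 : ℝ) ≤
      1920000 - q ^ S * (1920000 + 2 * S) := by
    intro S
    induction S with
    | zero => simp
    | succ S ih =>
      rw [sum_range_succ]
      have hqS : 0 ≤ q ^ S := pow_nonneg hq0 S
      have h4 : q ^ (S + 1) = q ^ S * (1 - 1 / 640000) := by rw [pow_succ, ← hq]
      rw [h4]
      push_cast
      have h5 : q ^ S * (1 + S / 320000 : ℝ) - q ^ S * (1920000 + 2 * S) +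
          q ^ S * (1 - 1 / 640000) * (1920000 + 2 * (S + 1)) = q ^ S * (- (2 / 640000)) := by
        ring
      nlinarith [h5, ih, hqS]
  have h6 : ∑ s ∈ range S, q ^ s * (1 + s / 320000 : ℝ) ≤ 10 ^ 7 := by
    have := h3 S
    have h7 : 0 ≤ q ^ S * (1920000 + 2 * (S : ℝ)) := by positivity
    linarith
  calc ∑ s ∈ range S, √(PP R s) * (1 + s / 320000 : ℝ)
      ≤ ∑ s ∈ range S, √R * (q ^ s * (1 + s / 320000 : ℝ)) := by
        refine sum_le_sum fun s _ => ?_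
        rw [← mul_assoc]
        exact mul_le_mul_of_nonneg_right (h1 s) (by positivity)
    _ = √R * ∑ s ∈ range S, q ^ s * (1 + s / 320000 : ℝ) := by rw [mul_sum]
    _ ≤ √R * 10 ^ 7 := mul_le_mul_of_nonneg_left h6 (Real.sqrt_nonneg _)
    _ = 10 ^ 7 * √R := mul_comm _ _

/-- the number of moves: `S * (1/320000) ≤ - S * log (1 - 1/320000) ≤ log (R/√R) = (1/2) log R`. -/
theorem steps_le (R : ℝ) (hR : 1 ≤ R) (S : ℕ) (h : √R ≤ PP R S) :
    (S : ℝ) ≤ 160000 * Real.log R := by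
  have hR0 : 0 < R := by linarith
  have hs : 0 < √R := Real.sqrt_pos.2 hR0
  have h1 := Real.log_le_log hs h
  rw [Real.log_sqrt hR0.le, PP, Real.log_mul (by positivity) hR0.ne', Real.log_pow] at h1
  have h2 : Real.log (1 - 1 / 320000 : ℝ) ≤ (1 - 1 / 320000 : ℝ) - 1 :=
    Real.log_le_sub_one_of_pos (by norm_num)
  have h3 : (S : ℝ) * Real.log (1 - 1 / 320000 : ℝ) ≤ S * ((1 - 1 / 320000 : ℝ) - 1) :=
    mul_le_mul_of_nonneg_left h2 (Nat.cast_nonneg S)
  linarith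

/-- there is a first `S` with `PP R S < √R` for `R > 1` (as `(1 - 1/320000)^S → 0`) -/
theorem exists_last (R : ℝ) (hR : 1 ≤ R) :
    ∃ S : ℕ, PP R S < √R ∧ ∀ s, s < S → √R ≤ PP R s := by
  classical
  have hR0 : 0 < R := by linarith
  have hs : 0 < √R := Real.sqrt_pos.2 hR0
  have hex : ∃ S : ℕ, PP R S < √R := by
    obtain ⟨S, hS⟩ := exists_pow_lt_of_lt_one (div_pos hs hR0)
      (show (1 - 1 / 320000 : ℝ) < 1 by norm_num)
    refine ⟨S, ?_⟩
    rw [lt_div_iff₀ hR0] at hS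
    exact hS
  refine ⟨Nat.find hex, Nat.find_spec hex, fun s hs => ?_⟩
  exact not_lt.1 (Nat.find_min hex hs)

end Pool.Agent.SVM
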