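import Pool.Agent.SVM.Iter
import Pool.Agent.SVM.Numerics
import Pool.Agent.SVM.Sums

set_option autoImplicit false

/-!
# [SVM-IT2] iteration
-/

namespace Pool.Agent.SVM

open Finset

/-- Induction on `S`: if `√R ≤ PP R s` for all `s < S` then there is `x` with `|x j| ≤ 1`,
`|∑ j, V i j * x j| ≤ ∑ s ∈ range S, 2 * TT R s` and `∑ j, |V i j| * √(1 - |x j|) ≤ PP R S`
(start: `x = 0`). -/
theorem iterate {n m : ℕ} (V : Fin n → Fin m → ℝ) (R : ℝ) (D1 : ℕ)
    (hV1 : ∀ i j, |V i j| ≤ 1) (hrow : ∀ i, ∑ j, |V i j| ≤ R) (hcol : ∀ j, ∑ i, |V i j| ≤ R)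
    (hD : ∀ i, (univ.filter (fun i' => ∃ j, V i j ≠ 0 ∧ V i' j ≠ 0)).card ≤ D1)
    (hnum : ∀ s : ℕ, √R ≤ PP R s →
      ∃ d : ℕ, (10 : ℝ) ^ 13 ≤ PP R s ∧ R ≤ PP R s ^ 2 ∧ 0 < TT R s ∧ PP R s ≤ TT R s ^ 2 ∧
      R / TT R s ^ 2 * Real.exp (-(12 * TT R s ^ 2 / PP R s)) ≤ 2 / 5 ∧
      640000 ≤ d ∧ PP R s ≤ TT R s * d ∧
      4 * (D1 : ℝ) ^ (d + 3) * d * Real.exp (-(PP R s / 32000)) ≤ 1 / 2)
    (S : ℕ) (hS : ∀ s, s < S → √R ≤ PP R s) :
    ∃ x : Fin m → ℝ, (∀ j, |x j| ≤ 1) ∧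
      (∀ i, |∑ j, V i j * x j| ≤ ∑ s ∈ range S, 2 * TT R s) ∧
      (∀ i, ∑ j, |V i j| * √(1 - |x j|) ≤ PP R S) := by
  induction S with
  | zero =>
    refine ⟨fun _ => 0, fun j => by simp, fun i => by simp, fun i => ?_⟩
    have h : PP R 0 = R := by unfold PP; rw [pow_zero, one_mul]
    rw [h]
    simpa using hrow i
  | succ S ih =>
    obtain ⟨x, hx1, hx2, hx3⟩ := ih fun s hs => hS s (Nat.lt_succ_of_lt hs)
    obtain ⟨d, h1, h2, h3, h4, h5, h6, h7, h8⟩ := hnum S (hS S (Nat.lt_succ_self S))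
    obtain ⟨x', hx1', hx2', hx3'⟩ := one_move V R (PP R S) (TT R S) d D1 hV1 hcol hD x hx1 hx3
      h1 h2 h3 h4 h5 h6 h7 h8
    refine ⟨x', hx1', fun i => ?_, fun i => ?_⟩
    · rw [sum_range_succ]
      have e : ∑ j, V i j * x' j =
          ∑ j, V i j * x j + (∑ j, V i j * x' j - ∑ j, V i j * x j) := by ring
      rw [e]
      exact (abs_add_le _ _).trans (add_le_add (hx2 i) (hx2' i))
    · have e : PP R (S + 1) = (1 - 1 / 320000) * PP R S := by
        unfold PP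
        rw [pow_succ]
        ring
      rw [e]
      exact hx3' i

/-- Use `numerics`, `iterate` with `S` from `exists_last`, and then `y j = 1` if `0 ≤ x j` and `-1`
otherwise: `|∑ V i j y j - ∑ V i j x j| ≤ ∑ |V i j| (1 - |x j|) ≤ ∑ |V i j| √(1 - |x j|) ≤ √R`.
The sum of the `TT` : `sum_T` and `steps_le` (for `S - 1`). -/
theorem main_large : ∃ R₀ : ℝ, 1 ≤ R₀ ∧ ∀ (n m : ℕ) (V : Fin n → Fin m → ℝ) (R : ℝ), R₀ ≤ R →
    (∀ i j, |V i j| ≤ 1) → (∀ i, ∑ j, |V i j| ≤ R) → (∀ j, ∑ i, |V i j| ≤ R) →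
    (∀ i, ((univ.filter (fun i' => ∃ j, V i j ≠ 0 ∧ V i' j ≠ 0)).card : ℝ) ≤
      Real.exp (√R / (10 ^ 12 * (1 + Real.log R)))) →
    ∃ y : Fin m → ℝ, (∀ j, y j = 1 ∨ y j = -1) ∧
      ∀ i, |∑ j, V i j * y j| ≤ 10 ^ 8 * √R := by
  obtain ⟨R₀, hR₀, hnum⟩ := numerics
  refine ⟨R₀, hR₀, ?_⟩
  intro n m V R hR hV1 hrow hcol hD
  have hR1 : 1 ≤ R := hR₀.trans hR
  have hR0 : 0 ≤ R := zero_le_one.trans hR1
  set X := Real.exp (√R / (10 ^ 12 * (1 + Real.log R))) with hX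
  have hX0 : 0 ≤ X := (Real.exp_pos _).le
  obtain ⟨S, hS1, hS2⟩ := exists_last R hR1
  obtain ⟨x, hx1, hx2, hx3⟩ := iterate V R ⌊X⌋₊ hV1 hrow hcol (fun i => Nat.le_floor (hD i))
    (fun s hs => hnum R s ⌊X⌋₊ hR hs (Nat.floor_le hX0)) S hS2
  have hlog : 0 ≤ Real.log R := Real.log_nonneg hR1
  have hlog1 : 0 < 1 + Real.log R := by linarith
  -- the number of moves
  have hSle : (S : ℝ) ≤ 160000 * (1 + Real.log R) := by
    rcases Nat.eq_zero_or_pos S with h0 | h0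
    · rw [h0]
      push_cast
      positivity
    · have h1 := steps_le R hR1 (S - 1) (hS2 (S - 1) (by omega))
      rw [Nat.cast_sub h0] at h1
      push_cast at h1
      linarith
  -- the sum of the bounds
  have hsum : ∑ s ∈ range S, 2 * TT R s ≤ (2 * 10 ^ 7 + 320000) * √R := by
    have e : ∑ s ∈ range S, 2 * TT R s =
        2 * ∑ s ∈ range S, √(PP R s) * (1 + s / 320000) + 2 * (S * (√R / (1 + Real.log R))) := by
      unfold TT
      rw [← mul_sum, sum_add_distrib, sum_const, card_range, nsmul_eq_mul]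
      ring
    rw [e]
    have h1 := sum_T R hR0 S
    have h2 : (S : ℝ) * (√R / (1 + Real.log R)) ≤ 160000 * √R := by
      calc (S : ℝ) * (√R / (1 + Real.log R)) ≤
            (160000 * (1 + Real.log R)) * (√R / (1 + Real.log R)) :=
            mul_le_mul_of_nonneg_right hSle (by positivity)
        _ = 160000 * √R := by field_simp
    linarith
  refine ⟨fun j => if 0 ≤ x j then 1 else -1, ?_, ?_⟩
  · intro j
    by_cases h : 0 ≤ x j
    · left; simp only [if_pos h]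
    · right; simp only [if_neg h]
  · intro i
    have hdiff : ∀ j, |(if 0 ≤ x j then (1 : ℝ) else -1) - x j| ≤ √(1 - |x j|) := by
      intro j
      have h1 : |(if 0 ≤ x j then (1 : ℝ) else -1) - x j| = 1 - |x j| := by
        have h2 := hx1 j
        by_cases h : 0 ≤ x j
        · rw [if_pos h, abs_of_nonneg h] at *
          rw [abs_of_nonneg (by linarith)]
        · rw [if_neg h]
          push Not at h
          rw [abs_of_neg h] at *
          rw [abs_of_nonpos (by linarith)]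
          ring
      rw [h1]
      have h3 : 0 ≤ 1 - |x j| := by linarith [hx1 j]
      have h4 : 1 - |x j| ≤ 1 := by linarith [abs_nonneg (x j)]
      apply Real.le_sqrt_of_sq_le
      nlinarith
    have e : ∑ j, V i j * (if 0 ≤ x j then (1 : ℝ) else -1) =
        ∑ j, V i j * x j + ∑ j, V i j * ((if 0 ≤ x j then (1 : ℝ) else -1) - x j) := by
      rw [← sum_add_distrib]
      refine sum_congr rfl fun j _ => ?_
      ring
    have h5 : |∑ j, V i j * ((if 0 ≤ x j then (1 : ℝ) else -1) - x j)| ≤ √R := by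
      refine (abs_sum_le_sum_abs _ _).trans ?_
      calc ∑ j, |V i j * ((if 0 ≤ x j then (1 : ℝ) else -1) - x j)| ≤
            ∑ j, |V i j| * √(1 - |x j|) := by
            refine sum_le_sum fun j _ => ?_
            rw [abs_mul]
            exact mul_le_mul_of_nonneg_left (hdiff j) (abs_nonneg _)
        _ ≤ PP R S := hx3 i
        _ ≤ √R := hS1.le
    change |∑ j, V i j * (if 0 ≤ x j then (1 : ℝ) else -1)| ≤ _
    rw [e]
    have hsq : 0 ≤ √R := Real.sqrt_nonneg R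
    calc |∑ j, V i j * x j + ∑ j, V i j * ((if 0 ≤ x j then (1 : ℝ) else -1) - x j)| ≤
          |∑ j, V i j * x j| + |∑ j, V i j * ((if 0 ≤ x j then (1 : ℝ) else -1) - x j)| :=
          abs_add_le _ _
      _ ≤ (2 * 10 ^ 7 + 320000) * √R + √R := add_le_add ((hx2 i).trans hsum) h5
      _ ≤ 10 ^ 8 * √R := by nlinarith

end Pool.Agent.SVM
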