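import Pool.Agent.SVM.Base

set_option autoImplicit false

/-!
# [SVM-OD2] product rule for `f'² - f f''`

`Λ (f g) = Λ f g² + f² Λ g` for `Λ f = f'² - f f''`; induction on `S`
(`S = ∅`: the constant `1`, both sides are `0`).
-/

namespace Pool.Agent.SVM

open Finset

/-- two factors -/
theorem lam_mul (f g : ℝ → ℝ) (hf : ContDiff ℝ 2 f) (hg : ContDiff ℝ 2 g) (u : ℝ) :
    deriv (fun t => f t * g t) u ^ 2 - (f u * g u) * deriv (deriv (fun t => f t * g t)) u =
      (deriv f u ^ 2 - f u * deriv (deriv f) u) * g u ^ 2 +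
        f u ^ 2 * (deriv g u ^ 2 - g u * deriv (deriv g) u) := by
  have hf1 : Differentiable ℝ f := hf.differentiable (by norm_num)
  have hg1 : Differentiable ℝ g := hg.differentiable (by norm_num)
  have hf2 : Differentiable ℝ (deriv f) := by
    have h : ContDiff ℝ (1 + 1) f := by
      have : (1 + 1 : WithTop ℕ∞) = 2 := by norm_num
      rw [this]; exact hf
    exact ((contDiff_succ_iff_deriv.1 h).2.2).differentiable (by norm_num)
  have hg2 : Differentiable ℝ (deriv g) := by
    have h : ContDiff ℝ (1 + 1) g := by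
      have : (1 + 1 : WithTop ℕ∞) = 2 := by norm_num
      rw [this]; exact hg
    exact ((contDiff_succ_iff_deriv.1 h).2.2).differentiable (by norm_num)
  have h1 : deriv (fun t => f t * g t) = fun t => deriv f t * g t + f t * deriv g t := by
    funext t
    exact ((hf1 t).hasDerivAt.mul (hg1 t).hasDerivAt).deriv
  have h2 : deriv (fun t => deriv f t * g t + f t * deriv g t) u =
      (deriv (deriv f) u * g u + deriv f u * deriv g u) +
        (deriv f u * deriv g u + f u * deriv (deriv g) u) :=
    (((hf2 u).hasDerivAt.mul (hg1 u).hasDerivAt).add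
      ((hf1 u).hasDerivAt.mul (hg2 u).hasDerivAt)).deriv
  rw [h1, h2]
  ring

theorem lam_prod {A : Type*} [DecidableEq A] (S : Finset A) (g : A → ℝ → ℝ)
    (hg : ∀ a ∈ S, ContDiff ℝ 2 (g a)) (u : ℝ) :
    deriv (fun t => ∏ a ∈ S, g a t) u ^ 2 -
        (∏ a ∈ S, g a u) * deriv (deriv (fun t => ∏ a ∈ S, g a t)) u =
      ∑ a ∈ S, (deriv (g a) u ^ 2 - g a u * deriv (deriv (g a)) u) *
        ∏ a' ∈ S.erase a, g a' u ^ 2 := by
  induction S using Finset.induction_on with
  | empty => simp
  | insert a s ha ih =>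
    have hg' : ∀ b ∈ s, ContDiff ℝ 2 (g b) := fun b hb => hg b (mem_insert_of_mem hb)
    have hga : ContDiff ℝ 2 (g a) := hg a (mem_insert_self _ _)
    have hP : ContDiff ℝ 2 (fun t => ∏ b ∈ s, g b t) := contDiff_prod hg'
    simp only [prod_insert ha]
    rw [lam_mul (g a) (fun t => ∏ b ∈ s, g b t) hga hP u, ih hg', sum_insert ha,
      erase_insert ha, prod_pow, mul_sum]
    congr 1
    refine sum_congr rfl fun b hb => ?_
    have hab : a ≠ b := fun h => ha (h ▸ hb)
    rw [erase_insert_of_ne hab, prod_insert (fun h => ha (mem_of_mem_erase h))]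
    ring

end Pool.Agent.SVM
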