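import Pool.Agent.SVM.Iterate

set_option autoImplicit false

/-!
# [SVM-IT3] the final theorem
-/

namespace Pool.Agent.SVM

open Finset

/-- comparison of the two bounds for the number of rows sharing a column -/
theorem it3_growth (R : ℝ) (hR : Real.exp (10 ^ 15) ≤ R) :
    R ^ 2 + Real.exp (1 / 10 ^ 13 * √R / Real.log (2 + R)) ≤
      Real.exp (√R / (10 ^ 12 * (1 + Real.log R))) := by
  have hR0 : 0 < R := lt_of_lt_of_le (Real.exp_pos _) hR
  set t := Real.log R with ht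
  have ht1 : 10 ^ 15 ≤ t := by
    rw [ht, Real.le_log_iff_exp_le hR0]
    exact hR
  have hRt : R = Real.exp t := (Real.exp_log hR0).symm
  have hsq : √R = Real.exp (t / 2) := by
    rw [hRt, ← Real.exp_half]
  have hcube : (t / 2) ^ 3 / 6 ≤ √R := by
    rw [hsq]
    have h1 := Real.pow_div_factorial_le_exp (t / 2) (by linarith) 3
    have h2 : ((Nat.factorial 3 : ℕ) : ℝ) = 6 := by norm_num [Nat.factorial]
    rw [h2] at h1
    exact h1
  have htpos : 0 < 1 + t := by linarith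
  set X := √R / (1 + t) with hX
  have hX1 : 5 * 10 ^ 12 * t ≤ X := by
    rw [hX, le_div_iff₀ htpos]
    refine le_trans ?_ hcube
    have h3 : 5 * 10 ^ 12 * t * (1 + t) ≤ 5 * 10 ^ 12 * t * (2 * t) :=
      mul_le_mul_of_nonneg_left (by linarith) (by positivity)
    refine h3.trans ?_
    have h4 : t ^ 2 * (10 ^ 15) ≤ t ^ 2 * t :=
      mul_le_mul_of_nonneg_left ht1 (sq_nonneg t)
    nlinarith [sq_nonneg t]
  have hXpos : 0 < X := lt_of_lt_of_le (by positivity) hX1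
  have hlog : (1 + t) / 2 ≤ Real.log (2 + R) := by
    have h1 : t ≤ Real.log (2 + R) := by
      rw [ht]
      exact Real.log_le_log hR0 (by linarith)
    linarith
  have h1 : 1 / 10 ^ 13 * √R / Real.log (2 + R) ≤ 2 * X / 10 ^ 13 := by
    have h2 : 1 / 10 ^ 13 * √R / Real.log (2 + R) ≤ 1 / 10 ^ 13 * √R / ((1 + t) / 2) :=
      div_le_div_of_nonneg_left (by positivity) (by linarith) hlog
    refine h2.trans (le_of_eq ?_)
    rw [hX]
    field_simp
  have h2 : √R / (10 ^ 12 * (1 + t)) = X / 10 ^ 12 := by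
    rw [hX]
    field_simp
  rw [h2]
  refine le_trans (add_le_add_right (Real.exp_le_exp.2 h1) (R ^ 2)) ?_
  have h3 : R ^ 2 ≤ Real.exp (X / 10 ^ 12) / 2 := by
    rw [le_div_iff₀ (by norm_num : (0 : ℝ) < 2)]
    have h4 : (2 : ℝ) ≤ Real.exp 1 := by
      have := Real.add_one_le_exp (1 : ℝ)
      linarith
    have h5 : R ^ 2 * 2 ≤ Real.exp (2 * t + 1) := by
      rw [Real.exp_add, two_mul, Real.exp_add, ← hRt, ← sq]
      exact mul_le_mul_of_nonneg_left h4 (sq_nonneg R)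
    refine h5.trans (Real.exp_le_exp.2 ?_)
    rw [le_div_iff₀ (by positivity)]
    nlinarith
  have h6 : Real.exp (2 * X / 10 ^ 13) ≤ Real.exp (X / 10 ^ 12) / 2 := by
    rw [le_div_iff₀ (by norm_num : (0 : ℝ) < 2)]
    have h4 : (2 : ℝ) ≤ Real.exp 1 := by
      have := Real.add_one_le_exp (1 : ℝ)
      linarith
    have h5 : Real.exp (2 * X / 10 ^ 13) * 2 ≤ Real.exp (2 * X / 10 ^ 13 + 1) := by
      rw [Real.exp_add]
      exact mul_le_mul_of_nonneg_left h4 (Real.exp_pos _).le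
    refine h5.trans (Real.exp_le_exp.2 ?_)
    have h7 : 10 ^ 15 * (5 * 10 ^ 12) ≤ X := by nlinarith
    have h8 : X / 10 ^ 12 = 10 * (X / 10 ^ 13) := by ring
    have h9 : 2 * X / 10 ^ 13 = 2 * (X / 10 ^ 13) := by ring
    have h10 : 1 ≤ X / 10 ^ 13 := by
      rw [le_div_iff₀ (by positivity)]
      linarith
    rw [h8, h9]
    linarith
  linarith

/-- `main_large` for `R` large, the trivial bound `R ≤ √R₀ √R` otherwise (`c = 10^{-13}`;
`log (2 + R) ≥ (1 + log R) / 2`; `R ^ 2 + exp (2 X / 10^13) ≤ exp (X / 10^12)` for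
`X = √R / (1 + log R)` when `R` is large). -/
theorem main : ∃ C c : ℝ, 0 < C ∧ 0 < c ∧
    ∀ (n m : ℕ) (V : Fin n → Fin m → ℝ) (R Δ : ℝ), Δ ≤ R →
    (∀ i j, |V i j| ≤ 1) → (∀ i, ∑ j, |V i j| ≤ R) → (∀ j, ∑ i, |V i j| ≤ Δ) →
    (∀ i, ((univ.filter (fun i' => ∃ j, V i j ≠ 0 ∧ V i' j ≠ 0)).card : ℝ) ≤
      R ^ 2 + Real.exp (c * √R / Real.log (2 + R))) →
    ∃ y : Fin m → ℝ, (∀ j, y j = 1 ∨ y j = -1) ∧ ∀ i, |∑ j, V i j * y j| ≤ C * √R := by
  obtain ⟨R₀, hR₀, hmain⟩ := main_large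
  set R₁ := max R₀ (Real.exp (10 ^ 15)) with hR₁
  refine ⟨10 ^ 8 + √R₁, 1 / 10 ^ 13, by positivity, by positivity, ?_⟩
  intro n m V R Δ hΔ hV hrow hcol hD
  rcases le_total R₁ R with h | h
  · have h1 : R₀ ≤ R := (le_max_left _ _).trans h
    have h2 : Real.exp (10 ^ 15) ≤ R := (le_max_right _ _).trans h
    obtain ⟨y, hy, hy2⟩ := hmain n m V R h1 hV hrow (fun j => (hcol j).trans hΔ)
      (fun i => (hD i).trans (it3_growth R h2))
    refine ⟨y, hy, fun i => (hy2 i).trans ?_⟩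
    exact mul_le_mul_of_nonneg_right (by have := Real.sqrt_nonneg R₁; linarith)
      (Real.sqrt_nonneg R)
  · refine ⟨fun _ => 1, fun _ => Or.inl rfl, fun i => ?_⟩
    have h0 : 0 ≤ R := le_trans (Finset.sum_nonneg fun j _ => abs_nonneg _) (hrow i)
    have h1 : |∑ j, V i j * 1| ≤ R := by
      refine (Finset.abs_sum_le_sum_abs _ _).trans ?_
      simpa using hrow i
    refine h1.trans ?_
    have h2 : √R ≤ √R₁ := Real.sqrt_le_sqrt h
    have h3 : R = √R * √R := (Real.mul_self_sqrt h0).symm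
    calc R = √R * √R := h3
      _ ≤ √R₁ * √R := mul_le_mul_of_nonneg_right h2 (Real.sqrt_nonneg R)
      _ ≤ (10 ^ 8 + √R₁) * √R := mul_le_mul_of_nonneg_right (by norm_num) (Real.sqrt_nonneg R)

/-- 0/1 matrices (hypergraphs): a row shares a column with at most `R * Δ ≤ R ^ 2` rows. -/
theorem main_hyp : ∃ C : ℝ, 0 < C ∧
    ∀ (n m : ℕ) (V : Fin n → Fin m → ℝ) (R Δ : ℝ), Δ ≤ R →
    (∀ i j, V i j = 0 ∨ V i j = 1) → (∀ i, ∑ j, |V i j| ≤ R) → (∀ j, ∑ i, |V i j| ≤ Δ) →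
    ∃ y : Fin m → ℝ, (∀ j, y j = 1 ∨ y j = -1) ∧ ∀ i, |∑ j, V i j * y j| ≤ C * √R := by
  obtain ⟨C, c, hC, hc, hmain⟩ := main
  refine ⟨C, hC, ?_⟩
  intro n m V R Δ hΔ hV hrow hcol
  refine hmain n m V R Δ hΔ ?_ hrow hcol ?_
  · intro i j
    rcases hV i j with h | h <;> rw [h] <;> simp
  · intro i
    have h0 : 0 ≤ R := le_trans (Finset.sum_nonneg fun j _ => abs_nonneg _) (hrow i)
    have habs : ∀ i j, |V i j| = if V i j ≠ 0 then (1 : ℝ) else 0 := by
      intro i j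
      rcases hV i j with h | h <;> rw [h] <;> simp
    have hsub : univ.filter (fun i' => ∃ j, V i j ≠ 0 ∧ V i' j ≠ 0) ⊆
        (univ.filter (fun j => V i j ≠ 0)).biUnion
          (fun j => univ.filter (fun i' => V i' j ≠ 0)) := by
      intro i' hi'
      rw [Finset.mem_filter] at hi'
      obtain ⟨-, j, h1, h2⟩ := hi'
      rw [Finset.mem_biUnion]
      exact ⟨j, Finset.mem_filter.2 ⟨Finset.mem_univ _, h1⟩,
        Finset.mem_filter.2 ⟨Finset.mem_univ _, h2⟩⟩
    have h1 : ((univ.filter (fun i' => ∃ j, V i j ≠ 0 ∧ V i' j ≠ 0)).card : ℝ) ≤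
        ∑ j ∈ univ.filter (fun j => V i j ≠ 0),
          ((univ.filter (fun i' => V i' j ≠ 0)).card : ℝ) := by
      have h2 := (Finset.card_le_card hsub).trans Finset.card_biUnion_le
      exact_mod_cast h2
    have h2 : ∀ j, ((univ.filter (fun i' => V i' j ≠ 0)).card : ℝ) ≤ R := by
      intro j
      refine le_trans (le_of_eq ?_) ((hcol j).trans hΔ)
      rw [Finset.sum_congr rfl fun i' _ => habs i' j, Finset.sum_ite, Finset.sum_const_zero,
        add_zero, Finset.sum_const, nsmul_eq_mul, mul_one]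
    have h3 : ((univ.filter (fun j => V i j ≠ 0)).card : ℝ) ≤ R := by
      refine le_trans (le_of_eq ?_) (hrow i)
      rw [Finset.sum_congr rfl fun j _ => habs i j, Finset.sum_ite, Finset.sum_const_zero,
        add_zero, Finset.sum_const, nsmul_eq_mul, mul_one]
    have h4 : ((univ.filter (fun i' => ∃ j, V i j ≠ 0 ∧ V i' j ≠ 0)).card : ℝ) ≤ R ^ 2 := by
      refine h1.trans ((Finset.sum_le_sum fun j _ => h2 j).trans ?_)
      rw [Finset.sum_const, nsmul_eq_mul, sq]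
      exact mul_le_mul_of_nonneg_right h3 h0
    exact h4.trans (by have := Real.exp_pos (c * √R / Real.log (2 + R)); linarith)

end Pool.Agent.SVM
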