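import Pool.Agent.SVM.Main

set_option autoImplicit false

/-!
# corollaries of the main theorem
-/

namespace Pool.Agent.SVM

open Finset

theorem growth (c0 : ℝ) (hc0 : 0 < c0) : ∃ R₁ : ℝ, 1 ≤ R₁ ∧ ∀ R : ℝ, R₁ ≤ R →
    (R * (R ^ 2 + Real.exp (c0 / 4 * √R / Real.log (2 + R)))) ^ 2 ≤
      R ^ 2 + Real.exp (c0 * √R / Real.log (2 + R)) := by
  set B : ℝ := 4 * ((Nat.factorial 28 : ℕ) : ℝ) / (c0 / 16) ^ 28 with hB
  have hBpos : 0 < B := by positivity
  refine ⟨max 2 B, le_trans (by norm_num) (le_max_left _ _), fun R hR => ?_⟩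
  have hR2 : (2 : ℝ) ≤ R := (le_max_left _ _).trans hR
  have hRB : B ≤ R := (le_max_right _ _).trans hR
  have hR0 : 0 < R := by linarith
  set r : ℝ := R ^ (1 / 4 : ℝ) with hr
  have hr0 : 0 < r := Real.rpow_pos_of_pos hR0 _
  have hr4 : r ^ 4 = R := by
    rw [hr, ← Real.rpow_natCast, ← Real.rpow_mul hR0.le]
    norm_num
  have hr2 : √R = r ^ 2 := by
    rw [← hr4, show r ^ 4 = (r ^ 2) ^ 2 by ring, Real.sqrt_sq (by positivity)]
  have hlogpos : 0 < Real.log (2 + R) := Real.log_pos (by linarith)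
  have hlog : Real.log (2 + R) ≤ 8 * r := by
    have h1 : Real.log (2 + R) ≤ Real.log (R ^ 2) :=
      Real.log_le_log (by linarith) (by nlinarith)
    have h2 : Real.log (R ^ 2) = 2 * Real.log R := by
      rw [Real.log_pow]; norm_num
    have h3 : Real.log R ≤ R ^ (1 / 4 : ℝ) / (1 / 4) := Real.log_le_rpow_div hR0.le (by norm_num)
    rw [← hr] at h3
    linarith
  set X : ℝ := √R / Real.log (2 + R) with hX
  have hX1 : r / 8 ≤ X := by
    rw [hX, le_div_iff₀ hlogpos, hr2]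
    nlinarith
  have e1 : c0 / 4 * √R / Real.log (2 + R) = c0 / 4 * X := by rw [hX]; ring
  have e2 : c0 * √R / Real.log (2 + R) = c0 * X := by rw [hX]; ring
  rw [e1, e2]
  have hX0 : 0 < X := lt_of_lt_of_le (by positivity) hX1
  have h1 : 1 ≤ Real.exp (c0 / 4 * X) := Real.one_le_exp (by positivity)
  have h2 : R * (R ^ 2 + Real.exp (c0 / 4 * X)) ≤ 2 * R ^ 3 * Real.exp (c0 / 4 * X) := by
    have h3 : R ^ 2 + Real.exp (c0 / 4 * X) ≤ 2 * R ^ 2 * Real.exp (c0 / 4 * X) := by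
      have h4 : R ^ 2 ≤ R ^ 2 * Real.exp (c0 / 4 * X) := le_mul_of_one_le_right (by positivity) h1
      have h5 : Real.exp (c0 / 4 * X) ≤ R ^ 2 * Real.exp (c0 / 4 * X) :=
        le_mul_of_one_le_left (by positivity) (by nlinarith)
      linarith
    calc R * (R ^ 2 + Real.exp (c0 / 4 * X)) ≤ R * (2 * R ^ 2 * Real.exp (c0 / 4 * X)) :=
          mul_le_mul_of_nonneg_left h3 hR0.le
      _ = 2 * R ^ 3 * Real.exp (c0 / 4 * X) := by ring
  have h3 : (R * (R ^ 2 + Real.exp (c0 / 4 * X))) ^ 2 ≤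
      4 * R ^ 6 * Real.exp (c0 / 2 * X) := by
    calc (R * (R ^ 2 + Real.exp (c0 / 4 * X))) ^ 2 ≤ (2 * R ^ 3 * Real.exp (c0 / 4 * X)) ^ 2 :=
          pow_le_pow_left₀ (by positivity) h2 2
      _ = 4 * R ^ 6 * (Real.exp (c0 / 4 * X) * Real.exp (c0 / 4 * X)) := by ring
      _ = 4 * R ^ 6 * Real.exp (c0 / 2 * X) := by
          rw [← Real.exp_add]
          congr 2
          ring
  have h4 : 4 * R ^ 6 ≤ Real.exp (c0 / 2 * X) := by
    have h5 : c0 / 16 * r ≤ c0 / 2 * X := by nlinarith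
    have h6 := Real.pow_div_factorial_le_exp (c0 / 16 * r) (by positivity) 28
    have h7 : 4 * R ^ 6 ≤ (c0 / 16 * r) ^ 28 / ((Nat.factorial 28 : ℕ) : ℝ) := by
      rw [le_div_iff₀ (by positivity)]
      have h8 : (c0 / 16 * r) ^ 28 = (c0 / 16) ^ 28 * (R ^ 6 * R) := by
        rw [mul_pow]
        congr 1
        rw [← hr4]
        ring
      rw [h8]
      have h9 : 4 * ((Nat.factorial 28 : ℕ) : ℝ) ≤ R * (c0 / 16) ^ 28 := by
        rw [← div_le_iff₀ (by positivity)]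
        exact hRB
      calc 4 * R ^ 6 * ((Nat.factorial 28 : ℕ) : ℝ) = R ^ 6 * (4 * ((Nat.factorial 28 : ℕ) : ℝ)) := by
            ring
        _ ≤ R ^ 6 * (R * (c0 / 16) ^ 28) := mul_le_mul_of_nonneg_left h9 (by positivity)
        _ = (c0 / 16) ^ 28 * (R ^ 6 * R) := by ring
    exact h7.trans (h6.trans (Real.exp_le_exp.2 h5))
  have h5 : 4 * R ^ 6 * Real.exp (c0 / 2 * X) ≤ Real.exp (c0 * X) := by
    calc 4 * R ^ 6 * Real.exp (c0 / 2 * X) ≤ Real.exp (c0 / 2 * X) * Real.exp (c0 / 2 * X) :=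
          mul_le_mul_of_nonneg_right h4 (Real.exp_nonneg _)
      _ = Real.exp (c0 * X) := by
          rw [← Real.exp_add]
          congr 1
          ring
  have h6 := sq_nonneg R
  linarith

/-- number of rows sharing a column with a row, when the nonzero entries are not too small -/
theorem card_share {n m : ℕ} (V : Fin n → Fin m → ℝ) (R N : ℝ) (hR : 0 ≤ R) (hN : 0 < N)
    (hrow : ∀ i, ∑ j, |V i j| ≤ R) (hcol : ∀ j, ∑ i, |V i j| ≤ R)
    (hent : ∀ i j, V i j ≠ 0 → 1 / N ≤ |V i j|) (i : Fin n) :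
    ((univ.filter (fun i' => ∃ j, V i j ≠ 0 ∧ V i' j ≠ 0)).card : ℝ) ≤ (R * N) ^ 2 := by
  have hsub : univ.filter (fun i' => ∃ j, V i j ≠ 0 ∧ V i' j ≠ 0) ⊆
      (univ.filter (fun j => V i j ≠ 0)).biUnion
        (fun j => univ.filter (fun i' => V i' j ≠ 0)) := by
    intro i' hi'
    rw [Finset.mem_filter] at hi'
    obtain ⟨-, j, h1, h2⟩ := hi'
    rw [Finset.mem_biUnion]
    exact ⟨j, Finset.mem_filter.2 ⟨Finset.mem_univ _, h1⟩,
      Finset.mem_filter.2 ⟨Finset.mem_univ _, h2⟩⟩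
  have h1 : ((univ.filter (fun i' => ∃ j, V i j ≠ 0 ∧ V i' j ≠ 0)).card : ℝ) ≤
      ∑ j ∈ univ.filter (fun j => V i j ≠ 0),
        ((univ.filter (fun i' => V i' j ≠ 0)).card : ℝ) := by
    have h2 := (Finset.card_le_card hsub).trans Finset.card_biUnion_le
    exact_mod_cast h2
  have h2 : ∀ j, ((univ.filter (fun i' => V i' j ≠ 0)).card : ℝ) ≤ R * N := by
    intro j
    have h3 : ((univ.filter (fun i' => V i' j ≠ 0)).card : ℝ) * (1 / N) ≤ R := by
      rw [← nsmul_eq_mul]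
      refine (Finset.card_nsmul_le_sum _ (fun i' => |V i' j|) _
        fun i' hi' => hent i' j (Finset.mem_filter.1 hi').2).trans ?_
      exact (Finset.sum_le_sum_of_subset_of_nonneg (Finset.filter_subset _ _)
        fun _ _ _ => abs_nonneg _).trans (hcol j)
    rw [mul_one_div, div_le_iff₀ hN] at h3
    exact h3
  have h3 : ((univ.filter (fun j => V i j ≠ 0)).card : ℝ) ≤ R * N := by
    have h3 : ((univ.filter (fun j => V i j ≠ 0)).card : ℝ) * (1 / N) ≤ R := by
      rw [← nsmul_eq_mul]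
      refine (Finset.card_nsmul_le_sum _ (fun j => |V i j|) _
        fun j hj => hent i j (Finset.mem_filter.1 hj).2).trans ?_
      exact (Finset.sum_le_sum_of_subset_of_nonneg (Finset.filter_subset _ _)
        fun _ _ _ => abs_nonneg _).trans (hrow i)
    rw [mul_one_div, div_le_iff₀ hN] at h3
    exact h3
  refine h1.trans ((Finset.sum_le_sum fun j _ => h2 j).trans ?_)
  rw [Finset.sum_const, nsmul_eq_mul, sq]
  exact mul_le_mul_of_nonneg_right h3 (by positivity)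

theorem main2 : ∃ C c : ℝ, 0 < C ∧ 0 < c ∧
    ∀ (n m : ℕ) (V : Fin n → Fin m → ℝ) (R Δ N : ℝ), Δ ≤ R →
    (∀ i j, |V i j| ≤ 1) → (∀ i, ∑ j, |V i j| ≤ R) → (∀ j, ∑ i, |V i j| ≤ Δ) →
    N = R ^ 2 + Real.exp (c * √R / Real.log (2 + R)) →
    ((n : ℝ) ≤ N ∨ (m : ℝ) ≤ N ∨ (∀ i j, V i j ≠ 0 → 1 / N ≤ |V i j|) ∨
      (∀ i, ((univ.filter (fun i' => ∃ j, V i j ≠ 0 ∧ V i' j ≠ 0)).card : ℝ) ≤ N)) →
    ∃ y : Fin m → ℝ, (∀ j, y j = 1 ∨ y j = -1) ∧ ∀ i, |∑ j, V i j * y j| ≤ C * √R := by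
  obtain ⟨C₀, c₀, hC₀, hc₀, hmain⟩ := main
  obtain ⟨R₁, hR₁, hgr⟩ := growth c₀ hc₀
  refine ⟨C₀ + 1 + √R₁, c₀ / 4, by positivity, by positivity, ?_⟩
  intro n m V R Δ N hΔ hV hrow hcol hN hcase
  rcases le_total R₁ R with h | h
  · have hR1 : 1 ≤ R := hR₁.trans h
    have hR0 : 0 ≤ R := by linarith
    have hsq : 1 ≤ √R := Real.one_le_sqrt.2 hR1
    have hN1 : 1 ≤ N := by
      rw [hN]
      have := Real.exp_pos (c₀ / 4 * √R / Real.log (2 + R))
      nlinarith
    have hN0 : 0 < N := by linarith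
    have hbig : (R * N) ^ 2 ≤ R ^ 2 + Real.exp (c₀ * √R / Real.log (2 + R)) := by
      rw [hN]
      exact hgr R h
    have hNN : N ≤ (R * N) ^ 2 := by
      have h1 : N ≤ R * N := le_mul_of_one_le_left hN0.le hR1
      have h2 : 1 ≤ R * N := hN1.trans h1
      nlinarith
    have hcolR : ∀ j, ∑ i, |V i j| ≤ R := fun j => (hcol j).trans hΔ
    have hfin : ∀ W : Fin n → Fin m → ℝ, (∀ i j, |W i j| ≤ 1) → (∀ i, ∑ j, |W i j| ≤ R) →
        (∀ j, ∑ i, |W i j| ≤ R) →
        (∀ i, ((univ.filter (fun i' => ∃ j, W i j ≠ 0 ∧ W i' j ≠ 0)).card : ℝ) ≤ (R * N) ^ 2) →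
        ∃ y : Fin m → ℝ, (∀ j, y j = 1 ∨ y j = -1) ∧ ∀ i, |∑ j, W i j * y j| ≤ C₀ * √R := by
      intro W h1 h2 h3 h4
      exact hmain n m W R R le_rfl h1 h2 h3 fun i => (h4 i).trans hbig
    have hup : ∀ z : ℝ, z ≤ C₀ * √R → z ≤ (C₀ + 1 + √R₁) * √R := by
      intro z hz
      refine hz.trans ?_
      have h5 := Real.sqrt_nonneg R₁
      have h6 := Real.sqrt_nonneg R
      nlinarith
    rcases hcase with hc | hc | hc | hc
    · obtain ⟨y, hy1, hy2⟩ := hfin V hV hrow hcolR (fun i => by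
        refine le_trans ?_ hNN
        refine le_trans ?_ hc
        have h5 := Finset.card_le_univ (univ.filter (fun i' => ∃ j, V i j ≠ 0 ∧ V i' j ≠ 0))
        rw [Fintype.card_fin] at h5
        exact_mod_cast h5)
      exact ⟨y, hy1, fun i => hup _ (hy2 i)⟩
    · -- remove the small entries
      let W : Fin n → Fin m → ℝ := fun i j => if 1 / N ≤ |V i j| then V i j else 0
      have hWV : ∀ i j, |W i j| ≤ |V i j| := by
        intro i j
        simp only [W]
        split_ifs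
        · exact le_rfl
        · rw [abs_zero]; exact abs_nonneg _
      have hWr : ∀ i, ∑ j, |W i j| ≤ R := fun i =>
        (Finset.sum_le_sum fun j _ => hWV i j).trans (hrow i)
      have hWc : ∀ j, ∑ i, |W i j| ≤ R := fun j =>
        (Finset.sum_le_sum fun i _ => hWV i j).trans (hcolR j)
      obtain ⟨y, hy1, hy2⟩ := hfin W (fun i j => (hWV i j).trans (hV i j)) hWr hWc
        (card_share W R N hR0 hN0 hWr hWc (fun i j hj => by
          simp only [W] at hj ⊢
          split_ifs at hj ⊢ with h5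
          · exact h5
          · exact absurd rfl hj))
      refine ⟨y, hy1, fun i => ?_⟩
      have hd : |∑ j, V i j * y j - ∑ j, W i j * y j| ≤ 1 := by
        rw [← Finset.sum_sub_distrib]
        refine (Finset.abs_sum_le_sum_abs _ _).trans ?_
        have h6 : ∀ j ∈ (univ : Finset (Fin m)), |V i j * y j - W i j * y j| ≤ 1 / N := by
          intro j _
          rw [← sub_mul, abs_mul]
          have h7 : |y j| = 1 := by rcases hy1 j with h7 | h7 <;> rw [h7] <;> simp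
          rw [h7, mul_one]
          simp only [W]
          split_ifs with h8
          · rw [sub_self, abs_zero]; positivity
          · rw [sub_zero]; exact (not_le.1 h8).le
        refine (Finset.sum_le_card_nsmul _ _ _ h6).trans ?_
        rw [Finset.card_univ, Fintype.card_fin, nsmul_eq_mul, mul_one_div, div_le_one hN0]
        exact hc
      have h9 : |∑ j, V i j * y j| ≤ |∑ j, V i j * y j - ∑ j, W i j * y j| +
          |∑ j, W i j * y j| := by
        have := abs_add_le (∑ j, V i j * y j - ∑ j, W i j * y j) (∑ j, W i j * y j)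
        rwa [sub_add_cancel] at this
      have h10 := hy2 i
      have h11 := Real.sqrt_nonneg R₁
      nlinarith
    · obtain ⟨y, hy1, hy2⟩ := hfin V hV hrow hcolR
        (card_share V R N hR0 hN0 hrow hcolR hc)
      exact ⟨y, hy1, fun i => hup _ (hy2 i)⟩
    · obtain ⟨y, hy1, hy2⟩ := hfin V hV hrow hcolR (fun i => (hc i).trans hNN)
      exact ⟨y, hy1, fun i => hup _ (hy2 i)⟩
  · refine ⟨fun _ => 1, fun _ => Or.inl rfl, fun i => ?_⟩
    have h0 : 0 ≤ R := le_trans (Finset.sum_nonneg fun j _ => abs_nonneg _) (hrow i)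
    have h1 : |∑ j, V i j * 1| ≤ R := by
      refine (Finset.abs_sum_le_sum_abs _ _).trans ?_
      simpa using hrow i
    refine h1.trans ?_
    have h2 : √R ≤ √R₁ := Real.sqrt_le_sqrt h
    calc R = √R * √R := (Real.mul_self_sqrt h0).symm
      _ ≤ √R₁ * √R := mul_le_mul_of_nonneg_right h2 (Real.sqrt_nonneg R)
      _ ≤ (C₀ + 1 + √R₁) * √R := mul_le_mul_of_nonneg_right (by linarith) (Real.sqrt_nonneg R)

end Pool.Agent.SVM
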