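import Pool.Agent.SVM.Base

set_option autoImplicit false

/-!
# [SVM-OD1] one-dimensional uncertainty inequality

For `f ∈ C²` with compact support, integration by parts gives
`α ∫ f² = - 2 ∫ (α u + b) f f'` and `∫ f'² = - ∫ f f''`, so `∫ f'² = ½ ∫ (f'² - f f'')`.
AM-GM: `2 |(α u + b) f f'| ≤ ε⁻¹ (α u + b)² f² + ε f'²`.
-/

namespace Pool.Agent.SVM

open MeasureTheory Finset

theorem unc (f : ℝ → ℝ) (hf : ContDiff ℝ 2 f) (hc : HasCompactSupport f) (α b ε : ℝ)
    (hε : 0 < ε) :
    |α| * ∫ u, f u ^ 2 ≤ ε⁻¹ * (∫ u, (α * u + b) ^ 2 * f u ^ 2) +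
      ε / 2 * ∫ u, (deriv f u ^ 2 - f u * deriv (deriv f) u) := by
  have hf1 : ContDiff ℝ 1 (deriv f) := by
    have h11 : ContDiff ℝ (1 + 1) f := by
      have : ((1 : WithTop ℕ∞) + 1) = 2 := by norm_num
      rw [this]; exact hf
    exact (contDiff_succ_iff_deriv.1 h11).2.2
  have hd : Differentiable ℝ f := hf.differentiable (by norm_num)
  have hd1 : Differentiable ℝ (deriv f) := hf1.differentiable (by norm_num)
  have hcf : Continuous f := hf.continuous
  have hcf1 : Continuous (deriv f) := hf1.continuous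
  have hcf2 : Continuous (deriv (deriv f)) := hf1.continuous_deriv (by norm_num)
  have hc1 : HasCompactSupport (deriv f) := hc.deriv
  have hc2 : HasCompactSupport (deriv (deriv f)) := hc1.deriv
  have hD : ∀ u, HasDerivAt f (deriv f u) u := fun u => (hd u).hasDerivAt
  have hD1 : ∀ u, HasDerivAt (deriv f) (deriv (deriv f) u) u := fun u => (hd1 u).hasDerivAt
  -- integrability
  have int_of : ∀ g : ℝ → ℝ, Continuous g → (∀ u, f u = 0 → g u = 0) → Integrable g := by
    intro g hg hz
    refine hg.integrable_of_hasCompactSupport (hc.mono ?_)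
    intro u hu h0
    exact hu (hz u h0)
  have int_of1 : ∀ g : ℝ → ℝ, Continuous g → (∀ u, deriv f u = 0 → g u = 0) → Integrable g := by
    intro g hg hz
    refine hg.integrable_of_hasCompactSupport (hc1.mono ?_)
    intro u hu h0
    exact hu (hz u h0)
  have I1 : Integrable (fun u => f u ^ 2) := int_of _ (by fun_prop) (by intro u hu; simp [hu])
  have I2 : Integrable (fun u => (α * u + b) ^ 2 * f u ^ 2) :=
    int_of _ (by fun_prop) (by intro u hu; simp [hu])
  have I3 : Integrable (fun u => deriv f u ^ 2) := int_of1 _ (by fun_prop) (by intro u hu; simp [hu])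
  have I4 : Integrable (fun u => f u * deriv (deriv f) u) :=
    int_of _ (by fun_prop) (by intro u hu; simp [hu])
  have I5 : Integrable (fun u => (α * u + b) * (f u * deriv f u)) :=
    int_of _ (by fun_prop) (by intro u hu; simp [hu])
  have I6 : Integrable (fun u => f u * deriv f u) :=
    int_of _ (by fun_prop) (by intro u hu; simp [hu])
  have I7 : Integrable (fun u => (α * u + b) * f u ^ 2) :=
    int_of _ (by fun_prop) (by intro u hu; simp [hu])
  -- first integration by parts
  have E1 : ∫ u, (α * f u ^ 2 + 2 * ((α * u + b) * (f u * deriv f u))) = 0 := by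
    refine integral_eq_zero_of_hasDerivAt_of_integrable (f := fun u => (α * u + b) * f u ^ 2)
      ?_ ?_ I7
    · intro u
      have h1 : HasDerivAt (fun u : ℝ => α * u + b) α u := by
        simpa using ((hasDerivAt_id u).const_mul α).add_const b
      have h2 : HasDerivAt (fun u : ℝ => f u ^ 2) (2 * f u * deriv f u) u := by
        have := (hD u).fun_pow 2
        simpa using this
      refine (h1.mul h2).congr_deriv ?_
      ring
    · exact (I1.const_mul α).add (I5.const_mul 2)
  have E2 : ∫ u, (deriv f u ^ 2 + f u * deriv (deriv f) u) = 0 := by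
    refine integral_eq_zero_of_hasDerivAt_of_integrable (f := fun u => f u * deriv f u)
      ?_ (I3.add I4) I6
    intro u
    refine ((hD u).mul (hD1 u)).congr_deriv ?_
    ring
  rw [integral_add (I1.const_mul α) (I5.const_mul 2), integral_const_mul, integral_const_mul] at E1
  rw [integral_add I3 I4] at E2
  have E3 : ε / 2 * ∫ u, (deriv f u ^ 2 - f u * deriv (deriv f) u) = ε * ∫ u, deriv f u ^ 2 := by
    rw [integral_sub I3 I4]
    have : (∫ u, f u * deriv (deriv f) u) = - ∫ u, deriv f u ^ 2 := by linarith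
    rw [this]; ring
  rw [E3]
  have hnn : 0 ≤ ∫ u, f u ^ 2 := integral_nonneg fun u => sq_nonneg _
  have E4 : |α| * ∫ u, f u ^ 2 = |2 * ∫ u, (α * u + b) * (f u * deriv f u)| := by
    have : 2 * ∫ u, (α * u + b) * (f u * deriv f u) = - (α * ∫ u, f u ^ 2) := by linarith
    rw [this, abs_neg, abs_mul, abs_of_nonneg hnn]
  rw [E4, ← integral_const_mul, ← integral_const_mul, ← integral_const_mul,
    ← integral_add (I2.const_mul _) (I3.const_mul _)]
  refine (abs_integral_le_integral_abs).trans ?_
  refine integral_mono ((I5.const_mul 2).abs) ((I2.const_mul _).add (I3.const_mul _)) ?_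
  intro u
  simp only
  set A := (α * u + b) * f u with hA
  set B := deriv f u with hB
  have h1 : 2 * ((α * u + b) * (f u * B)) = 2 * (A * B) := by rw [hA]; ring
  have h2 : (α * u + b) ^ 2 * f u ^ 2 = A ^ 2 := by rw [hA]; ring
  rw [h1, h2]
  have h3 : 0 ≤ ε⁻¹ * (A - ε * B) ^ 2 := by positivity
  have h4 : 0 ≤ ε⁻¹ * (A + ε * B) ^ 2 := by positivity
  have e3 : ε⁻¹ * (A - ε * B) ^ 2 = ε⁻¹ * A ^ 2 - 2 * (A * B) + ε * B ^ 2 := by
    field_simp; ring
  have e4 : ε⁻¹ * (A + ε * B) ^ 2 = ε⁻¹ * A ^ 2 + 2 * (A * B) + ε * B ^ 2 := by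
    field_simp; ring
  rw [abs_le]
  constructor <;> linarith

end Pool.Agent.SVM
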