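import Pool.Agent.SVM.BumpC2
import Pool.Agent.SVM.Unc
import Pool.Agent.SVM.LamProd

set_option autoImplicit false

/-!
# [SVM-OD3] the one-dimensional inequality

Apply `unc` to `f u = (∏_{a∈S} bump (p a u + r a)) * exp (-(c₂u²+c₁u+c₀)/2)` (compact support because of
`hbox` and `bump_eq_zero`); compute `f'² - f f''` with `lam_mul` and `lam_prod`;
for the exponential `g = exp (-(c₂u²+c₁u+c₀)/2)` one has `g'² - g g'' = c₂ g²`; for
`u ↦ bump (p u + r)` the quantity is `p²` times that of `bump` at `p u + r`; use `bump_lam_le`.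
The integrals on the right exist: everything is continuous or measurable and bounded by
`const * exp (-(c₂u²+c₁u+c₀))`, integrable as `c₂ > 0`.
-/

namespace Pool.Agent.SVM

open MeasureTheory Finset

theorem od_gauss (c2 c1 c0 : ℝ) (hc2 : 0 < c2) :
    Integrable (fun u : ℝ => Real.exp (-(c2 * u ^ 2 + c1 * u + c0))) := by
  have h := (integrable_exp_neg_mul_sq hc2).comp_add_right (c1 / (2 * c2))
  have h2 := h.const_mul (Real.exp (-(c0 - c1 ^ 2 / (4 * c2))))
  refine h2.congr (ae_of_all _ fun u => ?_)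
  simp only
  rw [← Real.exp_add]
  congr 1
  field_simp
  ring

theorem od_exp (c2 c1 c0 u : ℝ) :
    deriv (fun t : ℝ => Real.exp (-(c2 * t ^ 2 + c1 * t + c0) / 2)) u ^ 2 -
      Real.exp (-(c2 * u ^ 2 + c1 * u + c0) / 2) *
        deriv (deriv (fun t : ℝ => Real.exp (-(c2 * t ^ 2 + c1 * t + c0) / 2))) u =
      c2 * Real.exp (-(c2 * u ^ 2 + c1 * u + c0) / 2) ^ 2 := by
  have hq : ∀ t : ℝ, HasDerivAt (fun t : ℝ => -(c2 * t ^ 2 + c1 * t + c0) / 2)
      (-(2 * c2 * t + c1) / 2) t := by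
    intro t
    have h1 : HasDerivAt (fun t : ℝ => c2 * t ^ 2 + c1 * t + c0) (2 * c2 * t + c1) t := by
      have h2 := (((hasDerivAt_pow 2 t).const_mul c2).add ((hasDerivAt_id t).const_mul c1)).add_const
        c0
      refine HasDerivAt.congr_deriv h2 ?_
      push_cast
      ring
    exact h1.neg.div_const 2
  have h1 : ∀ t : ℝ, HasDerivAt (fun t : ℝ => Real.exp (-(c2 * t ^ 2 + c1 * t + c0) / 2))
      (Real.exp (-(c2 * t ^ 2 + c1 * t + c0) / 2) * (-(2 * c2 * t + c1) / 2)) t :=
    fun t => (hq t).exp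
  have hd : deriv (fun t : ℝ => Real.exp (-(c2 * t ^ 2 + c1 * t + c0) / 2)) =
      fun t => Real.exp (-(c2 * t ^ 2 + c1 * t + c0) / 2) * (-(2 * c2 * t + c1) / 2) :=
    funext fun t => (h1 t).deriv
  have hl : HasDerivAt (fun t : ℝ => -(2 * c2 * t + c1) / 2) (-c2) u := by
    have h2 := ((((hasDerivAt_id u).const_mul (2 * c2)).add_const c1).neg).div_const 2
    refine HasDerivAt.congr_deriv h2 ?_
    ring
  have h3 := ((h1 u).mul hl).deriv
  rw [hd]
  have h4 : deriv (fun t => Real.exp (-(c2 * t ^ 2 + c1 * t + c0) / 2) *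
      (-(2 * c2 * t + c1) / 2)) u = Real.exp (-(c2 * u ^ 2 + c1 * u + c0) / 2) *
        (-(2 * c2 * u + c1) / 2) * (-(2 * c2 * u + c1) / 2) +
        Real.exp (-(c2 * u ^ 2 + c1 * u + c0) / 2) * -c2 := h3
  rw [h4]
  ring

theorem od_bump (p r u : ℝ) :
    deriv (fun t : ℝ => bump (p * t + r)) u ^ 2 -
      bump (p * u + r) * deriv (deriv (fun t : ℝ => bump (p * t + r))) u =
      p ^ 2 * (deriv bump (p * u + r) ^ 2 -
        bump (p * u + r) * deriv (deriv bump) (p * u + r)) := by
  have hl : ∀ t : ℝ, HasDerivAt (fun t : ℝ => p * t + r) p t := by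
    intro t
    have h := ((hasDerivAt_id t).const_mul p).add_const r
    refine HasDerivAt.congr_deriv h ?_
    ring
  have hb : Differentiable ℝ bump := bump_contDiff.differentiable (by norm_num)
  have hb2 : Differentiable ℝ (deriv bump) := bump_contDiff.differentiable_deriv_two
  have h1 : ∀ t : ℝ, HasDerivAt (fun t : ℝ => bump (p * t + r)) (deriv bump (p * t + r) * p) t :=
    fun t => (HasDerivAt.comp (h₂ := bump) (h := fun t : ℝ => p * t + r) t
      (hb (p * t + r)).hasDerivAt (hl t) :)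
  have hd : deriv (fun t : ℝ => bump (p * t + r)) = fun t => deriv bump (p * t + r) * p :=
    funext fun t => (h1 t).deriv
  have h2 : HasDerivAt (fun t : ℝ => deriv bump (p * t + r) * p)
      (deriv (deriv bump) (p * u + r) * p * p) u :=
    (HasDerivAt.comp (h₂ := deriv bump) (h := fun t : ℝ => p * t + r) u
      (hb2 (p * u + r)).hasDerivAt (hl u)).mul_const p
  rw [hd, h2.deriv]
  ring

theorem one_dim {A : Type*} [DecidableEq A] (S : Finset A) (p r : A → ℝ)
    (hbox : ∃ a ∈ S, p a ≠ 0) (c2 c1 c0 : ℝ) (hc2 : 0 < c2) (α b ε : ℝ) (hε : 0 < ε) :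
    |α| * ∫ u : ℝ, (∏ a ∈ S, bump (p a * u + r a) ^ 2) *
        Real.exp (-(c2 * u ^ 2 + c1 * u + c0)) ≤
      ε⁻¹ * (∫ u : ℝ, (α * u + b) ^ 2 * ((∏ a ∈ S, bump (p a * u + r a) ^ 2) *
        Real.exp (-(c2 * u ^ 2 + c1 * u + c0)))) +
      ε / 2 * (c2 * (∫ u : ℝ, (∏ a ∈ S, bump (p a * u + r a) ^ 2) *
          Real.exp (-(c2 * u ^ 2 + c1 * u + c0))) +
        108 * ∑ a ∈ S, p a ^ 2 * ∫ u in {u : ℝ | 1 / 2 ≤ |p a * u + r a|},
          (∏ a' ∈ S.erase a, bump (p a' * u + r a') ^ 2) *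
            Real.exp (-(c2 * u ^ 2 + c1 * u + c0))) := by
  set B : ℝ → ℝ := fun u => ∏ a ∈ S, bump (p a * u + r a) with hB
  set g : ℝ → ℝ := fun u => Real.exp (-(c2 * u ^ 2 + c1 * u + c0) / 2) with hg
  set f : ℝ → ℝ := fun u => B u * g u with hf
  have hg2 : ∀ u, g u ^ 2 = Real.exp (-(c2 * u ^ 2 + c1 * u + c0)) := by
    intro u
    rw [hg, sq, ← Real.exp_add]
    congr 1
    ring
  have hB2 : ∀ u, B u ^ 2 = ∏ a ∈ S, bump (p a * u + r a) ^ 2 := by
    intro u
    rw [hB, Finset.prod_pow]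
  have hf2 : ∀ u, f u ^ 2 = (∏ a ∈ S, bump (p a * u + r a) ^ 2) *
      Real.exp (-(c2 * u ^ 2 + c1 * u + c0)) := by
    intro u
    rw [← hB2, ← hg2, hf]
    ring
  have hbc : ∀ a, ContDiff ℝ 2 (fun u : ℝ => bump (p a * u + r a)) := fun a =>
    bump_contDiff.comp ((contDiff_const.mul contDiff_id).add contDiff_const)
  have hBc : ContDiff ℝ 2 B := contDiff_prod fun a _ => hbc a
  have hgc : ContDiff ℝ 2 g := by
    refine Real.contDiff_exp.comp ?_
    fun_prop
  have hfc : ContDiff ℝ 2 f := hBc.mul hgc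
  have hsupp : HasCompactSupport f := by
    obtain ⟨a, ha, hpa⟩ := hbox
    have hpa' : 0 < |p a| := abs_pos.2 hpa
    refine HasCompactSupport.intro (K := Set.Icc (-((1 + |r a|) / |p a|)) ((1 + |r a|) / |p a|))
      isCompact_Icc fun u hu => ?_
    have h1 : (1 + |r a|) / |p a| < |u| := by
      by_contra hcon
      push Not at hcon
      exact hu (abs_le.1 hcon)
    have h2 : 1 ≤ |p a * u + r a| := by
      rw [div_lt_iff₀ hpa'] at h1
      have h3 : |p a * u| ≤ |p a * u + r a| + |r a| := by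
        have := abs_sub (p a * u + r a) (r a)
        rwa [add_sub_cancel_right] at this
      rw [abs_mul] at h3
      nlinarith
    have h3 : B u = 0 := Finset.prod_eq_zero ha (bump_eq_zero _ h2)
    rw [hf]
    simp only [h3, zero_mul]
  have hunc := unc f hfc hsupp α b ε hε
  simp only [hf2] at hunc
  refine hunc.trans (add_le_add le_rfl (mul_le_mul_of_nonneg_left ?_ (by positivity)))
  -- the main estimate
  have hmeas : ∀ a, MeasurableSet {u : ℝ | 1 / 2 ≤ |p a * u + r a|} := by
    intro a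
    refine (isClosed_le continuous_const ?_).measurableSet
    fun_prop
  have hcont : ∀ a, Continuous fun u : ℝ => (∏ a' ∈ S.erase a, bump (p a' * u + r a') ^ 2) *
      Real.exp (-(c2 * u ^ 2 + c1 * u + c0)) := by
    intro a
    refine (continuous_finsetProd _ fun a' _ => (hbc a').continuous.pow 2).mul ?_
    fun_prop
  have hint : ∀ a, Integrable fun u : ℝ => (∏ a' ∈ S.erase a, bump (p a' * u + r a') ^ 2) *
      Real.exp (-(c2 * u ^ 2 + c1 * u + c0)) := by
    intro a
    refine (od_gauss c2 c1 c0 hc2).mono (hcont a).aestronglyMeasurable (ae_of_all _ fun u => ?_)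
    rw [Real.norm_eq_abs, Real.norm_eq_abs, abs_mul]
    refine mul_le_of_le_one_left (abs_nonneg _) ?_
    rw [Finset.abs_prod]
    refine Finset.prod_le_one (fun _ _ => abs_nonneg _) fun a' _ => ?_
    rw [abs_pow, abs_of_nonneg (bump_nonneg _)]
    exact pow_le_one₀ (bump_nonneg _) (bump_le_one _)
  have hf2i : Integrable fun u : ℝ => (∏ a ∈ S, bump (p a * u + r a) ^ 2) *
      Real.exp (-(c2 * u ^ 2 + c1 * u + c0)) := by
    have h1 : Integrable fun u => f u ^ 2 :=
      (hfc.continuous.pow 2).integrable_of_hasCompactSupport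
        (by
          have := hsupp.comp_left (g := fun x : ℝ => x ^ 2) (by norm_num)
          exact this)
    exact h1.congr (ae_of_all _ fun u => hf2 u)
  have hlhs : Integrable fun u => deriv f u ^ 2 - f u * deriv (deriv f) u := by
    have hc1 : Continuous (deriv f) := hfc.continuous_deriv (by norm_num)
    have hfc1 : ContDiff ℝ 1 (deriv f) := by
      have h2 : ContDiff ℝ (1 + 1) f := by
        norm_num
        exact hfc
      exact (contDiff_succ_iff_deriv.1 h2).2.2
    have hc2' : Continuous (deriv (deriv f)) := hfc1.continuous_deriv (by norm_num)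
    refine Continuous.integrable_of_hasCompactSupport ((hc1.pow 2).sub (hfc.continuous.mul hc2')) ?_
    have h1 : HasCompactSupport fun u => deriv f u ^ 2 := by
      have := hsupp.deriv.comp_left (g := fun x : ℝ => x ^ 2) (by norm_num)
      exact this
    have h2 : HasCompactSupport fun u => f u * deriv (deriv f) u := hsupp.mul_right
    exact h1.sub h2
  have hpt : ∀ u, deriv f u ^ 2 - f u * deriv (deriv f) u ≤
      c2 * ((∏ a ∈ S, bump (p a * u + r a) ^ 2) * Real.exp (-(c2 * u ^ 2 + c1 * u + c0))) +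
      108 * ∑ a ∈ S, p a ^ 2 * ({u : ℝ | 1 / 2 ≤ |p a * u + r a|}.indicator
        (fun u => (∏ a' ∈ S.erase a, bump (p a' * u + r a') ^ 2) *
          Real.exp (-(c2 * u ^ 2 + c1 * u + c0))) u) := by
    intro u
    have h1 := lam_mul B g hBc hgc u
    have h2 := lam_prod S (fun a u => bump (p a * u + r a)) (fun a _ => hbc a) u
    have h3 : deriv f u ^ 2 - f u * deriv (deriv f) u =
      (deriv B u ^ 2 - B u * deriv (deriv B) u) * g u ^ 2 +
        B u ^ 2 * (deriv g u ^ 2 - g u * deriv (deriv g) u) := h1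
    have h4 : deriv g u ^ 2 - g u * deriv (deriv g) u = c2 * g u ^ 2 := od_exp c2 c1 c0 u
    have h5 : deriv B u ^ 2 - B u * deriv (deriv B) u =
        ∑ a ∈ S, (deriv (fun t : ℝ => bump (p a * t + r a)) u ^ 2 -
          bump (p a * u + r a) * deriv (deriv (fun t : ℝ => bump (p a * t + r a))) u) *
          ∏ a' ∈ S.erase a, bump (p a' * u + r a') ^ 2 := h2
    rw [h3, h4, h5, hB2, hg2, Finset.mul_sum, Finset.sum_mul]
    have h6 : (∏ a ∈ S, bump (p a * u + r a) ^ 2) *
        (c2 * Real.exp (-(c2 * u ^ 2 + c1 * u + c0))) =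
        c2 * ((∏ a ∈ S, bump (p a * u + r a) ^ 2) *
          Real.exp (-(c2 * u ^ 2 + c1 * u + c0))) := by ring
    rw [h6, add_comm]
    refine add_le_add le_rfl (Finset.sum_le_sum fun a _ => ?_)
    rw [od_bump]
    have h7 : 0 ≤ ∏ a' ∈ S.erase a, bump (p a' * u + r a') ^ 2 :=
      Finset.prod_nonneg fun _ _ => sq_nonneg _
    have h8 := bump_lam_le (p a * u + r a)
    have h9 : 0 ≤ (∏ a' ∈ S.erase a, bump (p a' * u + r a') ^ 2) *
      Real.exp (-(c2 * u ^ 2 + c1 * u + c0)) := mul_nonneg h7 (Real.exp_pos _).le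
    have h10 : p a ^ 2 * (deriv bump (p a * u + r a) ^ 2 -
        bump (p a * u + r a) * deriv (deriv bump) (p a * u + r a)) *
        (∏ a' ∈ S.erase a, bump (p a' * u + r a') ^ 2) *
        Real.exp (-(c2 * u ^ 2 + c1 * u + c0)) =
        p a ^ 2 * ((deriv bump (p a * u + r a) ^ 2 -
        bump (p a * u + r a) * deriv (deriv bump) (p a * u + r a)) *
        ((∏ a' ∈ S.erase a, bump (p a' * u + r a') ^ 2) *
        Real.exp (-(c2 * u ^ 2 + c1 * u + c0)))) := by ring
    rw [h10, mul_left_comm (108 : ℝ)]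
    refine mul_le_mul_of_nonneg_left ?_ (sq_nonneg _)
    refine (mul_le_mul_of_nonneg_right h8 h9).trans (le_of_eq ?_)
    by_cases h11 : 1 / 2 ≤ |p a * u + r a|
    · rw [if_pos h11, Set.indicator_of_mem (show u ∈ {u : ℝ | 1 / 2 ≤ |p a * u + r a|} from h11)]
    · rw [if_neg h11, Set.indicator_of_notMem
        (show u ∉ {u : ℝ | 1 / 2 ≤ |p a * u + r a|} from h11), zero_mul, mul_zero]
  have hi2 : ∀ a ∈ S, Integrable fun u => p a ^ 2 * ({u : ℝ | 1 / 2 ≤ |p a * u + r a|}.indicator
        (fun u => (∏ a' ∈ S.erase a, bump (p a' * u + r a') ^ 2) *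
          Real.exp (-(c2 * u ^ 2 + c1 * u + c0))) u) := fun a _ =>
    ((hint a).indicator (hmeas a)).const_mul _
  have hi3 := (integrable_finsetSum S hi2).const_mul 108
  refine (integral_mono hlhs ((hf2i.const_mul c2).add hi3) hpt).trans (le_of_eq ?_)
  rw [integral_add' (hf2i.const_mul c2) hi3, integral_const_mul, integral_const_mul,
    integral_finsetSum S hi2]
  congr 2
  refine Finset.sum_congr rfl fun a _ => ?_
  rw [integral_const_mul, integral_indicator (hmeas a)]

end Pool.Agent.SVM
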