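import Pool.Agent.SVM.Weight
import Pool.Agent.SVM.OneDim
import Pool.Agent.SVM.Fiber

set_option autoImplicit false

/-!
# [SVM-MO] second moment lower bound

Put `W = wt 100 v T b ℓ univ`, `W_a = wt 100 v T b ℓ (univ.erase a)`, `α = w κ`.
For every `x`, `one_dim` (with `p a = v a κ / T a`, `r a = (dot (v a) x - v a κ * x κ) / T a`,
`c2 = 50 + ∑ b u (ℓ u κ)^2`, suitable `c1 c0`, `b = dot w x - w κ * x κ`) applied to
`u ↦ W (update x κ u)` gives that the function
`Ψ = ε⁻¹ (dot w ·)^2 W + (ε/2) (c2 W + 108 ∑_a (v a κ / T a)^2 1_{T a/2 ≤ |dot (v a) ·|} W_a) - |α| W`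
has non-negative fibre integrals, so `0 ≤ ∫ Ψ` by `integral_nonneg_of_fiber`.  By `wt_erase_tail`,
`H2` and `hb1`: `|α| ∫ W ≤ ε⁻¹ ∫ (dot w)^2 W + (ε/2)(51 + 432) ∫ W`.
With `ε = |α|/483` : `∫ (dot w)^2 W ≥ ε (|α| - 241.5 ε) ∫ W = α²/966 ∫ W ≥ (1/3864) ∫ W`.
-/

namespace Pool.Agent.SVM

open MeasureTheory Finset

theorem dot_update {ι : Type*} [Fintype ι] [DecidableEq ι] (v x : ι → ℝ) (κ : ι) (u : ℝ) :
    dot v (Function.update x κ u) = v κ * u + (dot v x - v κ * x κ) := by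
  unfold dot
  rw [← Finset.add_sum_erase _ _ (mem_univ κ), ← Finset.add_sum_erase _ (fun i => v i * x i)
    (mem_univ κ)]
  have : ∑ i ∈ univ.erase κ, v i * Function.update x κ u i = ∑ i ∈ univ.erase κ, v i * x i :=
    Finset.sum_congr rfl fun i hi => by
      rw [Function.update_of_ne (Finset.ne_of_mem_erase hi)]
  rw [this, Function.update_self]
  ring

theorem nsq_update {ι : Type*} [Fintype ι] [DecidableEq ι] (x : ι → ℝ) (κ : ι) (u : ℝ) :
    nsq (Function.update x κ u) = u ^ 2 + (nsq x - x κ ^ 2) := by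
  unfold nsq
  rw [← Finset.add_sum_erase _ _ (mem_univ κ), ← Finset.add_sum_erase _ (fun i => x i ^ 2)
    (mem_univ κ)]
  have : ∑ i ∈ univ.erase κ, Function.update x κ u i ^ 2 = ∑ i ∈ univ.erase κ, x i ^ 2 :=
    Finset.sum_congr rfl fun i hi => by
      rw [Function.update_of_ne (Finset.ne_of_mem_erase hi)]
  rw [this, Function.update_self]
  ring

theorem mo_dom (c2 c1 c0 : ℝ) (hc2 : 0 < c2) (u : ℝ) :
    Real.exp (-(c2 * u ^ 2 + c1 * u + c0)) ≤
      Real.exp (c1 ^ 2 / (2 * c2) - c0) * Real.exp (-(c2 / 2) * u ^ 2) := by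
  rw [← Real.exp_add, Real.exp_le_exp]
  have h : 0 ≤ (c2 * u + c1) ^ 2 / (2 * c2) := by positivity
  have h2 : (c2 * u + c1) ^ 2 / (2 * c2) = c2 / 2 * u ^ 2 + c1 * u + c1 ^ 2 / (2 * c2) := by
    field_simp
    ring
  rw [h2] at h
  linarith

theorem mo_int (c2 c1 c0 : ℝ) (hc2 : 0 < c2) :
    Integrable (fun u : ℝ => Real.exp (-(c2 * u ^ 2 + c1 * u + c0))) := by
  have h := (integrable_exp_neg_mul_sq (half_pos hc2)).const_mul
    (Real.exp (c1 ^ 2 / (2 * c2) - c0))
  refine h.mono' (by fun_prop) (Filter.Eventually.of_forall fun u => ?_)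
  rw [Real.norm_eq_abs, abs_of_pos (Real.exp_pos _)]
  exact mo_dom c2 c1 c0 hc2 u

theorem mo_int2 (c2 c1 c0 : ℝ) (hc2 : 0 < c2) (α β : ℝ) :
    Integrable (fun u : ℝ => (α * u + β) ^ 2 * Real.exp (-(c2 * u ^ 2 + c1 * u + c0))) := by
  have h1 := (integrable_exp_neg_mul_sq (half_pos hc2)).const_mul
    (2 * β ^ 2 * Real.exp (c1 ^ 2 / (2 * c2) - c0))
  have h2 := (integrable_rpow_mul_exp_neg_mul_sq (half_pos hc2) (s := (2 : ℕ))
    (by norm_num)).const_mul (2 * α ^ 2 * Real.exp (c1 ^ 2 / (2 * c2) - c0))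
  simp only [Real.rpow_natCast] at h2
  refine (h1.add h2).mono' (by fun_prop) (Filter.Eventually.of_forall fun u => ?_)
  rw [Real.norm_eq_abs, abs_of_nonneg (by positivity)]
  have h3 := mo_dom c2 c1 c0 hc2 u
  have h4 : (α * u + β) ^ 2 ≤ 2 * β ^ 2 + 2 * α ^ 2 * u ^ 2 := by
    nlinarith [sq_nonneg (α * u - β)]
  simp only [Pi.add_apply]
  calc (α * u + β) ^ 2 * Real.exp (-(c2 * u ^ 2 + c1 * u + c0))
      ≤ (2 * β ^ 2 + 2 * α ^ 2 * u ^ 2) *
        (Real.exp (c1 ^ 2 / (2 * c2) - c0) * Real.exp (-(c2 / 2) * u ^ 2)) := by gcongr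
    _ = _ := by ring

theorem mo_expand {X : Type*} [MeasurableSpace X] {μ : Measure X} (F B G : X → ℝ)
    (hF : Integrable F μ) (hB : Integrable B μ) (hG : Integrable G μ) (a c d e f : ℝ) :
    ∫ x, (a * F x + c * (d * B x + e * G x) - f * B x) ∂μ =
      a * (∫ x, F x ∂μ) + c * (d * (∫ x, B x ∂μ) + e * (∫ x, G x ∂μ)) - f * ∫ x, B x ∂μ := by
  have h1 : Integrable (fun x => d * B x + e * G x) μ := (hB.const_mul d).add (hG.const_mul e)
  have h2 : Integrable (fun x => a * F x + c * (d * B x + e * G x)) μ :=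
    (hF.const_mul a).add (h1.const_mul c)
  rw [integral_sub h2 (hB.const_mul f), integral_add (hF.const_mul a) (h1.const_mul c),
    integral_const_mul, integral_const_mul, integral_add (hB.const_mul d) (hG.const_mul e),
    integral_const_mul, integral_const_mul, integral_const_mul]

theorem second_moment {ι A U : Type*} [Fintype ι] [DecidableEq ι] [Fintype A] [DecidableEq A]
    [Fintype U]
    (v : A → ι → ℝ) (T : A → ℝ) (b : U → ℝ) (ℓ : U → ι → ℝ)
    (hT : ∀ a, 0 < T a) (hb : ∀ u, 0 ≤ b u)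
    (H1 : ∀ a, 16 * nsq (v a) ≤ 100 * T a ^ 2) (κ : ι)
    (hbox : ∃ a, v a κ ≠ 0)
    (H2 : ∑ a, (v a κ / T a) ^ 2 * Real.exp (-(100 * T a ^ 2 / (8 * nsq (v a)))) ≤ 1)
    (hb1 : ∑ u, b u * ℓ u κ ^ 2 ≤ 1)
    (w : ι → ℝ) (hw : 1 / 2 ≤ |w κ|) :
    1 / 4000 * ∫ x, wt 100 v T b ℓ univ x ≤ ∫ x, dot w x ^ 2 * wt 100 v T b ℓ univ x := by
  set c2 : ℝ := 50 + ∑ u, b u * ℓ u κ ^ 2 with hc2def
  have hc2 : 0 < c2 := by
    have : 0 ≤ ∑ u, b u * ℓ u κ ^ 2 :=
      Finset.sum_nonneg fun u _ => mul_nonneg (hb u) (sq_nonneg _)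
    linarith
  have hc2' : c2 ≤ 51 := by linarith
  set α : ℝ := w κ with hα
  have hα0 : 0 < |α| := by linarith
  set ε : ℝ := |α| / 483 with hεdef
  have hε : 0 < ε := by positivity
  set W : (ι → ℝ) → ℝ := wt 100 v T b ℓ univ with hW
  set Wa : A → (ι → ℝ) → ℝ := fun a => wt 100 v T b ℓ (univ.erase a) with hWa
  set S : A → Set (ι → ℝ) := fun a => {x | T a / 2 ≤ |dot (v a) x|} with hS
  have hdotc : ∀ y : ι → ℝ, Continuous (dot y) := fun y => by
    unfold dot; fun_prop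
  have hSm : ∀ a, MeasurableSet (S a) := fun a =>
    (isClosed_le continuous_const (hdotc (v a)).abs).measurableSet
  have hWi : Integrable W := wt_integrable v T b ℓ univ 100 (by norm_num) hb
  have hWai : ∀ a, Integrable (Wa a) := fun a =>
    wt_integrable v T b ℓ (univ.erase a) 100 (by norm_num) hb
  have hWd : Integrable (fun x => dot w x ^ 2 * W x) :=
    wt_dot_integrable v T b ℓ univ 100 (by norm_num) hb w
  have hind : ∀ a, Integrable ((S a).indicator (Wa a)) := fun a => (hWai a).indicator (hSm a)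
  have hsumi : Integrable (fun x => ∑ a, (v a κ / T a) ^ 2 * (S a).indicator (Wa a) x) :=
    integrable_finsetSum _ fun a _ => (hind a).const_mul _
  -- the key inequality from fibres
  have key : 0 ≤ ∫ x, (ε⁻¹ * (dot w x ^ 2 * W x) + ε / 2 * (c2 * W x +
      108 * ∑ a, (v a κ / T a) ^ 2 * (S a).indicator (Wa a) x) - |α| * W x) := by
    refine integral_nonneg_of_fiber κ _ ?_ fun x => ?_
    · exact ((hWd.const_mul _).add (((hWi.const_mul _).add (hsumi.const_mul _)).const_mul _)).sub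
        (hWi.const_mul _)
    -- data of the fibre
    set p : A → ℝ := fun a => v a κ / T a with hp
    set r : A → ℝ := fun a => (dot (v a) x - v a κ * x κ) / T a with hr
    set c1 : ℝ := 2 * ∑ u, b u * (ℓ u κ * (dot (ℓ u) x - ℓ u κ * x κ)) with hc1
    set c0 : ℝ := 50 * (nsq x - x κ ^ 2) + ∑ u, b u * (dot (ℓ u) x - ℓ u κ * x κ) ^ 2 with hc0
    set β : ℝ := dot w x - w κ * x κ with hβ
    have hwt : ∀ (R : Finset A) (u : ℝ), wt 100 v T b ℓ R (Function.update x κ u) =
        (∏ a ∈ R, bump (p a * u + r a) ^ 2) * Real.exp (-(c2 * u ^ 2 + c1 * u + c0)) := by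
      intro R u
      unfold wt
      congr 1
      · refine Finset.prod_congr rfl fun a _ => ?_
        rw [dot_update, hp, hr]
        congr 2
        have := (hT a).ne'
        field_simp
      · congr 1
        rw [nsq_update]
        have h1 : ∑ u', b u' * dot (ℓ u') (Function.update x κ u) ^ 2 =
            (∑ u', b u' * ℓ u' κ ^ 2) * u ^ 2 +
            (2 * ∑ u', b u' * (ℓ u' κ * (dot (ℓ u') x - ℓ u' κ * x κ))) * u +
            ∑ u', b u' * (dot (ℓ u') x - ℓ u' κ * x κ) ^ 2 := by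
          rw [Finset.sum_mul, Finset.mul_sum, Finset.sum_mul, ← Finset.sum_add_distrib,
            ← Finset.sum_add_distrib]
          refine Finset.sum_congr rfl fun u' _ => ?_
          rw [dot_update]; ring
        rw [h1, hc2def, hc1, hc0]
        ring
    have hindu : ∀ a (u : ℝ), (S a).indicator (Wa a) (Function.update x κ u) =
        ({u : ℝ | 1 / 2 ≤ |p a * u + r a|}).indicator (fun u =>
          (∏ a' ∈ univ.erase a, bump (p a' * u + r a') ^ 2) *
            Real.exp (-(c2 * u ^ 2 + c1 * u + c0))) u := by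
      intro a u
      have hiff : Function.update x κ u ∈ S a ↔ u ∈ {u : ℝ | 1 / 2 ≤ |p a * u + r a|} := by
        simp only [hS, Set.mem_ofPred_eq, dot_update, hp, hr]
        have h0 := hT a
        have : v a κ / T a * u + (dot (v a) x - v a κ * x κ) / T a =
            (v a κ * u + (dot (v a) x - v a κ * x κ)) / T a := by ring
        rw [this, abs_div, abs_of_pos h0, le_div_iff₀ h0]
        constructor <;> intro h <;> linarith
      by_cases hmem : Function.update x κ u ∈ S a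
      · rw [Set.indicator_of_mem hmem, Set.indicator_of_mem (hiff.1 hmem)]
        exact hwt _ u
      · rw [Set.indicator_of_notMem hmem, Set.indicator_of_notMem (fun h => hmem (hiff.2 h))]
    -- continuity and bounds of products
    have hPc : ∀ R : Finset A, Continuous (fun u : ℝ => ∏ a ∈ R, bump (p a * u + r a) ^ 2) :=
      fun R => by
        refine continuous_finsetProd _ fun a _ => ?_
        exact (bump_continuous.comp (by fun_prop)).pow 2
    have hP1 : ∀ (R : Finset A) (u : ℝ), ‖∏ a ∈ R, bump (p a * u + r a) ^ 2‖ ≤ 1 := by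
      intro R u
      rw [Real.norm_eq_abs, abs_of_nonneg (Finset.prod_nonneg fun a _ => sq_nonneg _)]
      refine Finset.prod_le_one (fun a _ => sq_nonneg _) fun a _ => ?_
      exact pow_le_one₀ (bump_nonneg _) (bump_le_one _)
    have hBi : ∀ R : Finset A, Integrable (fun u : ℝ => (∏ a ∈ R, bump (p a * u + r a) ^ 2) *
        Real.exp (-(c2 * u ^ 2 + c1 * u + c0))) := fun R =>
      (mo_int c2 c1 c0 hc2).bdd_mul (hPc R).aestronglyMeasurable
        (Filter.Eventually.of_forall (hP1 R))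
    have hAi : Integrable (fun u : ℝ => (α * u + β) ^ 2 *
        ((∏ a ∈ univ, bump (p a * u + r a) ^ 2) *
        Real.exp (-(c2 * u ^ 2 + c1 * u + c0)))) := by
      have := (mo_int2 c2 c1 c0 hc2 α β).bdd_mul (hPc univ).aestronglyMeasurable
        (Filter.Eventually.of_forall (hP1 univ))
      refine this.congr (Filter.Eventually.of_forall fun u => ?_)
      simp only
      ring
    have hmeas : ∀ a, MeasurableSet {u : ℝ | 1 / 2 ≤ |p a * u + r a|} := fun a =>
      (isClosed_le continuous_const (by fun_prop)).measurableSet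
    have hIi : ∀ a, Integrable (({u : ℝ | 1 / 2 ≤ |p a * u + r a|}).indicator (fun u =>
          (∏ a' ∈ univ.erase a, bump (p a' * u + r a') ^ 2) *
            Real.exp (-(c2 * u ^ 2 + c1 * u + c0)))) := fun a =>
      (hBi (univ.erase a)).indicator (hmeas a)
    have hod := one_dim (univ : Finset A) p r (by
      obtain ⟨a, ha⟩ := hbox
      exact ⟨a, mem_univ a, div_ne_zero ha (hT a).ne'⟩) c2 c1 c0 hc2 α β ε hε
    have heq : ∀ u : ℝ, (ε⁻¹ * (dot w (Function.update x κ u) ^ 2 * W (Function.update x κ u)) +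
        ε / 2 * (c2 * W (Function.update x κ u) +
        108 * ∑ a, (v a κ / T a) ^ 2 * (S a).indicator (Wa a) (Function.update x κ u)) -
        |α| * W (Function.update x κ u)) =
        (ε⁻¹ * ((α * u + β) ^ 2 * ((∏ a ∈ univ, bump (p a * u + r a) ^ 2) *
          Real.exp (-(c2 * u ^ 2 + c1 * u + c0)))) +
        ε / 2 * (c2 * ((∏ a ∈ univ, bump (p a * u + r a) ^ 2) *
          Real.exp (-(c2 * u ^ 2 + c1 * u + c0))) +
          108 * ∑ a, p a ^ 2 * ({u : ℝ | 1 / 2 ≤ |p a * u + r a|}).indicator (fun u =>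
          (∏ a' ∈ univ.erase a, bump (p a' * u + r a') ^ 2) *
            Real.exp (-(c2 * u ^ 2 + c1 * u + c0))) u) -
        |α| * ((∏ a ∈ univ, bump (p a * u + r a) ^ 2) *
          Real.exp (-(c2 * u ^ 2 + c1 * u + c0)))) := by
      intro u
      rw [hW, hwt univ u, dot_update]
      simp_rw [hindu _ u]
      rfl
    simp_rw [heq]
    have hs : Integrable (fun u : ℝ => ∑ a, p a ^ 2 *
        ({u : ℝ | 1 / 2 ≤ |p a * u + r a|}).indicator (fun u =>
          (∏ a' ∈ univ.erase a, bump (p a' * u + r a') ^ 2) *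
            Real.exp (-(c2 * u ^ 2 + c1 * u + c0))) u) :=
      integrable_finsetSum _ fun a _ => (hIi a).const_mul _
    rw [mo_expand _ _ _ hAi (hBi univ) hs, integral_finsetSum _ (fun a _ => (hIi a).const_mul _)]
    have h5 : ∑ a, ∫ u : ℝ, p a ^ 2 *
        ({u : ℝ | 1 / 2 ≤ |p a * u + r a|}).indicator (fun u =>
          (∏ a' ∈ univ.erase a, bump (p a' * u + r a') ^ 2) *
            Real.exp (-(c2 * u ^ 2 + c1 * u + c0))) u =
        ∑ a, p a ^ 2 * ∫ u in {u : ℝ | 1 / 2 ≤ |p a * u + r a|},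
          (∏ a' ∈ univ.erase a, bump (p a' * u + r a') ^ 2) *
            Real.exp (-(c2 * u ^ 2 + c1 * u + c0)) := by
      refine Finset.sum_congr rfl fun a _ => ?_
      rw [integral_const_mul, integral_indicator (hmeas a)]
    rw [h5]
    linarith
  -- expand the integral
  have hexp : ∫ x, (ε⁻¹ * (dot w x ^ 2 * W x) + ε / 2 * (c2 * W x +
      108 * ∑ a, (v a κ / T a) ^ 2 * (S a).indicator (Wa a) x) - |α| * W x) =
      ε⁻¹ * (∫ x, dot w x ^ 2 * W x) + ε / 2 * (c2 * (∫ x, W x) +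
      108 * ∑ a, (v a κ / T a) ^ 2 * ∫ x in S a, Wa a x) - |α| * ∫ x, W x := by
    rw [mo_expand _ _ _ hWd hWi hsumi, integral_finsetSum _ (fun a _ => (hind a).const_mul _)]
    have h5 : ∑ a, ∫ x, (v a κ / T a) ^ 2 * (S a).indicator (Wa a) x =
        ∑ a, (v a κ / T a) ^ 2 * ∫ x in S a, Wa a x :=
      Finset.sum_congr rfl fun a _ => by
        rw [integral_const_mul, integral_indicator (hSm a)]
    rw [h5]
  rw [hexp] at key
  have hW0 : 0 ≤ ∫ x, W x := integral_nonneg fun x => wt_nonneg v T b ℓ univ 100 x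
  have htail : ∑ a, (v a κ / T a) ^ 2 * ∫ x in S a, Wa a x ≤ 4 * ∫ x, W x := by
    calc ∑ a, (v a κ / T a) ^ 2 * ∫ x in S a, Wa a x
        ≤ ∑ a, (v a κ / T a) ^ 2 * (4 * Real.exp (-(100 * T a ^ 2 / (8 * nsq (v a)))) *
            ∫ x, W x) := by
          refine Finset.sum_le_sum fun a _ => mul_le_mul_of_nonneg_left ?_ (sq_nonneg _)
          exact wt_erase_tail v T b ℓ univ hT hb H1 a (mem_univ a)
      _ = (∑ a, (v a κ / T a) ^ 2 * Real.exp (-(100 * T a ^ 2 / (8 * nsq (v a))))) *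
            (4 * ∫ x, W x) := by
          rw [Finset.sum_mul]
          exact Finset.sum_congr rfl fun a _ => by ring
      _ ≤ 1 * (4 * ∫ x, W x) := mul_le_mul_of_nonneg_right H2 (by positivity)
      _ = 4 * ∫ x, W x := one_mul _
  have hfin : |α| * (∫ x, W x) ≤ ε⁻¹ * (∫ x, dot w x ^ 2 * W x) +
      ε / 2 * (483 * ∫ x, W x) := by
    have h1 : ε / 2 * (c2 * (∫ x, W x) +
      108 * ∑ a, (v a κ / T a) ^ 2 * ∫ x in S a, Wa a x) ≤ ε / 2 * (483 * ∫ x, W x) := by
      refine mul_le_mul_of_nonneg_left ?_ (by positivity)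
      have h2 : c2 * (∫ x, W x) ≤ 51 * ∫ x, W x := mul_le_mul_of_nonneg_right hc2' hW0
      linarith
    linarith
  have h6 : ε * (|α| * (∫ x, W x)) ≤ (∫ x, dot w x ^ 2 * W x) +
      ε * (ε / 2 * (483 * ∫ x, W x)) := by
    have := mul_le_mul_of_nonneg_left hfin hε.le
    rw [mul_add, ← mul_assoc ε ε⁻¹, mul_inv_cancel₀ hε.ne', one_mul] at this
    exact this
  have h7 : ε * (|α| * (∫ x, W x)) - ε * (ε / 2 * (483 * ∫ x, W x)) =
      |α| ^ 2 / 966 * ∫ x, W x := by
    rw [hεdef]; ring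
  have h8 : (1 / 4000 : ℝ) ≤ |α| ^ 2 / 966 := by
    have : (1 / 2 : ℝ) ^ 2 ≤ |α| ^ 2 := pow_le_pow_left₀ (by norm_num) hw 2
    rw [le_div_iff₀ (by norm_num)]
    linarith
  calc 1 / 4000 * ∫ x, W x ≤ |α| ^ 2 / 966 * ∫ x, W x := mul_le_mul_of_nonneg_right h8 hW0
    _ ≤ _ := by linarith

end Pool.Agent.SVM
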