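import Pool.Agent.SVM.PLOne

set_option autoImplicit false

/-!
# [SVM-PLN] Prekopa-Leindler (midpoint version) on `ι → ℝ`

Induction on the number of coordinates (for `Fin n → ℝ`, e.g. with
`volume_preserving_piFinSuccAbove` / `MeasurableEquiv.piFinSuccAbove` and Tonelli), using `pl_one` for
the last coordinate; then transport to a general finite index type with
`volume_measurePreserving_piCongrLeft` or similar.
In the step: for fixed `s t : ℝ` the functions `x ↦ f (s, x)`, `x ↦ g (t, x)`,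
`x ↦ h ((s+t)/2, x)` satisfy the hypothesis in dimension `n`, so the marginals
`F s = ∫⁻ f (s, ·)`, `G`, `H'` satisfy `F s * G t ≤ H' ((s+t)/2) ^ 2` and `pl_one` applies.
-/

namespace Pool.Agent.SVM

open MeasureTheory Finset
open scoped ENNReal

/-- Tonelli for `Fin (n + 1) → ℝ` -/
theorem plfin_split (n : ℕ) (f : (Fin (n + 1) → ℝ) → ℝ≥0∞) (hf : Measurable f) :
    Measurable (fun s : ℝ => ∫⁻ x : Fin n → ℝ, f (Fin.cons s x)) ∧
    (∀ s : ℝ, Measurable fun x : Fin n → ℝ => f (Fin.cons s x)) ∧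
    ∫⁻ x, f x = ∫⁻ s : ℝ, ∫⁻ x : Fin n → ℝ, f (Fin.cons s x) := by
  set e := MeasurableEquiv.piFinSuccAbove (fun _ : Fin (n + 1) => ℝ) 0 with he
  have hes : ∀ p : ℝ × (Fin n → ℝ), e.symm p = Fin.cons p.1 p.2 := by
    intro p
    rw [he]
    ext i
    refine Fin.cases ?_ (fun j => ?_) i
    · simp [MeasurableEquiv.piFinSuccAbove]
    · simp [MeasurableEquiv.piFinSuccAbove]
  have hm : Measurable fun p : ℝ × (Fin n → ℝ) => f (Fin.cons p.1 p.2) := by
    have h1 : (fun p : ℝ × (Fin n → ℝ) => f (Fin.cons p.1 p.2)) = fun p => f (e.symm p) := by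
      funext p
      rw [hes]
    rw [h1]
    exact hf.comp e.symm.measurable
  refine ⟨hm.lintegral_prod_right', fun s => hm.comp measurable_prodMk_left, ?_⟩
  have hmp := (volume_preserving_piFinSuccAbove (fun _ : Fin (n + 1) => ℝ) 0).symm
  rw [← hmp.lintegral_comp hf]
  have h1 : ∀ p : ℝ × (Fin n → ℝ),
      f ((MeasurableEquiv.piFinSuccAbove (fun _ : Fin (n + 1) => ℝ) 0).symm p) =
        f (Fin.cons p.1 p.2) := fun p => by rw [← he, hes]
  rw [lintegral_congr h1, Measure.volume_eq_prod, lintegral_prod _ hm.aemeasurable]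

theorem pl_fin (n : ℕ) : ∀ (f g h : (Fin n → ℝ) → ℝ≥0∞) (_ : Measurable f)
    (_ : Measurable g) (_ : Measurable h)
    (_ : ∀ x y, f x * g y ≤ h (fun i => (x i + y i) / 2) ^ 2),
    (∫⁻ x, f x) * (∫⁻ x, g x) ≤ (∫⁻ x, h x) ^ 2 := by
  induction n with
  | zero =>
    intro f g h hf hg hh H
    have hv : (volume : Measure (Fin 0 → ℝ)) = Measure.dirac isEmptyElim := by
      rw [volume_pi, Measure.pi_of_empty]
    rw [hv, lintegral_dirac' _ hf, lintegral_dirac' _ hg, lintegral_dirac' _ hh]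
    refine (H _ _).trans (le_of_eq ?_)
    congr 2
    exact Subsingleton.elim _ _
  | succ n ih =>
    intro f g h hf hg hh H
    obtain ⟨f1, f2, f3⟩ := plfin_split n f hf
    obtain ⟨g1, g2, g3⟩ := plfin_split n g hg
    obtain ⟨h1, h2, h3⟩ := plfin_split n h hh
    rw [f3, g3, h3]
    refine pl_one _ _ _ f1 g1 h1 fun s t => ?_
    refine ih _ _ _ (f2 s) (g2 t) (h2 _) fun x y => ?_
    refine (H _ _).trans (le_of_eq ?_)
    congr 2
    funext i
    refine Fin.cases ?_ (fun j => ?_) i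
    · simp
    · simp

theorem pl_fintype {ι : Type*} [Fintype ι] (f g h : (ι → ℝ) → ℝ≥0∞) (hf : Measurable f)
    (hg : Measurable g) (hh : Measurable h)
    (H : ∀ x y, f x * g y ≤ h (fun i => (x i + y i) / 2) ^ 2) :
    (∫⁻ x, f x) * (∫⁻ x, g x) ≤ (∫⁻ x, h x) ^ 2 := by
  set e : ι ≃ Fin (Fintype.card ι) := Fintype.equivFin ι with he
  have hmp := (volume_measurePreserving_piCongrLeft (fun _ : Fin (Fintype.card ι) => ℝ) e).symm
  have hes : ∀ x : Fin (Fintype.card ι) → ℝ,
      (MeasurableEquiv.piCongrLeft (fun _ : Fin (Fintype.card ι) => ℝ) e).symm x =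
        fun i => x (e i) := by
    intro x
    rfl
  have hmeas : Measurable fun x : Fin (Fintype.card ι) → ℝ => fun i => x (e i) :=
    measurable_pi_iff.2 fun i => measurable_pi_apply _
  have key : ∀ f : (ι → ℝ) → ℝ≥0∞, Measurable f →
      ∫⁻ x, f x = ∫⁻ x : Fin (Fintype.card ι) → ℝ, f (fun i => x (e i)) := by
    intro f hf
    rw [← hmp.lintegral_comp hf]
    exact lintegral_congr fun x => by rw [hes]
  rw [key f hf, key g hg, key h hh]
  exact pl_fin _ _ _ _ (hf.comp hmeas) (hg.comp hmeas) (hh.comp hmeas) fun x y => H _ _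

end Pool.Agent.SVM
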