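import Pool.Agent.SVM.Base

set_option autoImplicit false

/-!
# parameters of the iteration
-/

namespace Pool.Agent.SVM

noncomputable section

/-- bound for the energies after `s` moves -/
def PP (R : ℝ) (s : ℕ) : ℝ := (1 - 1 / 320000 : ℝ) ^ s * R

/-- bound for the change of the row sums in the move number `s` -/
def TT (R : ℝ) (s : ℕ) : ℝ := √(PP R s) * (1 + s / 320000) + √R / (1 + Real.log R)

end

end Pool.Agent.SVM
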