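import Pool.Agent.SVM.PLFin

set_option autoImplicit false

/-!
# [SVM-SH] shift inequality and tail bound for even log-concave functions against a gaussian

`integrable_gauss`: e.g. from `GaussianFourier.integrable_cexp_neg_mul_sum_add` or
`Integrable.fintype_prod`.

`shift_le`: apply `pl_fintype` to `f x = F x * exp (-(β/2) |x-u|²)`, `g x = f (-x) =
F x * exp (-(β/2) |x+u|²)` and `h x = F x * exp (-(β/2)|x|²)` (as `ENNReal.ofReal`); note
`|(x+y)/2|² ≤ (|x-u|² + |y+u|²)/2` and `∫⁻ g = ∫⁻ f` (reflection), so `(∫⁻ f)² ≤ (∫⁻ h)²`.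

`tail_le`: with `t = β s / |w|²` and `u = (t/β) w`,
`exp (t ⟨w,x⟩) exp (-(β/2)|x|²) = exp (t²|w|²/(2β)) exp (-(β/2)|x-u|²)`; on `{s ≤ ⟨w,x⟩}` we have
`1 ≤ exp (-t s) exp (t ⟨w,x⟩)`, and similarly on `{s ≤ -⟨w,x⟩}` with `-w`.
-/

namespace Pool.Agent.SVM

open MeasureTheory Finset

theorem integrable_gauss {ι : Type*} [Fintype ι] (c : ℝ) (hc : 0 < c) (u : ι → ℝ) :
    Integrable (fun x : ι → ℝ => Real.exp (-c * nsq (fun i => x i - u i))) := by
  have h : ∀ i, Integrable (fun t : ℝ => Real.exp (-c * (t - u i) ^ 2)) := fun i =>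
    (integrable_exp_neg_mul_sq hc).comp_sub_right (u i)
  have h2 := Integrable.fintype_prod (f := fun i (t : ℝ) => Real.exp (-c * (t - u i) ^ 2)) h
  refine h2.congr (Filter.Eventually.of_forall fun x => ?_)
  simp only [nsq]
  rw [Finset.mul_sum, Real.exp_sum]

theorem sh_measurable {ι : Type*} [Fintype ι] (β : ℝ) (u : ι → ℝ) :
    Measurable (fun x : ι → ℝ => Real.exp (-(β / 2) * nsq (fun i => x i - u i))) := by
  unfold nsq
  fun_prop

theorem sh_integrable {ι : Type*} [Fintype ι] (β : ℝ) (hβ : 0 < β) (F : (ι → ℝ) → ℝ)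
    (hFm : Measurable F) (hF0 : ∀ x, 0 ≤ F x) (hF1 : ∀ x, F x ≤ 1) (u : ι → ℝ) :
    Integrable (fun x => F x * Real.exp (-(β / 2) * nsq (fun i => x i - u i))) := by
  refine (integrable_gauss (β / 2) (by positivity) u).mono'
    ((hFm.mul (sh_measurable β u)).aestronglyMeasurable) (Filter.Eventually.of_forall fun x => ?_)
  rw [Real.norm_eq_abs, abs_of_nonneg (mul_nonneg (hF0 x) (Real.exp_pos _).le)]
  exact mul_le_of_le_one_left (Real.exp_pos _).le (hF1 x)

theorem sh_zero {ι : Type*} [Fintype ι] (x : ι → ℝ) :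
    nsq (fun i => x i - (0 : ι → ℝ) i) = nsq x := by
  simp [nsq]

theorem shift_le {ι : Type*} [Fintype ι] (β : ℝ) (hβ : 0 < β) (F : (ι → ℝ) → ℝ)
    (hFm : Measurable F) (hF0 : ∀ x, 0 ≤ F x) (hF1 : ∀ x, F x ≤ 1)
    (hFe : ∀ x, F (fun i => -x i) = F x)
    (hFl : ∀ x y, F x * F y ≤ F (fun i => (x i + y i) / 2) ^ 2) (u : ι → ℝ) :
    ∫ x, F x * Real.exp (-(β / 2) * nsq (fun i => x i - u i)) ≤
      ∫ x, F x * Real.exp (-(β / 2) * nsq x) := by
  have hI : Integrable (fun x => F x * Real.exp (-(β / 2) * nsq x)) := by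
    have := sh_integrable β hβ F hFm hF0 hF1 0
    simpa only [sh_zero] using this
  have hIu := sh_integrable β hβ F hFm hF0 hF1 u
  have hn : ∀ (v x : ι → ℝ), 0 ≤ F x * Real.exp (-(β / 2) * nsq (fun i => x i - v i)) :=
    fun v x => mul_nonneg (hF0 x) (Real.exp_pos _).le
  have hn0 : ∀ x : ι → ℝ, 0 ≤ F x * Real.exp (-(β / 2) * nsq x) :=
    fun x => mul_nonneg (hF0 x) (Real.exp_pos _).le
  have key : (∫⁻ x, ENNReal.ofReal (F x * Real.exp (-(β / 2) * nsq (fun i => x i - u i)))) ^ 2 ≤
      (∫⁻ x, ENNReal.ofReal (F x * Real.exp (-(β / 2) * nsq x))) ^ 2 := by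
    have hrefl : ∫⁻ x : ι → ℝ,
        ENNReal.ofReal (F x * Real.exp (-(β / 2) * nsq (fun i => x i + u i))) =
        ∫⁻ x, ENNReal.ofReal (F x * Real.exp (-(β / 2) * nsq (fun i => x i - u i))) := by
      rw [← lintegral_neg_eq_self (fun x : ι → ℝ =>
        ENNReal.ofReal (F x * Real.exp (-(β / 2) * nsq (fun i => x i - u i))))]
      refine lintegral_congr fun x => ?_
      have e1 : F (-x) = F x := hFe x
      have e2 : nsq (fun i => (-x) i - u i) = nsq (fun i => x i + u i) := by
        unfold nsq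
        refine Finset.sum_congr rfl fun i _ => ?_
        change (-x i - u i) ^ 2 = (x i + u i) ^ 2
        ring
      rw [e1, e2]
    have h1 := pl_fintype
      (fun x => ENNReal.ofReal (F x * Real.exp (-(β / 2) * nsq (fun i => x i - u i))))
      (fun x => ENNReal.ofReal (F x * Real.exp (-(β / 2) * nsq (fun i => x i + u i))))
      (fun x => ENNReal.ofReal (F x * Real.exp (-(β / 2) * nsq x)))
      (hFm.mul (sh_measurable β u)).ennreal_ofReal
      (by
        refine (hFm.mul ?_).ennreal_ofReal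
        unfold nsq
        fun_prop)
      (by
        refine (hFm.mul ?_).ennreal_ofReal
        unfold nsq
        fun_prop)
      (by
        intro x y
        rw [← ENNReal.ofReal_mul (hn u x), ← ENNReal.ofReal_pow (hn0 _)]
        refine ENNReal.ofReal_le_ofReal ?_
        have e1 : F x * Real.exp (-(β / 2) * nsq fun i => x i - u i) *
            (F y * Real.exp (-(β / 2) * nsq fun i => y i + u i)) =
            (F x * F y) * Real.exp (-(β / 2) * ((nsq fun i => x i - u i) +
              nsq fun i => y i + u i)) := by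
          rw [mul_add, Real.exp_add]; ring
        have e2 : (F (fun i => (x i + y i) / 2) *
            Real.exp (-(β / 2) * nsq fun i => (x i + y i) / 2)) ^ 2 =
            F (fun i => (x i + y i) / 2) ^ 2 *
              Real.exp (-(β / 2) * (2 * nsq fun i => (x i + y i) / 2)) := by
          rw [mul_pow, ← Real.exp_nat_mul]
          congr 2
          push_cast
          ring
        rw [e1, e2]
        refine mul_le_mul (hFl x y) ?_ (Real.exp_pos _).le (sq_nonneg _)
        rw [Real.exp_le_exp]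
        have h3 : 2 * (nsq fun i => (x i + y i) / 2) ≤
            (nsq fun i => x i - u i) + nsq fun i => y i + u i := by
          unfold nsq
          rw [Finset.mul_sum, ← Finset.sum_add_distrib]
          refine Finset.sum_le_sum fun i _ => ?_
          nlinarith [sq_nonneg ((x i - u i) - (y i + u i))]
        nlinarith)
    rw [hrefl] at h1
    rw [sq]
    exact h1
  have key2 : ∫⁻ x, ENNReal.ofReal (F x * Real.exp (-(β / 2) * nsq (fun i => x i - u i))) ≤
      ∫⁻ x, ENNReal.ofReal (F x * Real.exp (-(β / 2) * nsq x)) := by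
    by_contra hcon
    push Not at hcon
    have := ENNReal.pow_lt_pow_left two_ne_zero hcon
    exact absurd key (not_le.2 this)
  rw [integral_eq_lintegral_of_nonneg_ae (Filter.Eventually.of_forall fun x => hn u x)
      hIu.aestronglyMeasurable,
    integral_eq_lintegral_of_nonneg_ae (Filter.Eventually.of_forall fun x => hn0 x)
      hI.aestronglyMeasurable]
  refine ENNReal.toReal_mono ?_ key2
  have := (hasFiniteIntegral_iff_ofReal (Filter.Eventually.of_forall fun x => hn0 x)).1 hI.2
  exact this.ne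

theorem tail_le {ι : Type*} [Fintype ι] (β : ℝ) (hβ : 0 < β) (F : (ι → ℝ) → ℝ)
    (hFm : Measurable F) (hF0 : ∀ x, 0 ≤ F x) (hF1 : ∀ x, F x ≤ 1)
    (hFe : ∀ x, F (fun i => -x i) = F x)
    (hFl : ∀ x y, F x * F y ≤ F (fun i => (x i + y i) / 2) ^ 2)
    (w : ι → ℝ) (hw : 0 < nsq w) (s : ℝ) (hs : 0 ≤ s) :
    ∫ x in {x | s ≤ |dot w x|}, F x * Real.exp (-(β / 2) * nsq x) ≤
      2 * Real.exp (-(β * s ^ 2 / (2 * nsq w))) *
        ∫ x, F x * Real.exp (-(β / 2) * nsq x) := by
  set N := nsq w with hN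
  set a : ℝ := s / N with ha
  have ha0 : 0 ≤ a := div_nonneg hs hw.le
  set E := Real.exp (-(β * s ^ 2 / (2 * N))) with hE
  have hI : Integrable (fun x => F x * Real.exp (-(β / 2) * nsq x)) := by
    have := sh_integrable β hβ F hFm hF0 hF1 0
    simpa only [sh_zero] using this
  have hIp := sh_integrable β hβ F hFm hF0 hF1 (fun i => a * w i)
  have hIm := sh_integrable β hβ F hFm hF0 hF1 (fun i => -a * w i)
  have hsp := shift_le β hβ F hFm hF0 hF1 hFe hFl (fun i => a * w i)
  have hsm := shift_le β hβ F hFm hF0 hF1 hFe hFl (fun i => -a * w i)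
  set G : (ι → ℝ) → ℝ := fun x =>
    E * (F x * Real.exp (-(β / 2) * nsq (fun i => x i - a * w i)) +
      F x * Real.exp (-(β / 2) * nsq (fun i => x i - -a * w i))) with hG
  have hGI : Integrable G := (hIp.add hIm).const_mul E
  have hG0 : ∀ x, 0 ≤ G x := by
    intro x
    have h1 := hF0 x
    simp only [hG]
    positivity
  have hexp : ∀ (b : ℝ) (x : ι → ℝ), nsq (fun i => x i - b * w i) =
      nsq x - 2 * b * dot w x + b ^ 2 * N := by
    intro b x
    rw [hN]
    unfold nsq dot
    rw [Finset.mul_sum, Finset.mul_sum, ← Finset.sum_sub_distrib, ← Finset.sum_add_distrib]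
    refine Finset.sum_congr rfl fun i _ => ?_
    ring
  have hSm : MeasurableSet {x : ι → ℝ | s ≤ |dot w x|} := by
    have : Measurable fun x : ι → ℝ => |dot w x| := by
      unfold dot
      fun_prop
    exact measurableSet_le measurable_const this
  have haN : a * N = s := by rw [ha]; field_simp
  have hpt : ∀ x ∈ {x : ι → ℝ | s ≤ |dot w x|}, F x * Real.exp (-(β / 2) * nsq x) ≤ G x := by
    intro x hx
    have hx' : s ≤ |dot w x| := hx
    have hEa : E = Real.exp (-(β / 2) * (a * s)) := by
      rw [hE]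
      congr 1
      rw [ha]
      field_simp
    have hstep : ∀ b : ℝ, b ^ 2 * N = a * s → a * s ≤ b * dot w x →
        Real.exp (-(β / 2) * nsq x) ≤
          E * Real.exp (-(β / 2) * nsq (fun i => x i - b * w i)) := by
      intro b hb1 hb2
      rw [hEa, ← Real.exp_add, Real.exp_le_exp, hexp, hb1]
      nlinarith
    have hsa : a ^ 2 * N = a * s := by rw [sq, mul_assoc, haN]
    have hsa' : (-a) ^ 2 * N = a * s := by rw [neg_sq, hsa]
    have h1 := hF0 x
    simp only [hG]
    rcases le_total 0 (dot w x) with hd | hd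
    · rw [abs_of_nonneg hd] at hx'
      have h2 := hstep a hsa (mul_le_mul_of_nonneg_left hx' ha0)
      have h3 : 0 ≤ E * (F x * Real.exp (-(β / 2) * nsq (fun i => x i - -a * w i))) := by
        have : 0 < E := Real.exp_pos _
        positivity
      calc F x * Real.exp (-(β / 2) * nsq x)
          ≤ F x * (E * Real.exp (-(β / 2) * nsq (fun i => x i - a * w i))) :=
            mul_le_mul_of_nonneg_left h2 h1
        _ ≤ _ := by rw [mul_add]; linarith
    · rw [abs_of_nonpos hd] at hx'
      have h2 := hstep (-a) hsa' (by nlinarith)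
      have h3 : 0 ≤ E * (F x * Real.exp (-(β / 2) * nsq (fun i => x i - a * w i))) := by
        have : 0 < E := Real.exp_pos _
        positivity
      calc F x * Real.exp (-(β / 2) * nsq x)
          ≤ F x * (E * Real.exp (-(β / 2) * nsq (fun i => x i - -a * w i))) :=
            mul_le_mul_of_nonneg_left h2 h1
        _ ≤ _ := by rw [mul_add]; linarith
  calc ∫ x in {x | s ≤ |dot w x|}, F x * Real.exp (-(β / 2) * nsq x)
      ≤ ∫ x in {x | s ≤ |dot w x|}, G x :=
        setIntegral_mono_on hI.integrableOn hGI.integrableOn hSm hpt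
    _ ≤ ∫ x, G x := setIntegral_le_integral hGI (Filter.Eventually.of_forall hG0)
    _ = E * ((∫ x, F x * Real.exp (-(β / 2) * nsq (fun i => x i - a * w i))) +
          ∫ x, F x * Real.exp (-(β / 2) * nsq (fun i => x i - -a * w i))) := by
        rw [hG, integral_const_mul, integral_add hIp hIm]
    _ ≤ E * ((∫ x, F x * Real.exp (-(β / 2) * nsq x)) +
          ∫ x, F x * Real.exp (-(β / 2) * nsq x)) :=
        mul_le_mul_of_nonneg_left (add_le_add hsp hsm) (Real.exp_pos _).le
    _ = _ := by ring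

end Pool.Agent.SVM
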