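import Pool.Agent.SVM.StepB
import Pool.Agent.SVM.Closure

set_option autoImplicit false

/-!
# [SVM-ST] one step: assembly
-/

namespace Pool.Agent.SVM

open Finset

/-- patching the samples along the height function -/
theorem patch_row {m : ℕ} (c : Fin m → ℝ) (X Y U lam : Fin m → ℝ) (θ δ B : ℝ)
    (hθ0 : 0 ≤ θ) (hθ1 : θ ≤ 1) (hδ : 0 ≤ δ)
    (hX : |∑ j, c j * X j| ≤ B) (hY : |∑ j, c j * Y j| ≤ B)
    (hXY : ∀ j, |Y j - X j| ≤ 1)
    (hlam : ∀ j, c j ≠ 0 → |lam j - θ| ≤ δ)
    (hU : ∀ j, c j ≠ 0 → U j = (1 - lam j) * X j + lam j * Y j) :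
    |∑ j, c j * U j| ≤ B + δ * ∑ j, |c j| := by
  have h1 : ∑ j, c j * U j = (1 - θ) * ∑ j, c j * X j + θ * ∑ j, c j * Y j +
      ∑ j, c j * ((lam j - θ) * (Y j - X j)) := by
    rw [Finset.mul_sum, Finset.mul_sum, ← Finset.sum_add_distrib, ← Finset.sum_add_distrib]
    refine Finset.sum_congr rfl fun j _ => ?_
    by_cases hj : c j = 0
    · simp [hj]
    · rw [hU j hj]; ring
  have h2 : |∑ j, c j * ((lam j - θ) * (Y j - X j))| ≤ δ * ∑ j, |c j| := by
    refine (Finset.abs_sum_le_sum_abs _ _).trans ?_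
    rw [Finset.mul_sum]
    refine Finset.sum_le_sum fun j _ => ?_
    by_cases hj : c j = 0
    · simp [hj]
    · rw [abs_mul, abs_mul]
      have h3 := hlam j hj
      have h4 := hXY j
      calc |c j| * (|lam j - θ| * |Y j - X j|) ≤ |c j| * (δ * 1) := by
            refine mul_le_mul_of_nonneg_left ?_ (abs_nonneg _)
            exact mul_le_mul h3 h4 (abs_nonneg _) hδ
        _ = δ * |c j| := by ring
  have h5 : |(1 - θ) * ∑ j, c j * X j| ≤ (1 - θ) * B := by
    rw [abs_mul, abs_of_nonneg (by linarith)]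
    exact mul_le_mul_of_nonneg_left hX (by linarith)
  have h6 : |θ * ∑ j, c j * Y j| ≤ θ * B := by
    rw [abs_mul, abs_of_nonneg hθ0]
    exact mul_le_mul_of_nonneg_left hY hθ0
  rw [h1]
  calc _ ≤ |(1 - θ) * ∑ j, c j * X j| + |θ * ∑ j, c j * Y j| +
        |∑ j, c j * ((lam j - θ) * (Y j - X j))| := abs_add_three _ _ _
    _ ≤ (1 - θ) * B + θ * B + δ * ∑ j, |c j| := by linarith
    _ = B + δ * ∑ j, |c j| := by ring

theorem patch_sq {m : ℕ} (w : Fin m → ℝ) (X Y U lam : Fin m → ℝ) (θ δ : ℝ)
    (hw : ∀ j, 0 ≤ w j) (hθ0 : 0 ≤ θ) (hθ1 : θ ≤ 1) (hδ : 0 ≤ δ)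
    (hX : ∀ j, |X j| ≤ 1 / 2) (hY : ∀ j, |Y j| ≤ 1 / 2)
    (hlam : ∀ j, w j ≠ 0 → |lam j - θ| ≤ δ)
    (hU : ∀ j, w j ≠ 0 → U j = (1 - lam j) * X j + lam j * Y j) :
    ∑ j, w j * ((1 - θ) * X j + θ * Y j) ^ 2 - δ * ∑ j, w j ≤ ∑ j, w j * U j ^ 2 := by
  rw [Finset.mul_sum, ← Finset.sum_sub_distrib]
  refine Finset.sum_le_sum fun j _ => ?_
  by_cases hj : w j = 0
  · simp [hj]
  · rw [hU j hj]
    set M := (1 - θ) * X j + θ * Y j with hM
    have e : (1 - lam j) * X j + lam j * Y j = M + (lam j - θ) * (Y j - X j) := by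
      rw [hM]; ring
    rw [e]
    have hMb : |M| ≤ 1 / 2 := by
      have h1 := abs_le.1 (hX j)
      have h2 := abs_le.1 (hY j)
      rw [abs_le, hM]
      constructor <;> nlinarith
    have hE : |(lam j - θ) * (Y j - X j)| ≤ δ := by
      rw [abs_mul]
      have h1 : |Y j - X j| ≤ 1 := by
        have h1 := abs_le.1 (hX j)
        have h2 := abs_le.1 (hY j)
        rw [abs_le]
        constructor <;> linarith
      calc |lam j - θ| * |Y j - X j| ≤ δ * 1 :=
            mul_le_mul (hlam j hj) h1 (abs_nonneg _) hδ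
        _ = δ := mul_one δ
    set E := (lam j - θ) * (Y j - X j) with hEd
    have h3 : M ^ 2 - δ ≤ (M + E) ^ 2 := by
      have h4 : |M * E| ≤ 1 / 2 * δ := by
        rw [abs_mul]
        exact mul_le_mul hMb hE (abs_nonneg _) (by norm_num)
      have h5 := (abs_le.1 h4).1
      nlinarith [sq_nonneg E]
    have h6 := mul_le_mul_of_nonneg_left h3 (hw j)
    linarith

/-- a sample extended to all levels -/
noncomputable def ext {K m : ℕ} (x : Fin (K + 2) × Fin m → ℝ) (l : ℕ) (j : Fin m) : ℝ :=
  if h : l < K + 2 then x (⟨l, h⟩, j) else 0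

theorem step_exists {n m : ℕ} (V : Fin n → Fin m → ℝ) (R P T : ℝ) (d D1 : ℕ)
    (hV1 : ∀ i j, |V i j| ≤ 1) (hcol : ∀ j, ∑ i, |V i j| ≤ R)
    (hD : ∀ i, (univ.filter (fun i' => ∃ j, V i j ≠ 0 ∧ V i' j ≠ 0)).card ≤ D1)
    (a σ : Fin m → ℝ) (ha0 : ∀ j, 0 ≤ a j) (ha1 : ∀ j, a j ≤ 1) (hσ : ∀ j, |σ j| = 1)
    (hP : ∀ i, ∑ j, |V i j| * √(a j) ≤ P)
    (hPbig : (10 : ℝ) ^ 13 ≤ P) (hRP : R ≤ P ^ 2)
    (hT0 : 0 < T) (hPT : P ≤ T ^ 2)
    (hc1 : R / T ^ 2 * Real.exp (-(12 * T ^ 2 / P)) ≤ 2 / 5)
    (hd : 640000 ≤ d) (hd2 : P ≤ T * d)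
    (hc3 : 4 * (D1 : ℝ) ^ (d + 3) * d * Real.exp (-(P / 32000)) ≤ 1 / 2) :
    ∃ ξ : Fin m → ℝ, (∀ j, |ξ j| ≤ 1 / 2) ∧
      (∀ i, |∑ j, V i j * a j * ξ j| ≤ 2 * T) ∧
      (∀ i, |∑ j, |V i j| * √(a j) * σ j * ξ j| ≤ P / 160000) ∧
      (∀ i, P / 2 ≤ ∑ j, |V i j| * √(a j) →
        1 / 16000 * ∑ j, |V i j| * √(a j) ≤ ∑ j, |V i j| * √(a j) * ξ j ^ 2) := by
  classical
  have hP0 : (0 : ℝ) < P := lt_of_lt_of_le (by norm_num) hPbig
  have hd0 : 0 < d := by omega
  have hdR : (0 : ℝ) < d := by exact_mod_cast hd0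
  have hD' : ∀ i, (univ.filter (fun i' => ¬ Disjoint (sp V i') (sp V i))).card ≤ D1 := by
    intro i
    refine (Finset.card_le_card ?_).trans (hD i)
    intro i' hi'
    rw [Finset.mem_filter] at hi' ⊢
    refine ⟨Finset.mem_univ _, ?_⟩
    obtain ⟨j, hj1, hj2⟩ := Finset.not_disjoint_iff.1 hi'.2
    exact ⟨j, (Finset.mem_filter.1 hj2).2, (Finset.mem_filter.1 hj1).2⟩
  rcases Nat.eq_zero_or_pos D1 with hD0 | hD1
  · -- all rows vanish
    have hV0 : ∀ i j, V i j = 0 := by
      intro i j
      by_contra hne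
      have h1 := hD i
      rw [hD0] at h1
      have h2 : i ∈ univ.filter (fun i' => ∃ j, V i j ≠ 0 ∧ V i' j ≠ 0) :=
        Finset.mem_filter.2 ⟨Finset.mem_univ _, j, hne, hne⟩
      have h3 := Finset.card_pos.2 ⟨i, h2⟩
      omega
    refine ⟨fun _ => 0, fun j => by norm_num, fun i => ?_, fun i => ?_, fun i hi => ?_⟩
    · simp [hT0.le]
    · simp; positivity
    · simp [hV0] at hi
      linarith
  · obtain ⟨x, hx1, hx2, hx3, hx4⟩ := samples V R P T d D1 n hV1 hcol hD' a σ ha0 ha1 hσ hP hPbig
      hRP hT0 hPT hc1 hd hc3 hD1 Nat.lt_two_pow_self.le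
    set w : Fin n → Fin m → ℝ := fun i j => |V i j| * √(a j) with hw
    have hs0 : ∀ j, 0 ≤ √(a j) := fun j => Real.sqrt_nonneg _
    have hs1 : ∀ j, √(a j) ≤ 1 := fun j => Real.sqrt_le_one.2 (ha1 j)
    have has : ∀ j, a j ≤ √(a j) := fun j => by
      have := Real.mul_self_sqrt (ha0 j)
      nlinarith [hs0 j, hs1 j]
    have hw0 : ∀ i j, 0 ≤ w i j := fun i j => mul_nonneg (abs_nonneg _) (hs0 j)
    let X : ℕ → Fin m → ℝ := fun l j => ext x l j
    have hX1 : ∀ l j, |X l j| ≤ 1 / 2 := by
      intro l j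
      simp only [X, ext]
      split_ifs with h
      · exact hx1 _ _
      · norm_num
    have hX2 : ∀ l i, |∑ j, V i j * a j * X l j| ≤ T := by
      intro l i
      by_cases h : l < n + 2
      · have e : ∀ j, X l j = x (⟨l, h⟩, j) := fun j => by simp only [X, ext, dif_pos h]
        simp only [e]
        exact hx2 _ _
      · have e : ∀ j, X l j = 0 := fun j => by simp only [X, ext, dif_neg h]
        simp [e, hT0.le]
    have hX3 : ∀ l i, |∑ j, |V i j| * √(a j) * σ j * X l j| ≤ P / 320000 := by
      intro l i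
      by_cases h : l < n + 2
      · have e : ∀ j, X l j = x (⟨l, h⟩, j) := fun j => by simp only [X, ext, dif_pos h]
        simp only [e]
        exact hx3 _ _
      · have e : ∀ j, X l j = 0 := fun j => by simp only [X, ext, dif_neg h]
        simp only [e, mul_zero, Finset.sum_const_zero, abs_zero]
        positivity
    let Bd : Fin n → ℕ → Prop := fun i l => P / 2 ≤ ∑ j, w i j ∧ ∃ θ : Fin d,
      ∑ j, w i j * ((1 - ((θ : ℕ) : ℝ) / d) * X l j + ((θ : ℕ) : ℝ) / d * X (l + 1) j) ^ 2 <
        (∑ j, w i j) / 8000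
    rcases closure_or_chain (sp V) d n (by omega) Bd with ⟨h, hh1, hh2, hh3⟩ | ⟨y, hy0, hy1, hy2, hy3⟩
    · -- patching
      let lm : ℕ → Fin m → ℝ := fun l j => ((h j : ℝ) - l * d) / d
      let ξ : Fin m → ℝ := fun j => (1 - ((h j % d : ℕ) : ℝ) / d) * X (h j / d) j +
        ((h j % d : ℕ) : ℝ) / d * X (h j / d + 1) j
      have hξ : ∀ j, |ξ j| ≤ 1 / 2 := by
        intro j
        have h1 := abs_le.1 (hX1 (h j / d) j)
        have h2 := abs_le.1 (hX1 (h j / d + 1) j)
        have h3 : (0 : ℝ) ≤ ((h j % d : ℕ) : ℝ) / d := by positivity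
        have h4 : ((h j % d : ℕ) : ℝ) / d ≤ 1 := by
          rw [div_le_one hdR]
          exact_mod_cast (Nat.mod_lt _ hd0).le
        simp only [ξ]
        rw [abs_le]
        constructor <;> nlinarith
      -- the structure along a row
      have hrow : ∀ i, (sp V i).Nonempty → ∃ (l : ℕ) (θ : Fin d),
          (∃ j ∈ sp V i, h j / d = l) ∧
          ∀ j ∈ sp V i, |lm l j - ((θ : ℕ) : ℝ) / d| ≤ 1 / d ∧
            ξ j = (1 - lm l j) * X l j + lm l j * X (l + 1) j := by
        intro i hi
        obtain ⟨j0, hj0, hmin⟩ := Finset.exists_min_image (sp V i) h hi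
        refine ⟨h j0 / d, ⟨h j0 % d, Nat.mod_lt _ hd0⟩, ⟨j0, hj0, rfl⟩, ?_⟩
        intro j hj
        have h1 : h j0 ≤ h j := hmin j hj
        have h2 : h j ≤ h j0 + 1 := hh2 i j hj j0 hj0
        have h3 : h j0 = d * (h j0 / d) + h j0 % d := (Nat.div_add_mod _ _).symm
        have h3' : (h j0 : ℝ) = d * ((h j0 / d : ℕ) : ℝ) + ((h j0 % d : ℕ) : ℝ) := by
          exact_mod_cast h3
        constructor
        · simp only [lm]
          rw [div_sub_div_same, abs_div, abs_of_pos hdR]
          apply div_le_div_of_nonneg_right _ hdR.le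
          rw [abs_le]
          have h5 : (h j0 : ℝ) ≤ h j := by exact_mod_cast h1
          have h6 : (h j : ℝ) ≤ h j0 + 1 := by exact_mod_cast h2
          constructor <;> linarith
        · -- the level of j is l or (l + 1 and remainder 0)
          have h4 : h j % d < d := Nat.mod_lt _ hd0
          have h4' : h j0 % d < d := Nat.mod_lt _ hd0
          have h7 : h j = d * (h j / d) + h j % d := (Nat.div_add_mod _ _).symm
          have h7' : (h j : ℝ) = d * ((h j / d : ℕ) : ℝ) + ((h j % d : ℕ) : ℝ) := by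
            exact_mod_cast h7
          have h8 : h j / d = h j0 / d ∨ (h j / d = h j0 / d + 1 ∧ h j % d = 0) := by
            rcases Nat.eq_or_lt_of_le h1 with h9 | h9
            · left; rw [h9]
            · have h10 : h j = h j0 + 1 := by omega
              by_cases h11 : h j0 % d + 1 < d
              · left
                have h12 : h j = d * (h j0 / d) + (h j0 % d + 1) := by omega
                rw [h12, Nat.mul_add_div hd0, Nat.div_eq_of_lt h11, add_zero]
              · right
                have h12 : h j = d * (h j0 / d + 1) := by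
                  rw [Nat.mul_add, mul_one]; omega
                constructor
                · rw [h12, Nat.mul_div_cancel_left _ hd0]
                · rw [h12, Nat.mul_mod_right]
          rcases h8 with h9 | ⟨h9, h10⟩
          · have e1 : lm (h j0 / d) j = ((h j % d : ℕ) : ℝ) / d := by
              simp only [lm]
              rw [← h9, h7']
              congr 1
              ring
            rw [e1]
            simp only [ξ]
            rw [h9]
          · have e1 : lm (h j0 / d) j = 1 := by
              simp only [lm]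
              rw [h7', h9, h10]
              push_cast
              field_simp
              ring
            rw [e1]
            simp only [ξ]
            rw [h9, h10]
            simp
      have hsupp : ∀ i j, V i j ≠ 0 → j ∈ sp V i := fun i j hj =>
        Finset.mem_filter.2 ⟨Finset.mem_univ _, hj⟩
      have hXX : ∀ l j, |X (l + 1) j - X l j| ≤ 1 := by
        intro l j
        have h1 := abs_le.1 (hX1 l j)
        have h2 := abs_le.1 (hX1 (l + 1) j)
        rw [abs_le]
        constructor <;> linarith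
      have hθ01 : ∀ θ : Fin d, (0 : ℝ) ≤ ((θ : ℕ) : ℝ) / d ∧ ((θ : ℕ) : ℝ) / d ≤ 1 := by
        intro θ
        refine ⟨by positivity, ?_⟩
        rw [div_le_one hdR]
        exact_mod_cast θ.isLt.le
      refine ⟨ξ, hξ, ?_, ?_, ?_⟩
      · intro i
        rcases (sp V i).eq_empty_or_nonempty with hemp | hne
        · have : ∀ j, V i j = 0 := by
            intro j
            by_contra hj
            have := hsupp i j hj
            rw [hemp] at this
            exact absurd this (Finset.notMem_empty _)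
          simp [this, hT0.le]
        · obtain ⟨l, θ, -, hl⟩ := hrow i hne
          have h1 := patch_row (fun j => V i j * a j) (X l) (X (l + 1)) ξ (lm l)
            (((θ : ℕ) : ℝ) / d) (1 / d) T (hθ01 θ).1 (hθ01 θ).2 (by positivity)
            (hX2 l i) (hX2 (l + 1) i) (hXX l)
            (fun j hj => (hl j (hsupp i j (left_ne_zero_of_mul hj))).1)
            (fun j hj => (hl j (hsupp i j (left_ne_zero_of_mul hj))).2)
          have h2 : ∑ j, |V i j * a j| ≤ P := by
            refine (Finset.sum_le_sum fun j _ => ?_).trans (hP i)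
            rw [abs_mul, abs_of_nonneg (ha0 j)]
            exact mul_le_mul_of_nonneg_left (has j) (abs_nonneg _)
          have h3 : 1 / (d : ℝ) * ∑ j, |V i j * a j| ≤ T := by
            rw [one_div, inv_mul_le_iff₀ hdR]
            linarith [mul_comm T (d : ℝ)]
          linarith
      · intro i
        rcases (sp V i).eq_empty_or_nonempty with hemp | hne
        · have : ∀ j, V i j = 0 := by
            intro j
            by_contra hj
            have := hsupp i j hj
            rw [hemp] at this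
            exact absurd this (Finset.notMem_empty _)
          simp [this]
          positivity
        · obtain ⟨l, θ, -, hl⟩ := hrow i hne
          have hne' : ∀ j, |V i j| * √(a j) * σ j ≠ 0 → V i j ≠ 0 := by
            intro j hj h0
            apply hj
            rw [h0, abs_zero, zero_mul, zero_mul]
          have h1 := patch_row (fun j => |V i j| * √(a j) * σ j) (X l) (X (l + 1)) ξ (lm l)
            (((θ : ℕ) : ℝ) / d) (1 / d) (P / 320000) (hθ01 θ).1 (hθ01 θ).2 (by positivity)
            (hX3 l i) (hX3 (l + 1) i) (hXX l)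
            (fun j hj => (hl j (hsupp i j (hne' j hj))).1)
            (fun j hj => (hl j (hsupp i j (hne' j hj))).2)
          have h2 : ∑ j, |(|V i j| * √(a j) * σ j)| ≤ P := by
            refine (Finset.sum_le_sum fun j _ => ?_).trans (hP i)
            rw [abs_mul, hσ, mul_one, abs_of_nonneg (hw0 i j)]
          have h3 : 1 / (d : ℝ) * ∑ j, |(|V i j| * √(a j) * σ j)| ≤ P / 640000 := by
            have h4 : 1 / (d : ℝ) ≤ 1 / 640000 := by
              apply one_div_le_one_div_of_le (by norm_num)
              exact_mod_cast hd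
            calc 1 / (d : ℝ) * ∑ j, |(|V i j| * √(a j) * σ j)| ≤ 1 / 640000 * P :=
                  mul_le_mul h4 h2 (Finset.sum_nonneg fun j _ => abs_nonneg _) (by norm_num)
              _ = P / 640000 := by ring
          linarith
      · intro i hi
        have hne : (sp V i).Nonempty := by
          rw [Finset.nonempty_iff_ne_empty]
          intro hemp
          have : ∀ j, V i j = 0 := by
            intro j
            by_contra hj
            have := hsupp i j hj
            rw [hemp] at this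
            exact absurd this (Finset.notMem_empty _)
          simp [this] at hi
          linarith
        obtain ⟨l, θ, ⟨j0, hj0, hl0⟩, hl⟩ := hrow i hne
        have hnb := hh3 i j0 hj0
        rw [hl0] at hnb
        have h1 : (∑ j, w i j) / 8000 ≤ ∑ j, w i j * ((1 - ((θ : ℕ) : ℝ) / d) * X l j +
            ((θ : ℕ) : ℝ) / d * X (l + 1) j) ^ 2 := by
          by_contra hcon
          exact hnb ⟨hi, θ, not_le.1 hcon⟩
        have hne' : ∀ j, w i j ≠ 0 → V i j ≠ 0 := by
          intro j hj h0
          apply hj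
          simp [hw, h0]
        have h2 := patch_sq (w i) (X l) (X (l + 1)) ξ (lm l) (((θ : ℕ) : ℝ) / d) (1 / d)
          (hw0 i) (hθ01 θ).1 (hθ01 θ).2 (by positivity) (hX1 l) (hX1 (l + 1))
          (fun j hj => (hl j (hsupp i j (hne' j hj))).1)
          (fun j hj => (hl j (hsupp i j (hne' j hj))).2)
        have h4 : 1 / (d : ℝ) ≤ 1 / 640000 := by
          apply one_div_le_one_div_of_le (by norm_num)
          exact_mod_cast hd
        have h5 : 0 ≤ ∑ j, w i j := Finset.sum_nonneg fun j _ => hw0 i j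
        have h6 := mul_le_mul_of_nonneg_right h4 h5
        have h7 : 1 / 16000 * ∑ j, w i j ≤ ∑ j, w i j * ξ j ^ 2 := by linarith
        exact h7
    · -- a chain of bad pairs
      exfalso
      have hlev : ∀ t, t ≤ n → (y t).2 ≤ t := by
        intro t
        induction t with
        | zero => intro _; omega
        | succ t ih =>
          intro ht
          have h1 := (hy1 t (by omega)).1
          have h2 := ih (by omega)
          omega
      let y' : Fin (n + 1) → Fin n × Fin (n + 1) := fun t =>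
        ((y t).1, ⟨(y t).2, by have := hlev t (by omega); omega⟩)
      have hbad : ∀ t : Fin (n + 1), Bd (y t).1 (y t).2 := fun t => hy2 t (by omega)
      choose hbad1 θ hθ using hbad
      have h1 := hx4 y' θ ⟨by simp only [y']; exact hy0, fun t ht => hy1 t ht⟩
        (fun t => hbad1 t)
        (fun s t hst hl => hy3 s t (by omega) (by omega) (fun h => hst (Fin.ext h))
          (congrArg Fin.val hl))
      have h2 : (maj (fun t => ((y' t).2 : ℕ))).Nonempty := by
        rw [← Finset.card_pos]
        have := maj_card (fun t => ((y' t).2 : ℕ))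
        omega
      have h3 : ∑ t ∈ maj (fun t => ((y' t).2 : ℕ)), ∑ j, |V (y' t).1 j| * √(a j) *
            ((1 - ((θ t : ℕ) : ℝ) / d) * x ((y' t).2.castSucc, j) +
              ((θ t : ℕ) : ℝ) / d * x ((y' t).2.succ, j)) ^ 2 <
          ∑ t ∈ maj (fun t => ((y' t).2 : ℕ)), (∑ j, |V (y' t).1 j| * √(a j)) / 8000 := by
        refine Finset.sum_lt_sum_of_nonempty h2 fun t _ => ?_
        have h4 := hθ t
        have hl2 : (y t).2 < n + 1 := by have := hlev t (by omega); omega
        have e1 : ∀ j, X (y t).2 j = x ((y' t).2.castSucc, j) := by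
          intro j
          simp only [X, ext]
          rw [dif_pos (by omega)]
          rfl
        have e2 : ∀ j, X ((y t).2 + 1) j = x ((y' t).2.succ, j) := by
          intro j
          simp only [X, ext]
          rw [dif_pos (by omega)]
          rfl
        simp only [e1, e2] at h4
        exact h4
      linarith

end Pool.Agent.SVM
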