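import Pool.Agent.SVM.Good
import Pool.Agent.SVM.Count

set_option autoImplicit false

/-!
# [SVM-ST] one step: the samples
-/

namespace Pool.Agent.SVM

open Finset

/-- the support of a row -/
noncomputable def sp {n m : ℕ} (V : Fin n → Fin m → ℝ) (i : Fin n) : Finset (Fin m) :=
  univ.filter (fun j => V i j ≠ 0)

/-- chains of pairs (row, level) -/
def Chain {n m : ℕ} (V : Fin n → Fin m → ℝ) (d K : ℕ)
    (y : Fin (K + 1) → Fin n × Fin (K + 1)) : Prop :=
  ((y 0).2 : ℕ) = 0 ∧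
    ∀ t : ℕ, ∀ ht : t < K,
      ((y ⟨t + 1, by omega⟩).2 : ℕ) ≤ ((y ⟨t, by omega⟩).2 : ℕ) + 1 ∧
      ¬ Disjoint (sp V (y ⟨t + 1, by omega⟩).1)
        (cov (sp V) ((((y ⟨t, by omega⟩).2 : ℕ) + 1 - ((y ⟨t + 1, by omega⟩).2 : ℕ)) * d + 2)
          (y ⟨t, by omega⟩).1)

/-- majority class of the levels modulo 2 -/
def maj {K : ℕ} (lev : Fin (K + 1) → ℕ) : Finset (Fin (K + 1)) :=
  if K + 1 ≤ 2 * (univ.filter (fun t => lev t % 2 = 0)).card then
    univ.filter (fun t => lev t % 2 = 0) else univ.filter (fun t => lev t % 2 = 1)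

theorem maj_card {K : ℕ} (lev : Fin (K + 1) → ℕ) : K + 1 ≤ 2 * (maj lev).card := by
  unfold maj
  split_ifs with h
  · exact h
  · have h1 := Finset.card_filter_add_card_filter_not (s := (univ : Finset (Fin (K + 1))))
      (fun t => lev t % 2 = 0)
    have h2 : (univ.filter (fun t => ¬ lev t % 2 = 0)) = univ.filter (fun t => lev t % 2 = 1) := by
      apply Finset.filter_congr
      intro t _
      omega
    rw [h2, Finset.card_univ, Fintype.card_fin] at h1
    omega

theorem maj_par {K : ℕ} (lev : Fin (K + 1) → ℕ) (s t : Fin (K + 1)) (hs : s ∈ maj lev)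
    (ht : t ∈ maj lev) : lev s % 2 = lev t % 2 := by
  unfold maj at hs ht
  split_ifs at hs ht with h
  · rw [(Finset.mem_filter.1 hs).2, (Finset.mem_filter.1 ht).2]
  · rw [(Finset.mem_filter.1 hs).2, (Finset.mem_filter.1 ht).2]

/-- a linear form living on one level -/
def lift {K m : ℕ} (l : Fin (K + 2)) (f : Fin m → ℝ) : Fin (K + 2) × Fin m → ℝ :=
  fun κ => if κ.1 = l then f κ.2 else 0

theorem dot_lift {K m : ℕ} (l : Fin (K + 2)) (f : Fin m → ℝ) (x : Fin (K + 2) × Fin m → ℝ) :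
    dot (lift l f) x = ∑ j, f j * x (l, j) := by
  unfold dot lift
  rw [Fintype.sum_prod_type, Finset.sum_eq_single l]
  · simp
  · intro b _ hb
    simp [hb]
  · intro h
    exact absurd (Finset.mem_univ _) h

theorem nsq_lift {K m : ℕ} (l : Fin (K + 2)) (f : Fin m → ℝ) :
    nsq (lift l f) = ∑ j, f j ^ 2 := by
  unfold nsq lift
  rw [Fintype.sum_prod_type, Finset.sum_eq_single l]
  · simp
  · intro b _ hb
    simp [hb]
  · intro h
    exact absurd (Finset.mem_univ _) h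

/-- the mixed coordinate as a linear form -/
noncomputable def mixf {K m : ℕ} (d : ℕ) (u : Fin (K + 1) × Fin d × Fin m) :
    Fin (K + 2) × Fin m → ℝ :=
  fun κ => if κ.2 = u.2.2 then (if κ.1 = u.1.castSucc then 1 - (u.2.1 : ℝ) / d else
    if κ.1 = u.1.succ then (u.2.1 : ℝ) / d else 0) else 0

theorem dot_mixf {K m : ℕ} (d : ℕ) (u : Fin (K + 1) × Fin d × Fin m)
    (x : Fin (K + 2) × Fin m → ℝ) :
    dot (mixf d u) x = (1 - (u.2.1 : ℝ) / d) * x (u.1.castSucc, u.2.2) +
      (u.2.1 : ℝ) / d * x (u.1.succ, u.2.2) := by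
  unfold dot mixf
  rw [Fintype.sum_prod_type]
  have h : ∀ l : Fin (K + 2), ∑ j : Fin m, (if (l, j).2 = u.2.2 then
      (if (l, j).1 = u.1.castSucc then 1 - (u.2.1 : ℝ) / d else
      if (l, j).1 = u.1.succ then (u.2.1 : ℝ) / d else 0) else 0) * x (l, j) =
      (if l = u.1.castSucc then 1 - (u.2.1 : ℝ) / d else
      if l = u.1.succ then (u.2.1 : ℝ) / d else 0) * x (l, u.2.2) := by
    intro l
    rw [Finset.sum_eq_single u.2.2]
    · simp
    · intro b _ hb
      simp [hb]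
    · intro h
      exact absurd (Finset.mem_univ _) h
  rw [Finset.sum_congr rfl (fun l _ => h l)]
  have hne : u.1.castSucc ≠ u.1.succ := by
    intro h
    have := congrArg Fin.val h
    simp at this
  rw [← Finset.sum_subset (Finset.subset_univ {u.1.castSucc, u.1.succ})]
  · rw [Finset.sum_pair hne]
    simp [hne.symm]
  · intro l _ hl
    simp only [Finset.mem_insert, Finset.mem_singleton, not_or] at hl
    simp [hl.1, hl.2]

theorem mixf_sq_le {K m : ℕ} (d : ℕ) (hd : 0 < d) (u : Fin (K + 1) × Fin d × Fin m)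
    (κ : Fin (K + 2) × Fin m) : mixf d u κ ^ 2 ≤ 1 := by
  have h0 : (0 : ℝ) ≤ (u.2.1 : ℝ) / d := by positivity
  have h1 : (u.2.1 : ℝ) / d ≤ 1 := by
    rw [div_le_one (by exact_mod_cast hd)]
    exact_mod_cast u.2.1.isLt.le
  unfold mixf
  split_ifs
  · nlinarith
  · nlinarith
  · norm_num
  · norm_num

theorem mixf_big {K m : ℕ} (d : ℕ) (u : Fin (K + 1) × Fin d × Fin m) :
    ∃ κ, 1 / 2 ≤ |mixf d u κ| := by
  by_cases h : (u.2.1 : ℝ) / d ≤ 1 / 2
  · refine ⟨(u.1.castSucc, u.2.2), ?_⟩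
    have h1 : mixf d u (u.1.castSucc, u.2.2) = 1 - (u.2.1 : ℝ) / d := by simp [mixf]
    rw [h1, abs_of_nonneg (by linarith)]
    linarith
  · refine ⟨(u.1.succ, u.2.2), ?_⟩
    have hne : u.1.succ ≠ u.1.castSucc := by
      intro h
      have := congrArg Fin.val h
      simp at this
    have h1 : mixf d u (u.1.succ, u.2.2) = (u.2.1 : ℝ) / d := by simp [mixf, hne]
    push Not at h
    rw [h1, abs_of_nonneg (by linarith)]
    exact h.le

theorem mixf_eq_zero {K m : ℕ} (d : ℕ) (u : Fin (K + 1) × Fin d × Fin m)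
    (κ : Fin (K + 2) × Fin m) (h : κ.2 ≠ u.2.2 ∨ ((κ.1 : ℕ) ≠ u.1 ∧ (κ.1 : ℕ) ≠ u.1 + 1)) :
    mixf d u κ = 0 := by
  unfold mixf
  rcases h with h | ⟨h1, h2⟩
  · simp [h]
  · have e1 : κ.1 ≠ u.1.castSucc := by
      intro h
      exact h1 (by rw [h]; simp)
    have e2 : κ.1 ≠ u.1.succ := by
      intro h
      exact h2 (by rw [h]; simp)
    simp [e1, e2]

/-- the coefficients of the energy of a chain -/
noncomputable def bco {n m K d : ℕ} (w : Fin n → Fin m → ℝ)
    (y : Fin (K + 1) → Fin n × Fin (K + 1)) (θ : Fin (K + 1) → Fin d)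
    (u : Fin (K + 1) × Fin d × Fin m) : ℝ :=
  ∑ t ∈ maj (fun t => ((y t).2 : ℕ)), if (y t).2 = u.1 ∧ θ t = u.2.1 then w (y t).1 u.2.2 else 0

theorem sum_bco {n m K d : ℕ} (w : Fin n → Fin m → ℝ)
    (y : Fin (K + 1) → Fin n × Fin (K + 1)) (θ : Fin (K + 1) → Fin d)
    (f : Fin (K + 1) × Fin d × Fin m → ℝ) :
    ∑ u, bco w y θ u * f u =
      ∑ t ∈ maj (fun t => ((y t).2 : ℕ)), ∑ j, w (y t).1 j * f ((y t).2, θ t, j) := by
  unfold bco
  simp only [Finset.sum_mul]
  rw [Finset.sum_comm]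
  refine Finset.sum_congr rfl fun t _ => ?_
  rw [Fintype.sum_prod_type]
  rw [Finset.sum_eq_single (y t).2]
  · rw [Fintype.sum_prod_type]
    rw [Finset.sum_eq_single (θ t)]
    · simp
    · intro b _ hb
      refine Finset.sum_eq_zero fun j _ => ?_
      simp [hb.symm]
    · intro h
      exact absurd (Finset.mem_univ _) h
  · intro b _ hb
    refine Finset.sum_eq_zero fun q _ => ?_
    simp [hb.symm]
  · intro h
    exact absurd (Finset.mem_univ _) h

end Pool.Agent.SVM
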