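import Pool.Agent.SVM.StepA

set_option autoImplicit false

/-!
# [SVM-ST] one step: existence of the samples
-/

namespace Pool.Agent.SVM

open Finset

/-- the hard constraints -/
noncomputable def vv {n m K : ℕ} (f g : Fin n → Fin m → ℝ) :
    (Fin (K + 2) × Fin n) ⊕ (Fin (K + 2) × Fin n) ⊕ (Fin (K + 2) × Fin m) →
      Fin (K + 2) × Fin m → ℝ
  | .inl p => lift p.1 (f p.2)
  | .inr (.inl p) => lift p.1 (g p.2)
  | .inr (.inr p) => lift p.1 (fun j => if j = p.2 then 1 else 0)

/-- their thresholds -/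
noncomputable def tv {n m K : ℕ} (T P : ℝ) :
    (Fin (K + 2) × Fin n) ⊕ (Fin (K + 2) × Fin n) ⊕ (Fin (K + 2) × Fin m) → ℝ
  | .inl _ => T
  | .inr (.inl _) => P / 320000
  | .inr (.inr _) => 1 / 2

theorem exp_small (P : ℝ) (hP : (10 : ℝ) ^ 13 ≤ P) :
    320000 ^ 2 * Real.exp (-(P / (8192 * 10 ^ 6))) ≤ 1 / 10 := by
  have h1 : (1000 : ℝ) ≤ P / (8192 * 10 ^ 6) := by
    rw [le_div_iff₀ (by norm_num)]
    linarith
  have h2 : Real.exp (-(P / (8192 * 10 ^ 6))) ≤ Real.exp (-1000) :=
    Real.exp_le_exp.2 (by linarith)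
  have h3 : Real.exp (-1000) = (Real.exp 100 ^ 10)⁻¹ := by
    rw [Real.exp_neg, ← Real.exp_nat_mul]
    norm_num
  have h4 : (101 : ℝ) ≤ Real.exp 100 := by
    have := Real.add_one_le_exp (100 : ℝ)
    linarith
  have h5 : (101 : ℝ) ^ 10 ≤ Real.exp 100 ^ 10 := pow_le_pow_left₀ (by norm_num) h4 10
  have h6 : (Real.exp 100 ^ 10)⁻¹ ≤ ((101 : ℝ) ^ 10)⁻¹ := inv_anti₀ (by norm_num) h5
  calc 320000 ^ 2 * Real.exp (-(P / (8192 * 10 ^ 6))) ≤ 320000 ^ 2 * ((101 : ℝ) ^ 10)⁻¹ := by
        refine mul_le_mul_of_nonneg_left ?_ (by norm_num)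
        rw [h3] at h2
        exact h2.trans h6
    _ ≤ 1 / 10 := by norm_num

theorem exp_box : 4 * Real.exp (-(100 * (1 / 2 : ℝ) ^ 2 / (8 * 1))) ≤ 1 / 5 := by
  have h1 : Real.exp (-(100 * (1 / 2 : ℝ) ^ 2 / (8 * 1))) ≤ Real.exp (-3) :=
    Real.exp_le_exp.2 (by norm_num)
  have h2 : Real.exp (-3) = (Real.exp 1 ^ 3)⁻¹ := by
    rw [Real.exp_neg, ← Real.exp_nat_mul]
    norm_num
  have h3 : (2.7182818283 : ℝ) < Real.exp 1 := Real.exp_one_gt_d9
  have h4 : (20 : ℝ) ≤ Real.exp 1 ^ 3 := by
    have := pow_le_pow_left₀ (by norm_num) h3.le 3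
    norm_num at this ⊢
    linarith
  have h5 : (Real.exp 1 ^ 3)⁻¹ ≤ (20 : ℝ)⁻¹ := inv_anti₀ (by norm_num) h4
  rw [h2] at h1
  linarith

theorem samples {n m : ℕ} (V : Fin n → Fin m → ℝ) (R P T : ℝ) (d D1 K : ℕ)
    (hV1 : ∀ i j, |V i j| ≤ 1) (hcol : ∀ j, ∑ i, |V i j| ≤ R)
    (hD : ∀ i, (univ.filter (fun i' => ¬ Disjoint (sp V i') (sp V i))).card ≤ D1)
    (a σ : Fin m → ℝ) (ha0 : ∀ j, 0 ≤ a j) (ha1 : ∀ j, a j ≤ 1) (hσ : ∀ j, |σ j| = 1)
    (hP : ∀ i, ∑ j, |V i j| * √(a j) ≤ P)
    (hPbig : (10 : ℝ) ^ 13 ≤ P) (hRP : R ≤ P ^ 2)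
    (hT0 : 0 < T) (hPT : P ≤ T ^ 2)
    (hc1 : R / T ^ 2 * Real.exp (-(12 * T ^ 2 / P)) ≤ 2 / 5)
    (hd : 640000 ≤ d)
    (hc3 : 4 * (D1 : ℝ) ^ (d + 3) * d * Real.exp (-(P / 32000)) ≤ 1 / 2)
    (hD1 : 1 ≤ D1) (hK : n ≤ 2 ^ K) :
    ∃ x : Fin (K + 2) × Fin m → ℝ, (∀ l j, |x (l, j)| ≤ 1 / 2) ∧
      (∀ l i, |∑ j, V i j * a j * x (l, j)| ≤ T) ∧
      (∀ l i, |∑ j, |V i j| * √(a j) * σ j * x (l, j)| ≤ P / 320000) ∧
      ∀ (y : Fin (K + 1) → Fin n × Fin (K + 1)) (θ : Fin (K + 1) → Fin d),
        Chain V d K y → (∀ t, P / 2 ≤ ∑ j, |V (y t).1 j| * √(a j)) →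
        (∀ s t, s ≠ t → (y s).2 = (y t).2 → Disjoint (sp V (y s).1) (sp V (y t).1)) →
        ∑ t ∈ maj (fun t => ((y t).2 : ℕ)), (∑ j, |V (y t).1 j| * √(a j)) / 8000 ≤
          ∑ t ∈ maj (fun t => ((y t).2 : ℕ)), ∑ j, |V (y t).1 j| * √(a j) *
            ((1 - ((θ t : ℕ) : ℝ) / d) * x ((y t).2.castSucc, j) +
              ((θ t : ℕ) : ℝ) / d * x ((y t).2.succ, j)) ^ 2 := by
  classical
  have hd0 : 0 < d := by omega
  have hP0 : (0 : ℝ) < P := lt_of_lt_of_le (by norm_num) hPbig
  set w : Fin n → Fin m → ℝ := fun i j => |V i j| * √(a j) with hw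
  have hs0 : ∀ j, 0 ≤ √(a j) := fun j => Real.sqrt_nonneg _
  have hs1 : ∀ j, √(a j) ≤ 1 := fun j => Real.sqrt_le_one.2 (ha1 j)
  have has : ∀ j, a j ≤ √(a j) := fun j => by
    have := Real.mul_self_sqrt (ha0 j)
    nlinarith [hs0 j, hs1 j]
  have hw0 : ∀ i j, 0 ≤ w i j := fun i j => mul_nonneg (abs_nonneg _) (hs0 j)
  have hw1 : ∀ i j, w i j ≤ 1 := fun i j => mul_le_one₀ (hV1 i j) (hs0 j) (hs1 j)
  have hσ2 : ∀ j, σ j ^ 2 = 1 := fun j => by rw [← sq_abs, hσ, one_pow]
  -- the forms
  let f : Fin n → Fin m → ℝ := fun i j => V i j * a j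
  let g : Fin n → Fin m → ℝ := fun i j => |V i j| * √(a j) * σ j
  have hf2 : ∀ i j, f i j ^ 2 ≤ w i j := by
    intro i j
    have h1 : f i j ^ 2 = |V i j| ^ 2 * (a j * a j) := by
      simp only [f]
      rw [sq_abs]
      ring
    rw [h1, hw]
    have h2 : |V i j| ^ 2 ≤ |V i j| := by
      nlinarith [abs_nonneg (V i j), hV1 i j]
    have h3 : a j * a j ≤ √(a j) := by
      nlinarith [ha0 j, ha1 j, has j]
    exact mul_le_mul h2 h3 (mul_nonneg (ha0 j) (ha0 j)) (abs_nonneg _)
  have hg2 : ∀ i j, g i j ^ 2 ≤ w i j := by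
    intro i j
    have h1 : g i j ^ 2 = (|V i j| * √(a j)) ^ 2 := by
      simp only [g]
      rw [mul_pow, hσ2, mul_one]
    rw [h1]
    change w i j ^ 2 ≤ w i j
    nlinarith [hw0 i j, hw1 i j]
  have hfV : ∀ i j, f i j ^ 2 ≤ |V i j| := fun i j => (hf2 i j).trans (by
    have := mul_le_mul_of_nonneg_left (hs1 j) (abs_nonneg (V i j))
    simpa [hw] using this)
  have hgV : ∀ i j, g i j ^ 2 ≤ |V i j| := fun i j => (hg2 i j).trans (by
    have := mul_le_mul_of_nonneg_left (hs1 j) (abs_nonneg (V i j))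
    simpa [hw] using this)
  have hnf : ∀ i, ∑ j, f i j ^ 2 ≤ P := fun i =>
    (Finset.sum_le_sum fun j _ => hf2 i j).trans (hP i)
  have hng : ∀ i, ∑ j, g i j ^ 2 ≤ P := fun i =>
    (Finset.sum_le_sum fun j _ => hg2 i j).trans (hP i)
  -- the index set of energies
  let Ω := {y : Fin (K + 1) → Fin n × Fin (K + 1) // Chain V d K y ∧
      (∀ t, P / 2 ≤ ∑ j, w (y t).1 j) ∧
      (∀ s t, s ≠ t → (y s).2 = (y t).2 → Disjoint (sp V (y s).1) (sp V (y t).1))} ×
      (Fin (K + 1) → Fin d)
  have hΩ : (Fintype.card Ω : ℝ) ≤ n * (4 * (D1 : ℝ) ^ (d + 3)) ^ K * (d : ℝ) ^ (K + 1) := by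
    have h1 : Fintype.card {y : Fin (K + 1) → Fin n × Fin (K + 1) // Chain V d K y ∧
      (∀ t, P / 2 ≤ ∑ j, w (y t).1 j) ∧
      (∀ s t, s ≠ t → (y s).2 = (y t).2 → Disjoint (sp V (y s).1) (sp V (y t).1))} ≤
        n * (4 * D1 ^ (d + 3)) ^ K := by
      have h2 := chain_count (sp V) d K D1 hD
      rw [Fintype.card_fin] at h2
      refine le_trans ?_ h2
      rw [Fintype.card_subtype]
      apply Finset.card_le_card
      intro y hy
      rw [Finset.mem_filter] at hy ⊢
      exact ⟨Finset.mem_univ _, hy.2.1⟩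
    have h3 : Fintype.card Ω ≤ n * (4 * D1 ^ (d + 3)) ^ K * d ^ (K + 1) := by
      simp only [Ω]
      rw [Fintype.card_prod]
      refine Nat.mul_le_mul h1 (le_of_eq ?_)
      simp
    exact_mod_cast h3
  obtain ⟨x, hx1, hx2⟩ := exists_good (ι := Fin (K + 2) × Fin m)
    (A := (Fin (K + 2) × Fin n) ⊕ (Fin (K + 2) × Fin n) ⊕ (Fin (K + 2) × Fin m))
    (U := Fin (K + 1) × Fin d × Fin m) (Ω := Ω) (vv f g) (tv T P)
    (fun ω u => bco w ω.1.1 ω.2 u) (fun u => mixf d u)
    (fun ω => ∑ t ∈ maj (fun t => ((ω.1.1 t).2 : ℕ)), (∑ j, w (ω.1.1 t).1 j) / 8000)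
    (by
      rintro (p | p | p)
      · exact hT0
      · simp only [tv]; positivity
      · simp only [tv]; norm_num)
    (by
      intro ω u
      exact Finset.sum_nonneg fun t _ => by
        split_ifs
        · exact hw0 _ _
        · exact le_rfl)
    (by
      rintro (p | p | p)
      · simp only [vv, tv, nsq_lift]
        have := hnf p.2
        nlinarith
      · simp only [vv, tv, nsq_lift]
        have h1 := hng p.2
        have h2 : 16 * P ≤ 100 * (P / 320000) ^ 2 := by
          have : 100 * (P / 320000) ^ 2 = P * (P * (100 / 320000 ^ 2)) := by ring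
          rw [this]
          nlinarith
        linarith
      · simp only [vv, tv, nsq_lift]
        have h1 : ∑ j, (if j = p.2 then (1 : ℝ) else 0) ^ 2 = 1 := by
          rw [Finset.sum_eq_single p.2]
          · simp
          · intro b _ hb
            simp [hb]
          · intro h
            exact absurd (Finset.mem_univ _) h
        rw [h1]
        norm_num)
    (by
      intro κ
      refine ⟨.inr (.inr κ), ?_⟩
      simp [vv, lift])
    (by
      rintro ⟨l, j⟩
      rw [Fintype.sum_sum_type, Fintype.sum_sum_type]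
      have e1 : ∑ p : Fin (K + 2) × Fin n, (vv (K := K) f g (.inl p) (l, j) / tv (m := m) T P (.inl p)) ^ 2 *
          Real.exp (-(100 * tv (m := m) T P (.inl p) ^ 2 / (8 * nsq (vv (K := K) f g (.inl p))))) ≤ 2 / 5 := by
        rw [Fintype.sum_prod_type, Finset.sum_eq_single l]
        · calc ∑ i : Fin n, (vv (K := K) f g (.inl (l, i)) (l, j) / tv (m := m) T P (.inl (l, i))) ^ 2 *
              Real.exp (-(100 * tv (m := m) T P (.inl (l, i)) ^ 2 /
                (8 * nsq (vv (K := K) f g (.inl (l, i)))))) ≤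
              ∑ i : Fin n, |V i j| * (1 / T ^ 2 * Real.exp (-(12 * T ^ 2 / P))) := by
                refine Finset.sum_le_sum fun i _ => ?_
                simp only [vv, tv, nsq_lift, lift, if_true]
                rw [div_pow, ← mul_assoc, mul_one_div]
                by_cases h0 : f i j ^ 2 = 0
                · rw [h0, zero_div, zero_mul]
                  positivity
                · have hpos : 0 < f i j ^ 2 := lt_of_le_of_ne (sq_nonneg _) (Ne.symm h0)
                  have hN : 0 < ∑ j, f i j ^ 2 :=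
                    lt_of_lt_of_le hpos (Finset.single_le_sum (fun j _ => sq_nonneg (f i j))
                      (Finset.mem_univ j))
                  refine mul_le_mul ?_ ?_ (Real.exp_nonneg _) (by positivity)
                  · exact div_le_div_of_nonneg_right (hfV i j) (by positivity)
                  · apply Real.exp_le_exp.2
                    apply neg_le_neg
                    rw [div_le_div_iff₀ hP0 (by positivity)]
                    nlinarith [hnf i, sq_nonneg T]
          _ = (∑ i : Fin n, |V i j|) * (1 / T ^ 2 * Real.exp (-(12 * T ^ 2 / P))) := by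
                rw [Finset.sum_mul]
          _ ≤ R * (1 / T ^ 2 * Real.exp (-(12 * T ^ 2 / P))) :=
                mul_le_mul_of_nonneg_right (hcol j) (by positivity)
          _ = R / T ^ 2 * Real.exp (-(12 * T ^ 2 / P)) := by ring
          _ ≤ 2 / 5 := hc1
        · intro b _ hb
          refine Finset.sum_eq_zero fun i _ => ?_
          simp [vv, lift, hb.symm]
        · intro h
          exact absurd (Finset.mem_univ _) h
      have e2 : ∑ p : Fin (K + 2) × Fin n, (vv (K := K) f g (.inr (.inl p)) (l, j) /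
            tv (m := m) T P (.inr (.inl p))) ^ 2 *
          Real.exp (-(100 * tv (m := m) T P (.inr (.inl p)) ^ 2 /
            (8 * nsq (vv (K := K) f g (.inr (.inl p)))))) ≤ 1 / 10 := by
        rw [Fintype.sum_prod_type, Finset.sum_eq_single l]
        · calc ∑ i : Fin n, (vv (K := K) f g (.inr (.inl (l, i))) (l, j) /
                tv (m := m) T P (.inr (.inl (l, i)))) ^ 2 *
              Real.exp (-(100 * tv (m := m) T P (.inr (.inl (l, i))) ^ 2 /
                (8 * nsq (vv (K := K) f g (.inr (.inl (l, i))))))) ≤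
              ∑ i : Fin n, |V i j| * (320000 ^ 2 / P ^ 2 *
                Real.exp (-(P / (8192 * 10 ^ 6)))) := by
                refine Finset.sum_le_sum fun i _ => ?_
                simp only [vv, tv, nsq_lift, lift, if_true]
                by_cases h0 : g i j ^ 2 = 0
                · rw [div_pow, h0, zero_div, zero_mul]
                  positivity
                · have hpos : 0 < g i j ^ 2 := lt_of_le_of_ne (sq_nonneg _) (Ne.symm h0)
                  have hN : 0 < ∑ j, g i j ^ 2 :=
                    lt_of_lt_of_le hpos (Finset.single_le_sum (fun j _ => sq_nonneg (g i j))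
                      (Finset.mem_univ j))
                  have e3 : (g i j / (P / 320000)) ^ 2 = g i j ^ 2 * (320000 ^ 2 / P ^ 2) := by
                    field_simp
                  rw [e3, mul_assoc]
                  refine mul_le_mul (hgV i j) ?_ (by positivity) (abs_nonneg _)
                  refine mul_le_mul_of_nonneg_left ?_ (by positivity)
                  apply Real.exp_le_exp.2
                  apply neg_le_neg
                  rw [div_le_div_iff₀ (by norm_num) (by positivity)]
                  have h5 := hng i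
                  nlinarith [mul_le_mul_of_nonneg_left h5 hP0.le]
          _ = (∑ i : Fin n, |V i j|) * (320000 ^ 2 / P ^ 2 *
                Real.exp (-(P / (8192 * 10 ^ 6)))) := by
                rw [Finset.sum_mul]
          _ ≤ P ^ 2 * (320000 ^ 2 / P ^ 2 * Real.exp (-(P / (8192 * 10 ^ 6)))) :=
                mul_le_mul_of_nonneg_right ((hcol j).trans hRP) (by positivity)
          _ = 320000 ^ 2 * Real.exp (-(P / (8192 * 10 ^ 6))) := by
                field_simp
          _ ≤ 1 / 10 := exp_small P hPbig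
        · intro b _ hb
          refine Finset.sum_eq_zero fun i _ => ?_
          simp [vv, lift, hb.symm]
        · intro h
          exact absurd (Finset.mem_univ _) h
      have e3 : ∑ p : Fin (K + 2) × Fin m, (vv (K := K) f g (.inr (.inr p)) (l, j) /
            tv (n := n) T P (.inr (.inr p))) ^ 2 *
          Real.exp (-(100 * tv (n := n) T P (.inr (.inr p)) ^ 2 /
            (8 * nsq (vv (K := K) f g (.inr (.inr p)))))) ≤ 1 / 5 := by
        rw [Fintype.sum_prod_type, Finset.sum_eq_single l, Finset.sum_eq_single j]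
        · simp only [vv, tv, nsq_lift, lift, if_true]
          have h1 : ∑ j', (if j' = j then (1 : ℝ) else 0) ^ 2 = 1 := by
            rw [Finset.sum_eq_single j]
            · simp
            · intro b _ hb
              simp [hb]
            · intro h
              exact absurd (Finset.mem_univ _) h
          rw [h1]
          have := exp_box
          have e4 : ((1 : ℝ) / (1 / 2)) ^ 2 = 4 := by norm_num
          rw [e4]
          exact this
        · intro b _ hb
          simp [vv, lift, hb.symm]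
        · intro h
          exact absurd (Finset.mem_univ _) h
        · intro b _ hb
          refine Finset.sum_eq_zero fun i _ => ?_
          simp [vv, lift, hb.symm]
        · intro h
          exact absurd (Finset.mem_univ _) h
      linarith)
    (by
      rintro ⟨⟨y, hy1, hy2, hy3⟩, θ⟩ ⟨l, j⟩
      rw [sum_bco]
      simp only
      -- at most one member of the class contributes
      have hterm : ∀ t, ∑ j', w (y t).1 j' * mixf (m := m) d ((y t).2, θ t, j') (l, j) ^ 2 ≤ 1 := by
        intro t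
        rw [Finset.sum_eq_single j]
        · have h1 := mixf_sq_le (m := m) d hd0 ((y t).2, θ t, j) (l, j)
          have h2 := hw1 (y t).1 j
          have h3 := hw0 (y t).1 j
          have h4 := sq_nonneg (mixf (m := m) d ((y t).2, θ t, j) (l, j))
          calc w (y t).1 j * mixf (m := m) d ((y t).2, θ t, j) (l, j) ^ 2 ≤ 1 * 1 :=
                mul_le_mul h2 h1 h4 zero_le_one
            _ = 1 := one_mul 1
        · intro b _ hb
          rw [mixf_eq_zero (m := m) d _ _ (Or.inl hb.symm)]
          ring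
        · intro h
          exact absurd (Finset.mem_univ _) h
      have hzero : ∀ t, (j ∉ sp V (y t).1 ∨ ((l : ℕ) ≠ (y t).2 ∧ (l : ℕ) ≠ (y t).2 + 1)) →
          ∑ j', w (y t).1 j' * mixf (m := m) d ((y t).2, θ t, j') (l, j) ^ 2 = 0 := by
        intro t ht
        refine Finset.sum_eq_zero fun j' _ => ?_
        by_cases hj : j' = j
        · subst hj
          rcases ht with ht | ht
          · have : V (y t).1 j' = 0 := by
              by_contra hne
              exact ht (Finset.mem_filter.2 ⟨Finset.mem_univ _, hne⟩)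
            simp [hw, this]
          · rw [mixf_eq_zero (m := m) d _ _ (Or.inr ht)]
            ring
        · rw [mixf_eq_zero (m := m) d _ _ (Or.inl (Ne.symm hj))]
          ring
      by_cases hex : ∃ t ∈ maj (fun t => ((y t).2 : ℕ)), j ∈ sp V (y t).1 ∧
          ((l : ℕ) = (y t).2 ∨ (l : ℕ) = (y t).2 + 1)
      · obtain ⟨t, ht, hjt, hlt⟩ := hex
        rw [Finset.sum_eq_single t]
        · exact hterm t
        · intro s hs hst
          apply hzero
          by_contra hcon
          push Not at hcon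
          obtain ⟨hc1, hc2⟩ := hcon
          have hpar : ((y s).2 : ℕ) % 2 = ((y t).2 : ℕ) % 2 := maj_par _ s t hs ht
          have hlev : (y s).2 = (y t).2 := by
            apply Fin.ext
            by_cases h5 : (l : ℕ) = (y s).2
            · rcases hlt with h6 | h6 <;> omega
            · have h7 := hc2 h5
              rcases hlt with h6 | h6 <;> omega
          have hdis := hy3 s t hst hlev
          exact (Finset.disjoint_left.1 hdis) hc1 hjt
        · intro h
          exact absurd ht h
      · push Not at hex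
        rw [Finset.sum_eq_zero]
        · exact zero_le_one
        · intro t ht
          apply hzero
          by_cases hj : j ∈ sp V (y t).1
          · right
            exact hex t ht hj
          · left
            exact hj)
    (by
      intro ω u _
      exact mixf_big d u)
    (by
      have hexp : ∀ ω : Ω, Real.exp (∑ t ∈ maj (fun t => ((ω.1.1 t).2 : ℕ)),
          (∑ j, w (ω.1.1 t).1 j) / 8000 - 1 / 4000 * ∑ u, bco w ω.1.1 ω.2 u) ≤
          Real.exp (-(P / 32000)) ^ (K + 1) := by
        rintro ⟨⟨y, hy1, hy2, hy3⟩, θ⟩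
        rw [← Real.exp_nat_mul]
        apply Real.exp_le_exp.2
        have h1 : ∑ u, bco w y θ u = ∑ t ∈ maj (fun t => ((y t).2 : ℕ)), ∑ j, w (y t).1 j := by
          have := sum_bco w y θ (fun _ => 1)
          simpa using this
        simp only
        rw [h1]
        have h2 : ∑ t ∈ maj (fun t => ((y t).2 : ℕ)), (∑ j, w (y t).1 j) / 8000 =
            (∑ t ∈ maj (fun t => ((y t).2 : ℕ)), ∑ j, w (y t).1 j) / 8000 := by
          rw [Finset.sum_div]
        rw [h2]
        have h3 : ((maj (fun t => ((y t).2 : ℕ))).card : ℝ) * (P / 2) ≤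
            ∑ t ∈ maj (fun t => ((y t).2 : ℕ)), ∑ j, w (y t).1 j := by
          rw [← nsmul_eq_mul]
          exact Finset.card_nsmul_le_sum _ _ _ fun t _ => hy2 t
        have h4 : ((K + 1 : ℕ) : ℝ) ≤ 2 * ((maj (fun t => ((y t).2 : ℕ))).card : ℝ) := by
          exact_mod_cast maj_card (fun t => ((y t).2 : ℕ))
        nlinarith
      calc ∑ ω : Ω, Real.exp (∑ t ∈ maj (fun t => ((ω.1.1 t).2 : ℕ)),
          (∑ j, w (ω.1.1 t).1 j) / 8000 - 1 / 4000 * ∑ u, bco w ω.1.1 ω.2 u) ≤
          ∑ _ω : Ω, Real.exp (-(P / 32000)) ^ (K + 1) := Finset.sum_le_sum fun ω _ => hexp ω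
        _ = (Fintype.card Ω : ℝ) * Real.exp (-(P / 32000)) ^ (K + 1) := by
            rw [Finset.sum_const, Finset.card_univ, nsmul_eq_mul]
        _ ≤ n * (4 * (D1 : ℝ) ^ (d + 3)) ^ K * (d : ℝ) ^ (K + 1) *
            Real.exp (-(P / 32000)) ^ (K + 1) :=
            mul_le_mul_of_nonneg_right hΩ (by positivity)
        _ = n * (4 * (D1 : ℝ) ^ (d + 3) * d * Real.exp (-(P / 32000))) ^ K *
            (d * Real.exp (-(P / 32000))) := by
            rw [mul_pow, mul_pow, pow_succ, pow_succ]
            ring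
        _ ≤ 2 ^ K * (1 / 2) ^ K * (1 / 8) := by
            have hD1' : (1 : ℝ) ≤ (D1 : ℝ) ^ (d + 3) := one_le_pow₀ (by exact_mod_cast hD1)
            have h5 : (d : ℝ) * Real.exp (-(P / 32000)) ≤ 1 / 8 := by
              have h6 : 0 ≤ (d : ℝ) * Real.exp (-(P / 32000)) := by positivity
              nlinarith
            have h7 : (n : ℝ) ≤ 2 ^ K := by exact_mod_cast hK
            have h8 : (4 * (D1 : ℝ) ^ (d + 3) * d * Real.exp (-(P / 32000))) ^ K ≤ (1 / 2) ^ K :=
              pow_le_pow_left₀ (by positivity) hc3 K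
            exact mul_le_mul (mul_le_mul h7 h8 (by positivity) (by positivity)) h5
              (by positivity) (by positivity)
        _ = 1 / 8 := by
            rw [← mul_pow]
            norm_num
        _ < 1 := by norm_num)
  refine ⟨x, ?_, ?_, ?_, ?_⟩
  · intro l j
    have := hx1 (.inr (.inr (l, j)))
    simp only [vv, tv, dot_lift] at this
    simpa using this
  · intro l i
    have := hx1 (.inl (l, i))
    simp only [vv, tv, dot_lift] at this
    exact this
  · intro l i
    have := hx1 (.inr (.inl (l, i)))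
    simp only [vv, tv, dot_lift] at this
    exact this
  · intro y θ hy1 hy2 hy3
    have := hx2 (⟨y, hy1, hy2, hy3⟩, θ)
    simp only at this
    rw [sum_bco] at this
    simp only [dot_mixf] at this
    exact this

end Pool.Agent.SVM
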