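import Pool.Agent.SVM.Shift
import Pool.Agent.SVM.Bump

set_option autoImplicit false

/-!
# [SVM-WT] basic facts on the weight `wt`

`wt β v T b ℓ S x = F x * exp (-(β/2) nsq x)` with
`F x = (∏ a∈S, bump (dot (v a) x / T a)^2) * exp (-∑ b u (dot (ℓ u) x)^2)`, which is continuous, even,
`0 ≤ F ≤ 1` and `F x F y ≤ F ((x+y)/2)^2` (for the exponential: `((s+t)/2)^2 ≤ (s^2+t^2)/2`).

`wt_erase_tail`: put `E = 2 exp (-(100 T²/(8 nsq v)))`; by `tail_le` (with `w = v a`, `s = T a / 2`)
the integral of `wt (S.erase a)` over `{T a / 2 ≤ |dot (v a) x|}` is `≤ E ∫ wt (S.erase a)` and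
`E ≤ 2 exp(-2) ≤ 1/2`; on the complement `wt (S.erase a) = wt S` (`bump_eq_one`), so
`∫ wt (S.erase a) ≤ 2 ∫ wt S`.  (If `nsq (v a) = 0` then `dot (v a) x = 0` and the set is empty.)
-/

namespace Pool.Agent.SVM

open MeasureTheory Finset

theorem Weight_aux.dot_continuous {ι : Type*} [Fintype ι] (w : ι → ℝ) :
    Continuous (fun x : ι → ℝ => dot w x) := by
  unfold dot
  fun_prop

theorem Weight_aux.nsq_continuous {ι : Type*} [Fintype ι] :
    Continuous (fun x : ι → ℝ => nsq x) := by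
  unfold nsq
  fun_prop

theorem Weight_aux.nsq_nonneg {ι : Type*} [Fintype ι] (x : ι → ℝ) : 0 ≤ nsq x :=
  Finset.sum_nonneg fun i _ => sq_nonneg (x i)

theorem Weight_aux.dot_neg {ι : Type*} [Fintype ι] (w x : ι → ℝ) :
    dot w (fun i => -x i) = -dot w x := by
  unfold dot
  rw [← Finset.sum_neg_distrib]
  exact Finset.sum_congr rfl fun i _ => by ring

theorem Weight_aux.dot_mid {ι : Type*} [Fintype ι] (w x y : ι → ℝ) :
    dot w (fun i => (x i + y i) / 2) = (dot w x + dot w y) / 2 := by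
  unfold dot
  rw [← Finset.sum_add_distrib, Finset.sum_div]
  exact Finset.sum_congr rfl fun i _ => by ring

theorem Weight_aux.dot_sq_le {ι : Type*} [Fintype ι] (w x : ι → ℝ) :
    dot w x ^ 2 ≤ nsq w * nsq x := by
  unfold dot nsq
  exact Finset.sum_mul_sq_le_sq_mul_sq _ _ _

section

variable {ι A U : Type*} [Fintype ι] [Fintype U] [DecidableEq A]
variable (v : A → ι → ℝ) (T : A → ℝ) (b : U → ℝ) (ℓ : U → ι → ℝ) (S : Finset A)

/-- the non gaussian factor of the weight -/
noncomputable def Weight_aux.FF (x : ι → ℝ) : ℝ :=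
  (∏ a ∈ S, bump (dot (v a) x / T a) ^ 2) * Real.exp (-∑ u, b u * dot (ℓ u) x ^ 2)

omit [DecidableEq A] in
theorem Weight_aux.wt_eq (β : ℝ) (x : ι → ℝ) :
    wt β v T b ℓ S x = Weight_aux.FF v T b ℓ S x * Real.exp (-(β / 2) * nsq x) := by
  unfold wt Weight_aux.FF
  rw [mul_assoc, ← Real.exp_add]
  congr 2
  ring

omit [DecidableEq A] in
theorem Weight_aux.FF_continuous : Continuous (Weight_aux.FF v T b ℓ S) := by
  unfold Weight_aux.FF
  refine Continuous.mul ?_ ?_
  · refine continuous_finsetProd _ fun a _ => ?_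
    exact (bump_continuous.comp ((Weight_aux.dot_continuous (v a)).div_const _)).pow 2
  · refine Real.continuous_exp.comp ?_
    refine Continuous.neg ?_
    refine continuous_finsetSum _ fun u _ => ?_
    exact ((Weight_aux.dot_continuous (ℓ u)).pow 2).const_mul (b u) |>.congr fun x => rfl

omit [DecidableEq A] in
theorem Weight_aux.FF_nonneg (x : ι → ℝ) : 0 ≤ Weight_aux.FF v T b ℓ S x :=
  mul_nonneg (Finset.prod_nonneg fun _ _ => sq_nonneg _) (Real.exp_pos _).le

omit [DecidableEq A] in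
theorem Weight_aux.FF_le_one (hb : ∀ u, 0 ≤ b u) (x : ι → ℝ) :
    Weight_aux.FF v T b ℓ S x ≤ 1 := by
  unfold Weight_aux.FF
  refine mul_le_one₀ ?_ (Real.exp_pos _).le ?_
  · refine Finset.prod_le_one (fun _ _ => sq_nonneg _) fun a _ => ?_
    exact pow_le_one₀ (bump_nonneg _) (bump_le_one _)
  · rw [Real.exp_le_one_iff, neg_nonpos]
    exact Finset.sum_nonneg fun u _ => mul_nonneg (hb u) (sq_nonneg _)

omit [DecidableEq A] in
theorem Weight_aux.FF_even (x : ι → ℝ) :
    Weight_aux.FF v T b ℓ S (fun i => -x i) = Weight_aux.FF v T b ℓ S x := by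
  unfold Weight_aux.FF
  congr 1
  · refine Finset.prod_congr rfl fun a _ => ?_
    rw [Weight_aux.dot_neg, neg_div, bump_neg]
  · congr 2
    refine Finset.sum_congr rfl fun u _ => ?_
    rw [Weight_aux.dot_neg, neg_sq]

omit [DecidableEq A] in
theorem Weight_aux.FF_logconcave (hb : ∀ u, 0 ≤ b u) (x y : ι → ℝ) :
    Weight_aux.FF v T b ℓ S x * Weight_aux.FF v T b ℓ S y ≤
      Weight_aux.FF v T b ℓ S (fun i => (x i + y i) / 2) ^ 2 := by
  unfold Weight_aux.FF
  rw [mul_pow, mul_mul_mul_comm, ← Finset.prod_mul_distrib, ← Finset.prod_pow]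
  refine mul_le_mul ?_ ?_ (mul_nonneg (Real.exp_pos _).le (Real.exp_pos _).le)
    (Finset.prod_nonneg fun _ _ => by positivity)
  · refine Finset.prod_le_prod (fun _ _ => by positivity) fun a _ => ?_
    rw [Weight_aux.dot_mid]
    have h := bump_logconcave (dot (v a) x / T a) (dot (v a) y / T a)
    have e : (dot (v a) x / T a + dot (v a) y / T a) / 2 = (dot (v a) x + dot (v a) y) / 2 / T a := by
      ring
    rw [e] at h
    rw [← mul_pow]
    exact pow_le_pow_left₀ (mul_nonneg (bump_nonneg _) (bump_nonneg _)) h 2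
  · rw [← Real.exp_add, ← Real.exp_nat_mul, Real.exp_le_exp, ← neg_add, ← Finset.sum_add_distrib]
    push_cast
    rw [mul_neg, neg_le_neg_iff, Finset.mul_sum]
    refine Finset.sum_le_sum fun u _ => ?_
    rw [Weight_aux.dot_mid]
    nlinarith [mul_nonneg (hb u) (sq_nonneg (dot (ℓ u) x - dot (ℓ u) y))]

theorem wt_nonneg (β : ℝ) (x : ι → ℝ) : 0 ≤ wt β v T b ℓ S x := by
  rw [Weight_aux.wt_eq]
  exact mul_nonneg (Weight_aux.FF_nonneg v T b ℓ S x) (Real.exp_pos _).le

theorem wt_continuous (β : ℝ) : Continuous (wt β v T b ℓ S) := by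
  have e : wt β v T b ℓ S = fun x => Weight_aux.FF v T b ℓ S x *
      Real.exp (-(β / 2) * nsq x) := funext fun x => Weight_aux.wt_eq v T b ℓ S β x
  rw [e]
  refine (Weight_aux.FF_continuous v T b ℓ S).mul (Real.continuous_exp.comp ?_)
  exact continuous_const.mul Weight_aux.nsq_continuous

theorem wt_le (β : ℝ) (hb : ∀ u, 0 ≤ b u) (x : ι → ℝ) :
    wt β v T b ℓ S x ≤ Real.exp (-(β / 2) * nsq x) := by
  rw [Weight_aux.wt_eq]
  exact mul_le_of_le_one_left (Real.exp_pos _).le (Weight_aux.FF_le_one v T b ℓ S hb x)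

theorem Weight_aux.integrable_exp (c : ℝ) (hc : 0 < c) :
    Integrable (fun x : ι → ℝ => Real.exp (-c * nsq x)) := by
  have h := integrable_gauss (ι := ι) c hc (fun _ => 0)
  simpa using h

theorem wt_integrable (β : ℝ) (hβ : 0 < β) (hb : ∀ u, 0 ≤ b u) :
    Integrable (wt β v T b ℓ S) := by
  refine (Weight_aux.integrable_exp (ι := ι) (β / 2) (by positivity)).mono'
    (wt_continuous v T b ℓ S β).aestronglyMeasurable ?_
  refine Filter.Eventually.of_forall fun x => ?_
  rw [Real.norm_of_nonneg (wt_nonneg v T b ℓ S β x)]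
  exact wt_le v T b ℓ S β hb x

theorem wt_integral_pos (β : ℝ) (hβ : 0 < β) (hb : ∀ u, 0 ≤ b u) :
    0 < ∫ x, wt β v T b ℓ S x := by
  rw [integral_pos_iff_support_of_nonneg (fun x => wt_nonneg v T b ℓ S β x)
    (wt_integrable v T b ℓ S β hβ hb)]
  have ho : IsOpen (Function.support (wt β v T b ℓ S)) :=
    (wt_continuous v T b ℓ S β).isOpen_support
  refine ho.measure_pos _ ⟨fun _ => 0, ?_⟩
  rw [Function.mem_support]
  have hd : ∀ w : ι → ℝ, dot w (fun _ => 0) = 0 := fun w => by simp [dot]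
  have hn : nsq (fun _ : ι => (0 : ℝ)) = 0 := by simp [nsq]
  have hb0 : bump 0 = 1 := bump_eq_one 0 (by simp)
  unfold wt
  simp [hd, hn, hb0]

theorem wt_dot_integrable (β : ℝ) (hβ : 0 < β) (hb : ∀ u, 0 ≤ b u) (w : ι → ℝ) :
    Integrable (fun x => dot w x ^ 2 * wt β v T b ℓ S x) := by
  have hi := (Weight_aux.integrable_exp (ι := ι) (β / 4) (by positivity)).const_mul
    (nsq w * (4 / β))
  refine hi.mono' (((Weight_aux.dot_continuous w).pow 2).mul
    (wt_continuous v T b ℓ S β)).aestronglyMeasurable ?_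
  refine Filter.Eventually.of_forall fun x => ?_
  have h0 : 0 ≤ dot w x ^ 2 * wt β v T b ℓ S x :=
    mul_nonneg (sq_nonneg _) (wt_nonneg v T b ℓ S β x)
  rw [Real.norm_of_nonneg h0]
  have h1 := Weight_aux.dot_sq_le w x
  have h2 := wt_le v T b ℓ S β hb x
  have h3 : (β / 4) * nsq x ≤ Real.exp ((β / 4) * nsq x) :=
    (by linarith [Real.add_one_le_exp ((β / 4) * nsq x)])
  have h4 : Real.exp (-(β / 2) * nsq x) =
      Real.exp (-(β / 4) * nsq x) * Real.exp (-(β / 4) * nsq x) := by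
    rw [← Real.exp_add]; ring_nf
  have h5 : Real.exp ((β / 4) * nsq x) * Real.exp (-(β / 4) * nsq x) = 1 := by
    rw [← Real.exp_add]; simp
  have h6 : nsq x * Real.exp (-(β / 4) * nsq x) ≤ 4 / β := by
    have h7 : (β / 4) * nsq x * Real.exp (-(β / 4) * nsq x) ≤ 1 := by
      rw [← h5]
      exact mul_le_mul_of_nonneg_right h3 (Real.exp_pos _).le
    rw [le_div_iff₀ hβ]
    linarith
  have hx := Weight_aux.nsq_nonneg x
  have hw := Weight_aux.nsq_nonneg w
  calc dot w x ^ 2 * wt β v T b ℓ S x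
      ≤ (nsq w * nsq x) * Real.exp (-(β / 2) * nsq x) :=
        mul_le_mul h1 h2 (wt_nonneg v T b ℓ S β x) (mul_nonneg hw hx)
    _ = nsq w * (nsq x * Real.exp (-(β / 4) * nsq x)) * Real.exp (-(β / 4) * nsq x) := by
        rw [h4]; ring
    _ ≤ nsq w * (4 / β) * Real.exp (-(β / 4) * nsq x) :=
        mul_le_mul_of_nonneg_right (mul_le_mul_of_nonneg_left h6 hw) (Real.exp_pos _).le

theorem wt_support (β : ℝ) (hT : ∀ a, 0 < T a) (x : ι → ℝ) (hx : wt β v T b ℓ S x ≠ 0)
    (a : A) (ha : a ∈ S) : |dot (v a) x| ≤ T a := by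
  by_contra hcon
  rw [not_le] at hcon
  apply hx
  unfold wt
  have h1 : 1 ≤ |dot (v a) x / T a| := by
    rw [abs_div, abs_of_pos (hT a), le_div_iff₀ (hT a), one_mul]
    exact hcon.le
  rw [Finset.prod_eq_zero ha (by rw [bump_eq_zero _ h1]; norm_num), zero_mul]

theorem wt_erase_tail (hT : ∀ a, 0 < T a) (hb : ∀ u, 0 ≤ b u)
    (H1 : ∀ a, 16 * nsq (v a) ≤ 100 * T a ^ 2) (a : A) (ha : a ∈ S) :
    ∫ x in {x | T a / 2 ≤ |dot (v a) x|}, wt 100 v T b ℓ (S.erase a) x ≤
      4 * Real.exp (-(100 * T a ^ 2 / (8 * nsq (v a)))) * ∫ x, wt 100 v T b ℓ S x := by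
  have hS0 : 0 ≤ ∫ x, wt 100 v T b ℓ S x :=
    integral_nonneg fun x => wt_nonneg v T b ℓ S 100 x
  have hTa := hT a
  rcases (Weight_aux.nsq_nonneg (v a)).eq_or_lt with h0 | h0
  · -- the linear form vanishes
    have hd : ∀ x, dot (v a) x = 0 := by
      intro x
      have h1 := Weight_aux.dot_sq_le (v a) x
      rw [← h0, zero_mul] at h1
      exact pow_eq_zero_iff (two_ne_zero) |>.1 (le_antisymm h1 (sq_nonneg _))
    have he : {x : ι → ℝ | T a / 2 ≤ |dot (v a) x|} = ∅ := by
      ext x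
      simp only [Set.mem_setOf_eq, hd, abs_zero, Set.mem_empty_iff_false, iff_false, not_le]
      positivity
    rw [he, Measure.restrict_empty, integral_zero_measure]
    positivity
  · set I0 := ∫ x, wt 100 v T b ℓ (S.erase a) x with hI0
    set D : Set (ι → ℝ) := {x | T a / 2 ≤ |dot (v a) x|} with hD
    have hDm : MeasurableSet D :=
      (isClosed_le continuous_const (Weight_aux.dot_continuous (v a)).abs).measurableSet
    have htail : ∫ x in D, wt 100 v T b ℓ (S.erase a) x ≤
        2 * Real.exp (-(100 * T a ^ 2 / (8 * nsq (v a)))) * I0 := by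
      have h := tail_le 100 (by norm_num) (Weight_aux.FF v T b ℓ (S.erase a))
        (Weight_aux.FF_continuous v T b ℓ (S.erase a)).measurable
        (Weight_aux.FF_nonneg v T b ℓ (S.erase a))
        (Weight_aux.FF_le_one v T b ℓ (S.erase a) hb)
        (Weight_aux.FF_even v T b ℓ (S.erase a))
        (Weight_aux.FF_logconcave v T b ℓ (S.erase a) hb) (v a) h0 (T a / 2) (by positivity)
      have e : ∀ x, Weight_aux.FF v T b ℓ (S.erase a) x * Real.exp (-(100 / 2) * nsq x) =
          wt 100 v T b ℓ (S.erase a) x := fun x => (Weight_aux.wt_eq v T b ℓ (S.erase a) 100 x).symm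
      simp only [e] at h
      have e2 : (100 : ℝ) * (T a / 2) ^ 2 / (2 * nsq (v a)) =
          100 * T a ^ 2 / (8 * nsq (v a)) := by
        field_simp
        ring
      rw [e2] at h
      exact h
    have hE : 2 * Real.exp (-(100 * T a ^ 2 / (8 * nsq (v a)))) ≤ 1 / 2 := by
      have h1 : (2 : ℝ) ≤ 100 * T a ^ 2 / (8 * nsq (v a)) := by
        rw [le_div_iff₀ (by positivity)]
        linarith [H1 a]
      have h2 : Real.exp (-(100 * T a ^ 2 / (8 * nsq (v a)))) ≤ Real.exp (-2) :=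
        Real.exp_le_exp.2 (by linarith)
      have h3 : Real.exp (-2) ≤ 1 / 4 := by
        rw [Real.exp_neg, one_div]
        apply inv_anti₀ (by norm_num)
        have h4 := Real.exp_one_gt_d9
        have h5 : Real.exp 2 = Real.exp 1 ^ 2 := by rw [← Real.exp_nat_mul]; norm_num
        rw [h5]
        nlinarith
      linarith
    have hint : Integrable (wt 100 v T b ℓ (S.erase a)) :=
      wt_integrable v T b ℓ (S.erase a) 100 (by norm_num) hb
    have hintS : Integrable (wt 100 v T b ℓ S) :=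
      wt_integrable v T b ℓ S 100 (by norm_num) hb
    have hsplit : (∫ x in D, wt 100 v T b ℓ (S.erase a) x) +
        (∫ x in Dᶜ, wt 100 v T b ℓ (S.erase a) x) = I0 := integral_add_compl hDm hint
    have hcompl : ∫ x in Dᶜ, wt 100 v T b ℓ (S.erase a) x ≤ ∫ x, wt 100 v T b ℓ S x := by
      have e : ∫ x in Dᶜ, wt 100 v T b ℓ (S.erase a) x = ∫ x in Dᶜ, wt 100 v T b ℓ S x := by
        refine setIntegral_congr_fun hDm.compl fun x hx => ?_
        have hx' : |dot (v a) x| < T a / 2 := by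
          rw [hD, Set.mem_compl_iff, Set.mem_setOf_eq, not_le] at hx
          exact hx
        have h1 : bump (dot (v a) x / T a) = 1 := by
          apply bump_eq_one
          rw [abs_div, abs_of_pos hTa, div_le_iff₀ hTa]
          linarith
        simp only [wt]
        rw [← Finset.mul_prod_erase S _ ha, h1]
        ring
      rw [e]
      exact setIntegral_le_integral hintS
        (Filter.Eventually.of_forall fun x => wt_nonneg v T b ℓ S 100 x)
    have hI0n : 0 ≤ I0 := integral_nonneg fun x => wt_nonneg v T b ℓ (S.erase a) 100 x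
    have hI : I0 ≤ 2 * ∫ x, wt 100 v T b ℓ S x := by
      have h1 : 2 * Real.exp (-(100 * T a ^ 2 / (8 * nsq (v a)))) * I0 ≤ 1 / 2 * I0 :=
        mul_le_mul_of_nonneg_right hE hI0n
      linarith
    have hEp : 0 ≤ 2 * Real.exp (-(100 * T a ^ 2 / (8 * nsq (v a)))) := by positivity
    have h2 := mul_le_mul_of_nonneg_left hI hEp
    linarith

end

end Pool.Agent.SVM
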